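import Pool.Agent.Q188.SB.Fin

/-!
# Halfspaces and variances of linear functionals
-/

set_option autoImplicit false
set_option linter.unusedSectionVars false

namespace Pool.Agent.Q73.KL

open MeasureTheory Set Filter Topology
open scoped ENNReal InnerProductSpace
open Pool.Agent.Q188.SB (un bdr)

variable {κ : Type} [Fintype κ]

/-- `μ {⟪u, x⟫ > b}` -/
noncomputable def Gu (μ : Measure (EuclideanSpace ℝ κ)) (u : EuclideanSpace ℝ κ) (b : ℝ) : ℝ :=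
  (μ {x | b < ⟪u, x⟫_ℝ}).toReal

variable {μ : Measure (EuclideanSpace ℝ κ)} [IsProbabilityMeasure μ] {u : EuclideanSpace ℝ κ}

theorem Gu_nonneg (b : ℝ) : 0 ≤ Gu μ u b := ENNReal.toReal_nonneg

theorem Gu_eq (b : ℝ) : Gu μ u b = 1 - (μ {x | ⟪u, x⟫_ℝ ≤ b}).toReal := by
  have h1 : {x : EuclideanSpace ℝ κ | b < ⟪u, x⟫_ℝ} = {x | ⟪u, x⟫_ℝ ≤ b}ᶜ := by
    ext x; simp
  have hm : MeasurableSet {x : EuclideanSpace ℝ κ | ⟪u, x⟫_ℝ ≤ b} :=
    measurableSet_le (by fun_prop) measurable_const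
  unfold Gu
  rw [h1, prob_compl_eq_one_sub hm, ENNReal.toReal_sub_of_le prob_le_one ENNReal.one_ne_top,
    ENNReal.toReal_one]

theorem Gu_anti : Antitone (Gu μ u) := fun a b hab =>
  ENNReal.toReal_mono (measure_ne_top _ _) (measure_mono fun _ hx => lt_of_le_of_lt hab hx)

theorem Gu_cont (h0 : ∀ b, μ {x | ⟪u, x⟫_ℝ = b} = 0) : Continuous (Gu μ u) := by
  have e : ∀ b, Gu μ u b = ∫ x, {x : EuclideanSpace ℝ κ | b < ⟪u, x⟫_ℝ}.indicator (fun _ => (1:ℝ)) x ∂μ := by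
    intro b
    rw [integral_indicator_const _ (measurableSet_lt measurable_const (by fun_prop)), smul_eq_mul,
      mul_one]
    rfl
  rw [show Gu μ u = fun b => ∫ x, {x : EuclideanSpace ℝ κ | b < ⟪u, x⟫_ℝ}.indicator (fun _ => (1:ℝ)) x ∂μ
    from funext e]
  rw [continuous_iff_continuousAt]
  intro b
  refine continuousAt_of_dominated (bound := fun _ => 1) (Eventually.of_forall fun c => ?_)
    (Eventually.of_forall fun c => Eventually.of_forall fun x => ?_) (integrable_const _) ?_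
  · exact (measurable_const.indicator (measurableSet_lt measurable_const (by fun_prop))).aestronglyMeasurable
  · rw [Real.norm_of_nonneg (indicator_nonneg (fun _ _ => zero_le_one) _)]
    exact indicator_le' (fun _ _ => le_rfl) (fun _ _ => zero_le_one) _
  · have h1 : ∀ᵐ x ∂μ, ⟪u, x⟫_ℝ ≠ b := by
      rw [ae_iff]
      simpa using h0 b
    filter_upwards [h1] with x hx
    rcases lt_or_gt_of_ne hx with hlt | hgt
    · have : (fun _ : ℝ => (0:ℝ)) =ᶠ[𝓝 b] fun c =>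
          {x : EuclideanSpace ℝ κ | c < ⟪u, x⟫_ℝ}.indicator (fun _ => (1:ℝ)) x := by
        filter_upwards [lt_mem_nhds hlt] with c hc
        rw [indicator_of_notMem]
        simp only [mem_ofPred_eq, not_lt]
        exact hc.le
      exact continuousAt_const.congr this
    · have : (fun _ : ℝ => (1:ℝ)) =ᶠ[𝓝 b] fun c =>
          {x : EuclideanSpace ℝ κ | c < ⟪u, x⟫_ℝ}.indicator (fun _ => (1:ℝ)) x := by
        filter_upwards [gt_mem_nhds hgt] with c hc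
        rw [indicator_of_mem]
        exact hc
      exact continuousAt_const.congr this

theorem thick_sub (hu : ‖u‖ = 1) (b ε : ℝ) :
    Metric.thickening ε {x : EuclideanSpace ℝ κ | ⟪u, x⟫_ℝ ≤ b} ⊆ {x | ⟪u, x⟫_ℝ ≤ b + ε} := by
  intro x hx
  rw [Metric.mem_thickening_iff] at hx
  obtain ⟨y, hy, hxy⟩ := hx
  have hy' : ⟪u, y⟫_ℝ ≤ b := hy
  have h1 : ⟪u, x⟫_ℝ = ⟪u, y⟫_ℝ + ⟪u, x - y⟫_ℝ := by rw [inner_sub_right]; ring
  have h2 : ⟪u, x - y⟫_ℝ ≤ ‖u‖ * ‖x - y‖ := real_inner_le_norm _ _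
  rw [hu, one_mul, ← dist_eq_norm] at h2
  show ⟪u, x⟫_ℝ ≤ b + ε
  linarith

/-- exponential decay of the tail -/
theorem decay (hu : ‖u‖ = 1) (h0 : ∀ b, μ {x | ⟪u, x⟫_ℝ = b} = 0) {τ : ℝ} (hτ : 0 < τ)
    (H : ∀ b : ℝ, ENNReal.ofReal τ * min (μ {x | ⟪u, x⟫_ℝ ≤ b}) (1 - μ {x | ⟪u, x⟫_ℝ ≤ b}) ≤
      bdr μ {x | ⟪u, x⟫_ℝ ≤ b}) {m : ℝ} (hm : Gu μ u m ≤ 1 / 2) {r : ℝ} (hr : 0 ≤ r) :
    Gu μ u (m + r) ≤ 1 / 2 * Real.exp (-(τ / 2 * r)) := by
  have key := image_le_of_liminf_slope_right_lt_deriv_boundary' (f := Gu μ u)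
    (f' := fun x => -(τ * Gu μ u x)) (a := m) (b := m + r) (Gu_cont h0).continuousOn (fun x hx ρ hρ => ?_)
    (B := fun x => 1 / 2 * Real.exp (-(τ / 2 * (x - m))))
    (B' := fun x => -(τ / 2) * (1 / 2 * Real.exp (-(τ / 2 * (x - m)))))
    (by simpa using hm) (by fun_prop) (fun x hx => ?_) (fun x hx hxe => ?_)
    (show m + r ∈ Icc m (m + r) from ⟨by linarith, le_rfl⟩)
  · simpa using key
  · -- slopes
    have hGx : Gu μ u x ≤ 1 / 2 := (Gu_anti hx.1).trans hm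
    refine Eventually.frequently ?_
    by_cases hρ0 : 0 < ρ
    · filter_upwards [self_mem_nhdsWithin] with z hz
      have hz' : x < z := hz
      rw [slope_def_field]
      refine lt_of_le_of_lt ?_ hρ0
      exact div_nonpos_of_nonpos_of_nonneg (sub_nonpos.2 (Gu_anti hz'.le)) (by linarith)
    push Not at hρ0
    have hH := H x
    have e1 : μ {x_1 | ⟪u, x_1⟫_ℝ ≤ x} = ENNReal.ofReal (1 - Gu μ u x) := by
      rw [Gu_eq, sub_sub_cancel, ENNReal.ofReal_toReal (measure_ne_top _ _)]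
    have e2 : (1 : ℝ≥0∞) - μ {x_1 | ⟪u, x_1⟫_ℝ ≤ x} = ENNReal.ofReal (Gu μ u x) := by
      rw [e1, ← ENNReal.ofReal_one, ← ENNReal.ofReal_sub _ (by linarith)]
      congr 1
      ring
    rw [e2, e1, min_eq_right (ENNReal.ofReal_le_ofReal (by linarith)),
      ← ENNReal.ofReal_mul hτ.le] at hH
    have h1 : ENNReal.ofReal (-ρ) < bdr μ {x_1 | ⟪u, x_1⟫_ℝ ≤ x} := by
      refine lt_of_lt_of_le ?_ hH
      rw [ENNReal.ofReal_lt_ofReal_iff_of_nonneg (by linarith)]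
      linarith
    have h2 := eventually_lt_of_lt_liminf h1
    have h3 : Tendsto (fun z : ℝ => z - x) (𝓝[>] x) (𝓝[>] 0) := by
      refine tendsto_nhdsWithin_iff.2 ⟨?_, ?_⟩
      · have : Tendsto (fun z : ℝ => z - x) (𝓝 x) (𝓝 (x - x)) := (continuous_id.sub continuous_const).tendsto x
        rw [sub_self] at this
        exact this.mono_left nhdsWithin_le_nhds
      · filter_upwards [self_mem_nhdsWithin] with z hz
        have hz' : x < z := hz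
        exact sub_pos.2 hz'
    filter_upwards [h3.eventually h2, self_mem_nhdsWithin] with z hz hzx
    have hzx' : 0 < z - x := sub_pos.2 hzx
    rw [slope_def_field, div_lt_iff₀ hzx']
    have h4 : μ (Metric.thickening (z - x) {x_1 | ⟪u, x_1⟫_ℝ ≤ x}) ≤ μ {x_1 | ⟪u, x_1⟫_ℝ ≤ z} := by
      refine measure_mono ((thick_sub hu x (z - x)).trans ?_)
      intro y hy
      have hy' : ⟪u, y⟫_ℝ ≤ x + (z - x) := hy
      show ⟪u, y⟫_ℝ ≤ z
      linarith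
    have h5 : ENNReal.ofReal (-ρ) < ENNReal.ofReal ((Gu μ u x - Gu μ u z) / (z - x)) := by
      refine lt_of_lt_of_le hz ?_
      rw [ENNReal.ofReal_div_of_pos hzx']
      refine ENNReal.div_le_div_right ?_ _
      have e3 : μ {x_1 | ⟪u, x_1⟫_ℝ ≤ z} = ENNReal.ofReal (1 - Gu μ u z) := by
        rw [Gu_eq, sub_sub_cancel, ENNReal.ofReal_toReal (measure_ne_top _ _)]
      refine (tsub_le_tsub_right h4 _).trans ?_
      rw [e3, e1, ← ENNReal.ofReal_sub _ (by linarith)]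
      exact ENNReal.ofReal_le_ofReal (by linarith)
    rw [ENNReal.ofReal_lt_ofReal_iff_of_nonneg (by linarith), lt_div_iff₀ hzx'] at h5
    linarith
  · have h1 : HasDerivAt (fun x : ℝ => 1 / 2 * Real.exp (-(τ / 2 * (x - m))))
        (1 / 2 * (Real.exp (-(τ / 2 * (x - m))) * -(τ / 2 * 1))) x :=
      ((((hasDerivAt_id x).sub_const m).const_mul (τ / 2)).neg.exp).const_mul _
    have h2 : 1 / 2 * (Real.exp (-(τ / 2 * (x - m))) * -(τ / 2 * 1)) =
        -(τ / 2) * (1 / 2 * Real.exp (-(τ / 2 * (x - m)))) := by ring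
    rw [h2] at h1
    exact h1.hasDerivWithinAt
  · rw [hxe]
    have := Real.exp_pos (-(τ / 2 * (x - m)))
    nlinarith

theorem exp_mom {τ : ℝ} (hτ : 0 < τ) :
    ∫⁻ r in Ioi (0:ℝ), ENNReal.ofReal (Real.exp (-(τ / 2 * r))) * ENNReal.ofReal (r ^ ((2:ℝ) - 1)) =
      ENNReal.ofReal (4 / τ ^ 2) := by
  have h1 := Real.integral_rpow_mul_exp_neg_mul_Ioi (a := 2) (r := τ / 2) (by norm_num) (by positivity)
  have h2 : (1 / (τ / 2)) ^ (2:ℝ) * Real.Gamma 2 = 4 / τ ^ 2 := by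
    rw [Real.Gamma_two, mul_one]
    rw [show (2:ℝ) = ((2:ℕ):ℝ) by norm_num, Real.rpow_natCast]
    field_simp
    norm_num
  rw [h2] at h1
  rw [← h1, ofReal_integral_eq_lintegral_ofReal]
  · refine setLIntegral_congr_fun measurableSet_Ioi fun r hr => ?_
    have hr' : (0:ℝ) < r := hr
    rw [← ENNReal.ofReal_mul (Real.exp_pos _).le, mul_comm]
  · by_contra hc
    have : ∫ t : ℝ in Ioi 0, t ^ ((2:ℝ) - 1) * Real.exp (-(τ / 2 * t)) = 0 := integral_undef hc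
    rw [this] at h1
    have : 0 < 4 / τ ^ 2 := by positivity
    linarith
  · refine (ae_restrict_iff' measurableSet_Ioi).2 (Eventually.of_forall fun r hr => ?_)
    have hr' : (0:ℝ) < r := hr
    exact mul_nonneg (Real.rpow_nonneg hr'.le _) (Real.exp_pos _).le

/-- **variance bound from halfspaces** -/
theorem half_mom (hu : ‖u‖ = 1) (h0 : ∀ b, μ {x | ⟪u, x⟫_ℝ = b} = 0) {τ : ℝ} (hτ : 0 < τ)
    (H : ∀ b : ℝ, ENNReal.ofReal τ * min (μ {x | ⟪u, x⟫_ℝ ≤ b}) (1 - μ {x | ⟪u, x⟫_ℝ ≤ b}) ≤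
      bdr μ {x | ⟪u, x⟫_ℝ ≤ b})
    (H' : ∀ b : ℝ, ENNReal.ofReal τ * min (μ {x | ⟪-u, x⟫_ℝ ≤ b}) (1 - μ {x | ⟪-u, x⟫_ℝ ≤ b}) ≤
      bdr μ {x | ⟪-u, x⟫_ℝ ≤ b}) {m : ℝ} (hm : Gu μ u m = 1 / 2) :
    ∫⁻ x, ENNReal.ofReal ((⟪u, x⟫_ℝ - m) ^ 2) ∂μ ≤ ENNReal.ofReal (8 / τ ^ 2) := by
  have h0' : ∀ b, μ {x | ⟪-u, x⟫_ℝ = b} = 0 := by
    intro b
    have : {x : EuclideanSpace ℝ κ | ⟪-u, x⟫_ℝ = b} = {x | ⟪u, x⟫_ℝ = -b} := by
      ext x
      simp only [mem_ofPred_eq, inner_neg_left]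
      constructor <;> intro h <;> linarith
    rw [this]
    exact h0 _
  have hm' : Gu μ (-u) (-m) ≤ 1 / 2 := by
    have e1 : {x : EuclideanSpace ℝ κ | -m < ⟪-u, x⟫_ℝ} ⊆ {x | ⟪u, x⟫_ℝ ≤ m} := by
      intro x hx
      have hx' : -m < ⟪-u, x⟫_ℝ := hx
      rw [inner_neg_left] at hx'
      show ⟪u, x⟫_ℝ ≤ m
      linarith
    have e2 := Gu_eq (μ := μ) (u := u) m
    rw [hm] at e2
    have e3 : Gu μ (-u) (-m) ≤ (μ {x | ⟪u, x⟫_ℝ ≤ m}).toReal :=
      ENNReal.toReal_mono (measure_ne_top _ _) (measure_mono e1)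
    linarith
  have h1 : ∀ r : ℝ, 0 ≤ r → μ {x | r < |⟪u, x⟫_ℝ - m|} ≤ ENNReal.ofReal (Real.exp (-(τ / 2 * r))) := by
    intro r hr
    have e1 : {x : EuclideanSpace ℝ κ | r < |⟪u, x⟫_ℝ - m|} ⊆
        {x | m + r < ⟪u, x⟫_ℝ} ∪ {x | -m + r < ⟪-u, x⟫_ℝ} := by
      intro x hx
      have hx' : r < |⟪u, x⟫_ℝ - m| := hx
      rcases lt_abs.1 hx' with h | h
      · left
        show m + r < ⟪u, x⟫_ℝ
        linarith
      · right
        show -m + r < ⟪-u, x⟫_ℝ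
        rw [inner_neg_left]
        linarith
    have d1 := decay hu h0 hτ H hm.le hr
    have d2 := decay (u := -u) (by rw [norm_neg]; exact hu) h0' hτ H' hm' hr
    calc μ {x | r < |⟪u, x⟫_ℝ - m|} ≤ μ {x | m + r < ⟪u, x⟫_ℝ} + μ {x | -m + r < ⟪-u, x⟫_ℝ} :=
          (measure_mono e1).trans (measure_union_le _ _)
      _ = ENNReal.ofReal (Gu μ u (m + r)) + ENNReal.ofReal (Gu μ (-u) (-m + r)) := by
          unfold Gu
          rw [ENNReal.ofReal_toReal (measure_ne_top _ _), ENNReal.ofReal_toReal (measure_ne_top _ _)]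
      _ ≤ _ := by
          rw [← ENNReal.ofReal_add (Gu_nonneg _) (Gu_nonneg _)]
          exact ENNReal.ofReal_le_ofReal (by linarith)
  have h2 := lintegral_rpow_eq_lintegral_meas_lt_mul μ (f := fun x => |⟪u, x⟫_ℝ - m|)
    (Eventually.of_forall fun x => abs_nonneg _) (by fun_prop) (p := 2) (by norm_num)
  have h3 : ∀ x : EuclideanSpace ℝ κ, |⟪u, x⟫_ℝ - m| ^ (2:ℝ) = (⟪u, x⟫_ℝ - m) ^ 2 := by
    intro x
    rw [show (2:ℝ) = ((2:ℕ):ℝ) by norm_num, Real.rpow_natCast, sq_abs]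
  simp only [h3] at h2
  rw [h2]
  calc ENNReal.ofReal 2 * ∫⁻ t in Ioi (0:ℝ), μ {a | t < |⟪u, a⟫_ℝ - m|} * ENNReal.ofReal (t ^ ((2:ℝ) - 1))
      ≤ ENNReal.ofReal 2 * ∫⁻ r in Ioi (0:ℝ), ENNReal.ofReal (Real.exp (-(τ / 2 * r))) *
          ENNReal.ofReal (r ^ ((2:ℝ) - 1)) := by
        refine mul_le_mul' le_rfl (setLIntegral_mono' measurableSet_Ioi fun r hr => ?_)
        exact mul_le_mul' (h1 r (le_of_lt hr)) le_rfl
    _ = ENNReal.ofReal (8 / τ ^ 2) := by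
        rw [exp_mom hτ, ← ENNReal.ofReal_mul (by norm_num)]
        congr 1
        ring

/-- existence of the median -/
theorem exists_med (h0 : ∀ b, μ {x | ⟪u, x⟫_ℝ = b} = 0) {R : ℝ} (hR : 0 ≤ R)
    (hb : ∀ᵐ x ∂μ, |⟪u, x⟫_ℝ| ≤ R) : ∃ m, Gu μ u m = 1 / 2 := by
  have h1 : Gu μ u (-(R + 1)) = 1 := by
    unfold Gu
    have h3 : ∀ᵐ x ∂μ, x ∈ {x : EuclideanSpace ℝ κ | -(R + 1) < ⟪u, x⟫_ℝ} := by
      filter_upwards [hb] with x hx
      show -(R + 1) < ⟪u, x⟫_ℝ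
      have := (abs_le.1 hx).1
      linarith
    have : μ {x | -(R + 1) < ⟪u, x⟫_ℝ} = 1 := by
      rw [measure_eq_measure_of_null_sdiff (subset_univ _) (by
        rw [ae_iff] at h3
        have e : univ \ {x : EuclideanSpace ℝ κ | -(R + 1) < ⟪u, x⟫_ℝ} =
          {a | a ∉ {x : EuclideanSpace ℝ κ | -(R + 1) < ⟪u, x⟫_ℝ}} := by
          ext x; simp
        rw [e]
        exact h3), measure_univ]
    rw [this, ENNReal.toReal_one]
  have h2 : Gu μ u (R + 1) = 0 := by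
    unfold Gu
    have : μ {x | (R + 1) < ⟪u, x⟫_ℝ} = 0 := by
      have h3 : ∀ᵐ x ∂μ, ¬ (R + 1 < ⟪u, x⟫_ℝ) := by
        filter_upwards [hb] with x hx
        have := (abs_le.1 hx).2
        linarith
      rw [ae_iff] at h3
      simpa using h3
    rw [this, ENNReal.toReal_zero]
  have h3 := intermediate_value_Icc' (a := -(R + 1)) (b := R + 1) (by linarith)
    (Gu_cont (μ := μ) (u := u) h0).continuousOn
  rw [h1, h2] at h3
  obtain ⟨m, -, hm⟩ := h3 (show (1 / 2 : ℝ) ∈ Icc 0 1 by constructor <;> norm_num)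
  exact ⟨m, hm⟩

end Pool.Agent.Q73.KL
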