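import Pool.Agent.Q73.KL.Body
import Pool.Agent.Q73.KL.Half
import Pool.Agent.Q188.NC.Hyp

/-!
# Final forms for box-fibred convex sets
-/

set_option autoImplicit false
set_option linter.unusedSectionVars false

namespace Pool.Agent.Q73.KL

open MeasureTheory Set Filter Topology
open scoped ENNReal InnerProductSpace
open Pool.Agent.H212R2.KLS (mu)
open Pool.Agent.W695.KH (EV VV)
open Pool.Agent.Q188.SB (un bdr rr mu_rr int_rr)

variable {k n : ℕ}

theorem VV_eq_center {K : Set (Ek k n)} (h : Bx K) : ∃ c : Ek k n, ∀ θ : Ek k n,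
    EV K (fun x => ⟪θ, x - c⟫_ℝ ^ 2) = VV K fun x => ⟪x, θ⟫_ℝ := by
  have hp : IsProbabilityMeasure (mu (rr K)) := ⟨mass_rr' h⟩
  refine ⟨WithLp.toLp 2 fun c => ∫ x, x c ∂(mu (rr K)), fun θ => ?_⟩
  have hi : ∀ c, Integrable (fun x : Ek k n => x c) (mu (rr K)) := fun c =>
    integrable_rr h (by fun_prop)
  have e1 : ∫ x, ⟪θ, x⟫_ℝ ∂(mu (rr K)) =
      ⟪θ, (WithLp.toLp 2 fun c => ∫ x : Ek k n, x c ∂(mu (rr K)) : Ek k n)⟫_ℝ := by
    simp only [PiLp.inner_apply]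
    rw [integral_finsetSum _ fun c _ => by
      simpa using (hi c).mul_const (θ c)]
    refine Finset.sum_congr rfl fun c _ => ?_
    simp only [Real.inner_apply]
    rw [← integral_const_mul]
  set c : Ek k n := WithLp.toLp 2 fun c => ∫ x : Ek k n, x c ∂(mu (rr K)) with hc
  unfold VV
  rw [← int_rr K h.meas, ← int_rr K h.meas, ← int_rr K h.meas]
  have e2 : ∀ x : Ek k n, ⟪x, θ⟫_ℝ = ⟪θ, x⟫_ℝ := fun x => real_inner_comm _ _
  simp only [e2]
  rw [e1]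
  have e3 : ∀ x : Ek k n, ⟪θ, x - c⟫_ℝ ^ 2 = (⟪θ, x⟫_ℝ ^ 2 - 2 * ⟪θ, c⟫_ℝ * ⟪θ, x⟫_ℝ) + ⟪θ, c⟫_ℝ ^ 2 := by
    intro x
    rw [inner_sub_right]
    ring
  simp only [e3]
  have i1 : Integrable (fun x : Ek k n => ⟪θ, x⟫_ℝ ^ 2) (mu (rr K)) := integrable_rr h (by fun_prop)
  have i2 : Integrable (fun x : Ek k n => 2 * ⟪θ, c⟫_ℝ * ⟪θ, x⟫_ℝ) (mu (rr K)) :=
    integrable_rr h (by fun_prop)
  have i3 : Integrable (fun x : Ek k n => ⟪θ, x⟫_ℝ ^ 2 - 2 * ⟪θ, c⟫_ℝ * ⟪θ, x⟫_ℝ) (mu (rr K)) := i1.sub i2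
  rw [integral_add i3 (integrable_const _), integral_sub i1 i2, integral_const_mul, e1]
  simp only [integral_const, probReal_univ, smul_eq_mul, one_mul]
  ring

theorem VV_smul (K : Set (Ek k n)) (a : ℝ) (f : Ek k n → ℝ) :
    VV K (fun x => a * f x) = a ^ 2 * VV K f := by
  unfold VV EV
  have e1 : ∀ x, (a * f x) ^ 2 = a ^ 2 * f x ^ 2 := fun x => by ring
  simp only [e1, integral_const_mul]
  ring

/-- variance of Lipschitz functions, with variances of linear functionals -/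
theorem gapA {K : Set (Ek k n)} (h : Bx K) (hn : 0 < n) {s : ℝ} (hs0 : 0 ≤ s)
    (hs : ∀ θ : Ek k n, ‖θ‖ = 1 → VV K (fun x => ⟪x, θ⟫_ℝ) ≤ s)
    {f : Ek k n → ℝ} (hf : ContDiff ℝ 1 f) (hf' : ∀ x, ‖fderiv ℝ f x‖ ≤ 1) :
    VV K f ≤ CC k * s := by
  obtain ⟨c, hc⟩ := VV_eq_center h
  refine body_gap h hn hs0 c (fun θ => ?_) hf hf'
  rw [hc]
  by_cases h0 : θ = 0
  · rw [h0]
    have : VV K (fun x : Ek k n => ⟪x, (0 : Ek k n)⟫_ℝ) = 0 := by
      unfold VV EV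
      simp
    rw [this, norm_zero]
    simp
  have hn0 : 0 < ‖θ‖ := norm_pos_iff.2 h0
  have h1 := hs (‖θ‖⁻¹ • θ) (by rw [norm_smul, norm_inv, norm_norm, inv_mul_cancel₀ hn0.ne'])
  have e1 : (fun x : Ek k n => ⟪x, θ⟫_ℝ) = fun x => ‖θ‖ * ⟪x, ‖θ‖⁻¹ • θ⟫_ℝ := by
    funext x
    rw [real_inner_smul_right, ← mul_assoc, mul_inv_cancel₀ hn0.ne', one_mul]
  rw [e1, VV_smul, mul_comm s]
  exact mul_le_mul_of_nonneg_left h1 (sq_nonneg _)

/-- hyperplanes are null sets -/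
theorem hyp_null {κ : Type} [Fintype κ] {u : EuclideanSpace ℝ κ} (hu : ‖u‖ = 1) (b : ℝ) :
    volume {x : EuclideanSpace ℝ κ | ⟪u, x⟫_ℝ = b} = 0 := by
  have h1 := Measure.addHaar_affineSubspace (volume : Measure (EuclideanSpace ℝ κ))
    (AffineSubspace.mk' (b • u) (Submodule.span ℝ {u})ᗮ) (fun htop => ?_)
  · refine measure_mono_null (fun x hx => ?_) h1
    have hx' : ⟪u, x⟫_ℝ = b := hx
    rw [SetLike.mem_coe, AffineSubspace.mem_mk', Submodule.mem_orthogonal_singleton_iff_inner_right,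
      vsub_eq_sub, inner_sub_right, real_inner_smul_right, real_inner_self_eq_norm_sq, hu, hx']
    ring
  · have h2 : b • u + u ∈ AffineSubspace.mk' (b • u) (Submodule.span ℝ {u})ᗮ := by
      rw [htop]
      exact AffineSubspace.mem_top _ _ _
    rw [AffineSubspace.mem_mk', Submodule.mem_orthogonal_singleton_iff_inner_right,
      vsub_eq_sub, add_sub_cancel_left, real_inner_self_eq_norm_sq, hu] at h2
    norm_num at h2

/-- **halfspaces control the variances**, for every convex body -/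
theorem half_VV {κ : Type} [Fintype κ] {K : Set (EuclideanSpace ℝ κ)} (hK : IsCompact K)
    (hpos : 0 < volume K) {τ : ℝ} (hτ : 0 < τ)
    (H : ∀ (u : EuclideanSpace ℝ κ) (b : ℝ), u ≠ 0 →
      ENNReal.ofReal τ * min (un K {x | ⟪u, x⟫_ℝ ≤ b}) (1 - un K {x | ⟪u, x⟫_ℝ ≤ b}) ≤
        bdr (un K) {x | ⟪u, x⟫_ℝ ≤ b}) {u : EuclideanSpace ℝ κ} (hu : ‖u‖ = 1) :
    VV K (fun x => ⟪x, u⟫_ℝ) ≤ 8 / τ ^ 2 := by
  have hp := Pool.Agent.Q188.SB.un_prob K hK hpos
  have hu0 : u ≠ 0 := by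
    rw [← norm_ne_zero_iff, hu]
    exact one_ne_zero
  have h0 : ∀ b, un K {x | ⟪u, x⟫_ℝ = b} = 0 := by
    intro b
    unfold un
    rw [Measure.smul_apply, smul_eq_mul]
    have : volume.restrict K {x : EuclideanSpace ℝ κ | ⟪u, x⟫_ℝ = b} = 0 :=
      le_antisymm ((Measure.restrict_apply_le _ _).trans (hyp_null hu b).le) bot_le
    rw [this, mul_zero]
  obtain ⟨R, hR⟩ := hK.isBounded.exists_norm_le
  have hb : ∀ᵐ x ∂(un K), |⟪u, x⟫_ℝ| ≤ |R| := by
    have h1 : ∀ᵐ x ∂(un K), x ∈ K := by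
      unfold un
      refine Measure.ae_smul_measure ?_ _
      exact ae_restrict_mem hK.measurableSet
    filter_upwards [h1] with x hx
    refine (abs_real_inner_le_norm _ _).trans ?_
    rw [hu, one_mul]
    exact (hR x hx).trans (le_abs_self R)
  obtain ⟨m, hm⟩ := exists_med h0 (abs_nonneg R) hb
  have h2 := half_mom hu h0 hτ (fun b => H u b hu0) (fun b => H (-u) b (neg_ne_zero.2 hu0)) hm
  have h3 := (var_of_lint (f := fun x : EuclideanSpace ℝ κ => ⟪u, x⟫_ℝ) (by fun_prop)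
    (by positivity) h2).2
  rw [Pool.Agent.Q188.SB.int_un, Pool.Agent.Q188.SB.int_un] at h3
  have e2 : (fun x : EuclideanSpace ℝ κ => ⟪x, u⟫_ℝ) = fun x => ⟪u, x⟫_ℝ :=
    funext fun x => real_inner_comm _ _
  unfold VV
  rw [e2]
  exact h3

/-- spectral gap in three forms -/
theorem gap3 {K : Set (Ek k n)} (hc : Convex ℝ K) (hK : IsCompact K) (hpos : 0 < volume K)
    (hb : Box K) (hn : 0 < n) {s : ℝ} (hs0 : 0 < s)
    (hs : ∀ θ : Ek k n, ‖θ‖ = 1 → VV K (fun x => ⟪x, θ⟫_ℝ) ≤ s) :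
    (∀ f : Ek k n → ℝ, ContDiff ℝ 1 f → (∀ x, ‖fderiv ℝ f x‖ ≤ 1) →
      ProbabilityTheory.variance f (un K) ≤ CC k * s) ∧
    (∀ f : Ek k n → ℝ, ContDiff ℝ 1 f → (∀ x, |f x| ≤ 1) →
      ProbabilityTheory.variance f (un K) ^ 2 ≤
        8 * (CC k * s) * ∫ x, ‖fderiv ℝ f x‖ ^ 2 ∂(un K)) ∧
    (∀ S : Set (Ek k n), un K S = 1 / 2 →
      ENNReal.ofReal (1 / (240 * Real.sqrt (CC k * s))) ≤ bdr (un K) S) := by
  have hB := Bx.of_compact hc hK hpos hb
  have hlip : ∀ f : Ek k n → ℝ, ContDiff ℝ 1 f → (∀ x, ‖fderiv ℝ f x‖ ≤ 1) → VV K f ≤ CC k * s :=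
    fun f hf hf' => gapA hB hn hs0.le hs hf hf'
  have hD : 0 < CC k * s := mul_pos (CC_pos k) hs0
  refine ⟨fun f hf hf1 => ?_, fun f hf hf1 => ?_, fun S hS => ?_⟩
  · rw [Pool.Agent.Q188.SB.var_un K hK hpos f hf.continuous]
    exact hlip f hf hf1
  · rw [Pool.Agent.Q188.SB.var_un K hK hpos f hf.continuous, Pool.Agent.Q188.SB.int_un]
    exact Pool.Agent.Q188.SB.nash K hK hc hpos _ hD hlip f hf hf1
  · exact Pool.Agent.Q188.SB.half_sets K hK hc hpos _ hD hlip (un K) rfl S hS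

/-- the halfspace form -/
theorem half3 {K : Set (Ek k n)} (hc : Convex ℝ K) (hK : IsCompact K) (hpos : 0 < volume K)
    (hb : Box K) (hn : 0 < n) (t : ℝ≥0∞)
    (ht : ∀ (u : Ek k n) (b : ℝ), u ≠ 0 →
      t * min (un K {x | ⟪u, x⟫_ℝ ≤ b}) (1 - un K {x | ⟪u, x⟫_ℝ ≤ b}) ≤
        bdr (un K) {x | ⟪u, x⟫_ℝ ≤ b}) (S : Set (Ek k n)) (hS : un K S = 1 / 2) :
    ENNReal.ofReal (1 / (720 * Real.sqrt (CC k))) * t ≤ bdr (un K) S := by
  have hCC := CC_pos k
  have key : ∀ τ : ℝ, 0 < τ → ENNReal.ofReal τ ≤ t →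
      ENNReal.ofReal (1 / (720 * Real.sqrt (CC k))) * ENNReal.ofReal τ ≤ bdr (un K) S := by
    intro τ hτ hτt
    have h1 := (gap3 hc hK hpos hb hn (s := 8 / τ ^ 2) (by positivity) (fun θ hθ =>
      half_VV hK hpos hτ (fun u b hu => (mul_le_mul' hτt le_rfl).trans (ht u b hu)) hθ)).2.2 S hS
    refine le_trans ?_ h1
    rw [← ENNReal.ofReal_mul (by positivity)]
    refine ENNReal.ofReal_le_ofReal ?_
    have e1 : Real.sqrt (CC k * (8 / τ ^ 2)) = Real.sqrt (CC k) * (Real.sqrt 8 / τ) := by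
      rw [Real.sqrt_mul hCC.le, Real.sqrt_div (by norm_num), Real.sqrt_sq hτ.le]
    have e2 : Real.sqrt 8 ≤ 3 := by
      rw [Real.sqrt_le_left (by norm_num)]
      norm_num
    have hsC : 0 < Real.sqrt (CC k) := Real.sqrt_pos.2 hCC
    rw [e1]
    have h8 : 0 < Real.sqrt 8 := Real.sqrt_pos.2 (by norm_num)
    have e3 : 1 / (240 * (Real.sqrt (CC k) * (Real.sqrt 8 / τ))) =
        1 / (240 * Real.sqrt 8 * Real.sqrt (CC k)) * τ := by
      field_simp
    rw [e3]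
    refine mul_le_mul_of_nonneg_right ?_ hτ.le
    apply one_div_le_one_div_of_le (by positivity)
    nlinarith
  by_cases htt : t = ⊤
  · subst htt
    have h2 : bdr (un K) S = ⊤ := by
      refine ENNReal.eq_top_of_forall_nnreal_le fun r => ?_
      have hc0 : 0 < 1 / (720 * Real.sqrt (CC k)) := by
        have := Real.sqrt_pos.2 hCC
        positivity
      have h3 := key ((r + 1) / (1 / (720 * Real.sqrt (CC k)))) (by positivity) le_top
      rw [← ENNReal.ofReal_mul hc0.le, mul_div_cancel₀ _ hc0.ne'] at h3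
      refine le_trans ?_ h3
      rw [← ENNReal.ofReal_coe_nnreal]
      exact ENNReal.ofReal_le_ofReal (by linarith)
    rw [h2]
    exact le_top
  · by_cases h0 : t = 0
    · rw [h0, mul_zero]
      exact bot_le
    · have h4 := key t.toReal (ENNReal.toReal_pos h0 htt) (ENNReal.ofReal_toReal htt).le
      rwa [ENNReal.ofReal_toReal htt] at h4

/-- KLS for symmetric box-fibred domains -/
theorem kls_dom {Ω : Set (Ek k n)} (hop : IsOpen Ω) (hc : Convex ℝ Ω) (hb : Bornology.IsBounded Ω)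
    (hne : Ω.Nonempty) (hbox : Box Ω) (hn : 0 < n) : Pool.Agent.Q188.NC.KLS (CC k) Ω := by
  intro s hs f hf hf'
  have hvol : 0 < volume Ω := hop.measure_pos volume hne
  have hB := Bx.of_open hc hop hb hvol hbox
  have hs0 : 0 ≤ s := by
    have h1 := hs (EuclideanSpace.single (Sum.inr ⟨0, hn⟩) 1)
    rw [show ‖(EuclideanSpace.single (Sum.inr (⟨0, hn⟩ : Fin n)) (1:ℝ) : Ek k n)‖ = 1 by simp] at h1
    rw [one_pow, mul_one] at h1
    refine le_trans ?_ h1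
    unfold EV
    exact div_nonneg (integral_nonneg fun x => sq_nonneg _) ENNReal.toReal_nonneg
  refine body_gap hB hn hs0 0 (fun θ => ?_) hf hf'
  simpa only [sub_zero] using hs θ

end Pool.Agent.Q73.KL
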