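import Pool.Agent.Q188.NC.ES

/-!
# Efron-Stein inequality with variable bounds
-/

set_option autoImplicit false

namespace Pool.Agent.Q73.KL

open MeasureTheory Set Filter Topology
open Pool.Agent.Q188.NC (int_bdd sq_int_le var_prod)

theorem es : ∀ {n : ℕ} (μ : Fin n → Measure ℝ)
    [∀ i, IsProbabilityMeasure (μ i)] (g : (Fin n → ℝ) → ℝ) (_ : Measurable g) (M : ℝ)
    (_ : ∀ x, |g x| ≤ M) (h : Fin n → (Fin n → ℝ) → ℝ) (_ : ∀ i, Measurable (h i)) (M' : ℝ)
    (_ : ∀ i x, |h i x| ≤ M')
    (_ : ∀ i x, ∫ t, (g (Function.update x i t) - ∫ t', g (Function.update x i t') ∂(μ i)) ^ 2 ∂(μ i)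
      ≤ ∫ t, h i (Function.update x i t) ∂(μ i)),
    ∫ x, (g x - ∫ y, g y ∂(Measure.pi μ)) ^ 2 ∂(Measure.pi μ) ≤ ∑ i, ∫ x, h i x ∂(Measure.pi μ) := by
  intro n
  induction n with
  | zero =>
    intro μ _ g hg M hM h hh M' hM' hv
    have h1 : ∀ x y : (Fin 0 → ℝ), g x = g y := fun x y => by rw [Subsingleton.elim x y]
    have h2 : ∀ x, ∫ y, g y ∂(Measure.pi μ) = g x := by
      intro x
      rw [integral_congr_ae (Eventually.of_forall fun y => h1 y x)]
      simp
    rw [integral_congr_ae (g := fun _ => 0) (Eventually.of_forall fun x => by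
      show (g x - ∫ y, g y ∂(Measure.pi μ)) ^ 2 = 0
      rw [h2 x]; ring)]
    simp
  | succ n ih =>
    intro μ _ g hg M hM h hh M' hM' hv
    have h1 := (measurePreserving_piFinSuccAbove μ 0).symm
    set e := MeasurableEquiv.piFinSuccAbove (fun _ : Fin (n + 1) => ℝ) 0 with he
    have hint : ∀ φ : (Fin (n + 1) → ℝ) → ℝ, ∫ x, φ x ∂(Measure.pi μ) =
        ∫ z, φ (e.symm z) ∂((μ 0).prod (Measure.pi fun j => μ (Fin.succAbove 0 j))) := fun φ =>
      (h1.integral_comp e.symm.measurableEmbedding φ).symm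
    rw [hint, hint]
    set G : ℝ × (Fin n → ℝ) → ℝ := fun z => g (e.symm z) with hG
    have hGm : Measurable G := hg.comp e.symm.measurable
    have hGM : ∀ z, |G z| ≤ M := fun z => hM _
    set H : Fin (n + 1) → ℝ × (Fin n → ℝ) → ℝ := fun i z => h i (e.symm z) with hH
    have hHm : ∀ i, Measurable (H i) := fun i => (hh i).comp e.symm.measurable
    have hHM : ∀ i z, |H i z| ≤ M' := fun i z => hM' _ _
    set ν := Measure.pi fun j => μ (Fin.succAbove 0 j) with hν
    have hνp : IsProbabilityMeasure ν := by rw [hν]; infer_instance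
    have hvp := var_prod (μ 0) ν G hGm M hGM
    rw [hvp, Fin.sum_univ_succAbove _ 0, add_comm]
    refine add_le_add ?_ ?_
    · -- the first coordinate
      have hGr : ∀ r, Measurable fun a => G (a, r) := fun r => by fun_prop
      set q : (Fin n → ℝ) → ℝ := fun r => ∫ a, G (a, r) ∂(μ 0) with hq
      have hqm : Measurable q :=
        (hGm.comp measurable_swap).stronglyMeasurable.integral_prod_right' (ν := μ 0) |>.measurable
      have hqM : ∀ r, |q r| ≤ M := by
        intro r
        have := norm_integral_le_of_norm_le_const (μ := μ 0) (f := fun a => G (a, r)) (C := M)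
          (Eventually.of_forall fun c => hGM _)
        change |∫ a, G (a, r) ∂(μ 0)| ≤ M
        simpa using this
      have hsw : ∫ a', ∫ c', G (a', c') ∂ν ∂(μ 0) = ∫ r, q r ∂ν :=
        integral_integral_swap (int_bdd hGm hGM)
      have h3 : ∀ a, ((∫ c, G (a, c) ∂ν) - ∫ a', ∫ c', G (a', c') ∂ν ∂(μ 0)) ^ 2 ≤
          ∫ r, (G (a, r) - q r) ^ 2 ∂ν := by
        intro a
        have hGa : Measurable fun c => G (a, c) := by fun_prop
        rw [hsw, ← integral_sub (int_bdd hGa fun c => hGM _) (int_bdd hqm hqM)]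
        exact sq_int_le (hGa.sub hqm) (M := M + M) fun x =>
          (abs_sub _ _).trans (add_le_add (hGM _) (hqM _))
      have hD : Measurable fun z : ℝ × (Fin n → ℝ) => (G z - q z.2) ^ 2 := by
        fun_prop
      have hDM : ∀ z : ℝ × (Fin n → ℝ), |(G z - q z.2) ^ 2| ≤ (M + M) ^ 2 := by
        intro z
        rw [abs_of_nonneg (sq_nonneg _), ← sq_abs]
        exact pow_le_pow_left₀ (abs_nonneg _) ((abs_sub _ _).trans (add_le_add (hGM _) (hqM _))) 2
      have i1 : Integrable (fun a => ∫ r, (G (a, r) - q r) ^ 2 ∂ν) (μ 0) := by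
        refine int_bdd (M := (M + M) ^ 2)
          (hD.stronglyMeasurable.integral_prod_right' (ν := ν)).measurable fun a => ?_
        have := norm_integral_le_of_norm_le_const (μ := ν) (f := fun r => (G (a, r) - q r) ^ 2)
          (C := (M + M) ^ 2) (Eventually.of_forall fun c => hDM (a, c))
        rwa [probReal_univ, mul_one, Real.norm_eq_abs] at this
      have h4 : ∫ a, ((∫ c, G (a, c) ∂ν) - ∫ a', ∫ c', G (a', c') ∂ν ∂(μ 0)) ^ 2 ∂(μ 0) ≤
          ∫ a, ∫ r, (G (a, r) - q r) ^ 2 ∂ν ∂(μ 0) :=
        integral_mono_of_nonneg (Eventually.of_forall fun a => sq_nonneg _) i1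
          (Eventually.of_forall h3)
      have h5 : ∫ a, ∫ r, (G (a, r) - q r) ^ 2 ∂ν ∂(μ 0) =
          ∫ r, ∫ a, (G (a, r) - q r) ^ 2 ∂(μ 0) ∂ν := integral_integral_swap (int_bdd hD hDM)
      have h6 : ∀ r, ∫ a, (G (a, r) - q r) ^ 2 ∂(μ 0) ≤ ∫ a, H 0 (a, r) ∂(μ 0) := by
        intro r
        have e1 : ∀ t, e.symm (t, r) = Function.update (e.symm (0, r)) 0 t := by
          intro t
          exact (Fin.update_insertNth (α := fun _ => ℝ) 0 (0:ℝ) t r).symm
        have := hv 0 (e.symm (0, r))
        simp only [← e1] at this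
        exact this
      refine h4.trans ?_
      have e2 : ∫ z, H 0 z ∂((μ 0).prod ν) = ∫ r, ∫ a, H 0 (a, r) ∂(μ 0) ∂ν := by
        rw [integral_prod _ (int_bdd (hHm 0) (hHM 0))]
        exact integral_integral_swap (int_bdd (hHm 0) (hHM 0))
      rw [h5, hint, e2]
      refine integral_mono_of_nonneg (Eventually.of_forall fun r => integral_nonneg fun a => sq_nonneg _)
        ?_ (Eventually.of_forall h6)
      refine int_bdd (M := M') ((hHm 0).comp measurable_swap |>.stronglyMeasurable.integral_prod_right'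
        (ν := μ 0) |>.measurable) fun r => ?_
      have := norm_integral_le_of_norm_le_const (μ := μ 0) (f := fun a => H 0 (a, r)) (C := M')
          (Eventually.of_forall fun c => hHM 0 _)
      rwa [probReal_univ, mul_one, Real.norm_eq_abs] at this
    · have h3 : ∀ a, ∫ c, (G (a, c) - ∫ c', G (a, c') ∂ν) ^ 2 ∂ν ≤
          ∑ j, ∫ c, H (Fin.succAbove 0 j) (a, c) ∂ν := by
        intro a
        refine ih (fun j => μ (Fin.succAbove 0 j)) (fun c => G (a, c)) (by fun_prop) M
          (fun x => hGM _) (fun j c => H (Fin.succAbove 0 j) (a, c))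
          (fun j => (hHm _).comp measurable_prodMk_left) M' (fun j c => hHM _ _) fun j r => ?_
        have e1 : ∀ t, e.symm (a, Function.update r j t) =
            Function.update (e.symm (a, r)) (Fin.succAbove 0 j) t := by
          intro t
          exact Fin.insertNth_update (α := fun _ => ℝ) 0 a j t r
        have := hv (Fin.succAbove 0 j) (e.symm (a, r))
        simp only [← e1] at this
        exact this
      have i2 : ∀ i, Integrable (fun a => ∫ c, H i (a, c) ∂ν) (μ 0) := fun i => by
        refine int_bdd (M := M') ((hHm i).stronglyMeasurable.integral_prod_right'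
          (ν := ν) |>.measurable) fun r => ?_
        have := norm_integral_le_of_norm_le_const (μ := ν) (f := fun a => H i (r, a)) (C := M')
            (Eventually.of_forall fun c => hHM i _)
        rwa [probReal_univ, mul_one, Real.norm_eq_abs] at this
      have h7 : ∫ a, ∫ c, (G (a, c) - ∫ c', G (a, c') ∂ν) ^ 2 ∂ν ∂(μ 0) ≤
          ∫ a, ∑ j, ∫ c, H (Fin.succAbove 0 j) (a, c) ∂ν ∂(μ 0) :=
        integral_mono_of_nonneg (Eventually.of_forall fun r => integral_nonneg fun a => sq_nonneg _)
          (integrable_finsetSum _ fun j _ => i2 _) (Eventually.of_forall h3)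
      refine h7.trans (le_of_eq ?_)
      rw [integral_finsetSum _ fun j _ => i2 _]
      refine Finset.sum_congr rfl fun j _ => ?_
      rw [hint, integral_prod _ (int_bdd (hHm _) (hHM _))]

end Pool.Agent.Q73.KL
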