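import Pool.Agent.Q73.KL.Dis
import Pool.Agent.Q73.KL.Es

/-!
# Poincare inequality for products of log-concave densities
-/

set_option autoImplicit false
set_option linter.unusedSectionVars false

namespace Pool.Agent.Q73.KL

open MeasureTheory Set Filter Topology
open scoped ENNReal
open Pool.Agent.Q188.NC (int_bdd sq_int_le var_prod)

theorem sq_bd {x M : ℝ} (h : |x| ≤ M) : |x ^ 2| ≤ M ^ 2 := by
  rw [abs_of_nonneg (sq_nonneg _), ← sq_abs]
  exact pow_le_pow_left₀ (abs_nonneg _) h 2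

/-- second moments about an arbitrary point -/
theorem var_c {A : Type*} [MeasurableSpace A] {μ : Measure A} [IsProbabilityMeasure μ] {g : A → ℝ}
    (hg : Measurable g) {M : ℝ} (hM : ∀ x, |g x| ≤ M) (c : ℝ) :
    ∫ x, (g x - c) ^ 2 ∂μ = ∫ x, (g x - ∫ y, g y ∂μ) ^ 2 ∂μ + ((∫ y, g y ∂μ) - c) ^ 2 := by
  set m := ∫ y, g y ∂μ with hm
  have hmM : |m| ≤ M := by
    have := norm_integral_le_of_norm_le_const (μ := μ) (f := g) (C := M)
      (Eventually.of_forall fun c => hM _)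
    simpa using this
  have i1 : Integrable (fun x => (g x - m) ^ 2) μ :=
    int_bdd (by fun_prop) (M := (M + M) ^ 2) fun x => sq_bd ((abs_sub _ _).trans (add_le_add (hM x) hmM))
  have i2 : Integrable (fun x => g x - m) μ := (int_bdd hg hM).sub (integrable_const _)
  have e : ∀ x, (g x - c) ^ 2 = (g x - m) ^ 2 + (2 * (m - c) * (g x - m) + (m - c) ^ 2) :=
    fun x => by ring
  simp only [e]
  have i3 : Integrable (fun x => 2 * (m - c) * (g x - m)) μ := i2.const_mul _
  have i4 : Integrable (fun x => 2 * (m - c) * (g x - m) + (m - c) ^ 2) μ :=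
    i3.add (integrable_const _)
  rw [integral_add i1 i4, integral_add i3 (integrable_const _),
    integral_const_mul, integral_sub (int_bdd hg hM) (integrable_const _)]
  simp only [integral_const, probReal_univ, smul_eq_mul, one_mul]
  rw [← hm]
  ring

theorem var_le_c {A : Type*} [MeasurableSpace A] {μ : Measure A} [IsProbabilityMeasure μ] {g : A → ℝ}
    (hg : Measurable g) {M : ℝ} (hM : ∀ x, |g x| ≤ M) (c : ℝ) :
    ∫ x, (g x - ∫ y, g y ∂μ) ^ 2 ∂μ ≤ ∫ x, (g x - c) ^ 2 ∂μ := by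
  rw [var_c hg hM c]
  have := sq_nonneg ((∫ y, g y ∂μ) - c)
  linarith

/-- lower integrals of squares -/
theorem lint_real {A : Type*} [MeasurableSpace A] {μ : Measure A} [IsProbabilityMeasure μ] {g : A → ℝ}
    (hg : Measurable g) (h0 : ∀ x, 0 ≤ g x) {M : ℝ} (hM : ∀ x, |g x| ≤ M) :
    ∫⁻ x, ENNReal.ofReal (g x) ∂μ = ENNReal.ofReal (∫ x, g x ∂μ) :=
  (ofReal_integral_eq_lintegral_ofReal (int_bdd hg hM) (Eventually.of_forall h0)).symm

/-- one-dimensional Poincare inequality, in quantile form -/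
theorem QD.poin {F : ℝ → ℝ} {Z : ℝ} {Q q : ℝ → ℝ} (h : QD F Z Q q) {W : ℝ} (hW : q (1 / 2) ≤ W)
    {ψ δ : ℝ → ℝ} (hψ : ∀ x, HasDerivAt ψ (δ x) x) (hδ : Continuous δ) {M : ℝ}
    (hM : ∀ u, |ψ (Q u)| ≤ M) (hδ1 : ∀ x, |δ x| ≤ 1) :
    ∫ u, (ψ (Q u) - ∫ v, ψ (Q v) ∂I01) ^ 2 ∂I01 ≤ ∫ u, W ^ 2 * δ (Q u) ^ 2 ∂I01 := by
  have hm := h.meas
  have hψc : Continuous ψ := continuous_iff_continuousAt.2 fun x => (hψ x).continuousAt
  have hψm : Measurable fun u => ψ (Q u) := hψc.measurable.comp hm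
  refine (var_le_c hψm hM (ψ (Q (1 / 2)))).trans ?_
  have hW0 : 0 ≤ W := h.lpos.le.trans hW
  have b1 : ∀ u, |(ψ (Q u) - ψ (Q (1 / 2))) ^ 2| ≤ (M + M) ^ 2 := fun u =>
    sq_bd ((abs_sub _ _).trans (add_le_add (hM _) (hM _)))
  have b2 : ∀ u, |W ^ 2 * δ (Q u) ^ 2| ≤ W ^ 2 := fun u => by
    rw [abs_mul, abs_of_nonneg (sq_nonneg W)]
    have := sq_bd (hδ1 (Q u))
    nlinarith [sq_nonneg W]
  have m2 : Measurable fun u => W ^ 2 * δ (Q u) ^ 2 := by
    have := hδ.measurable.comp hm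
    exact (this.pow_const 2).const_mul _
  have m1 : Measurable fun u => (ψ (Q u) - ψ (Q (1 / 2))) ^ 2 := (hψm.sub_const _).pow_const 2
  have key : ENNReal.ofReal (∫ u, (ψ (Q u) - ψ (Q (1 / 2))) ^ 2 ∂I01) ≤
      ENNReal.ofReal (∫ u, W ^ 2 * δ (Q u) ^ 2 ∂I01) := by
    rw [← lint_real m1 (fun u => sq_nonneg _) b1, ← lint_real m2 (fun u => by positivity) b2]
    have h1 := hardy (h := fun u => ψ (Q u)) (h' := fun u => δ (Q u) * q u)
      (fun u hu => HasDerivAt.comp (h₂ := ψ) u (hψ _) (h.deriv u hu))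
      ((hδ.comp_continuousOn fun u hu => (h.deriv u hu).continuousAt.continuousWithinAt).mul h.cont)
    refine h1.trans ?_
    rw [show (4 : ℝ≥0∞) = ENNReal.ofReal 4 by norm_num, ← lintegral_const_mul' _ _ ENNReal.ofReal_ne_top]
    refine setLIntegral_mono_ae' measurableSet_Ioo (Eventually.of_forall fun u hu => ?_)
    rw [← ENNReal.ofReal_mul (by norm_num)]
    refine ENNReal.ofReal_le_ofReal ?_
    have h2 := h.up u hu
    have h3 : 0 ≤ min u (1 - u) := le_min hu.1.le (by linarith [hu.2])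
    have h4 : 0 ≤ min u (1 - u) * q u := mul_nonneg h3 (h.qpos u hu).le
    have h5 : 2 * (min u (1 - u) * q u) ≤ W := by linarith
    have h6 : (2 * (min u (1 - u) * q u)) ^ 2 ≤ W ^ 2 := pow_le_pow_left₀ (by positivity) h5 2
    calc 4 * (min u (1 - u) * (δ (Q u) * q u)) ^ 2
        = (2 * (min u (1 - u) * q u)) ^ 2 * δ (Q u) ^ 2 := by ring
      _ ≤ W ^ 2 * δ (Q u) ^ 2 := mul_le_mul_of_nonneg_right h6 (sq_nonneg _)
  exact (ENNReal.ofReal_le_ofReal_iff (integral_nonneg fun u => by positivity)).1 key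

variable {V : Type} [NormedAddCommGroup V] [NormedSpace ℝ V] [MeasurableSpace V] [BorelSpace V]

/-- test functions: class `C¹` and `1`-Lipschitz -/
structure Tf {n : ℕ} (G : V × (Fin n → ℝ) → ℝ) : Prop where
  cont : Continuous G
  lip : ∀ z w, (G z - G w) ^ 2 ≤ ‖z.1 - w.1‖ ^ 2 + ∑ i, (z.2 i - w.2 i) ^ 2
  grad : ∃ D : V × (Fin n → ℝ) → Fin n → ℝ, (∀ i, Continuous fun z => D z i) ∧
    (∀ t x i s, HasDerivAt (fun s => G (t, Function.update x i s)) (D (t, Function.update x i s) i) s) ∧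
    ∀ z, ∑ i, D z i ^ 2 ≤ 1

theorem Fam.QQ_bdd {n : ℕ} {F : Fin n → V → ℝ → ℝ} (h : Fam F) :
    ∃ R, 0 ≤ R ∧ ∀ t, 0 < ZZ F t → ∀ i u, |QQ F i t u| ≤ R := by
  obtain ⟨R, hR⟩ := h.supp
  refine ⟨|R|, abs_nonneg _, fun t ht i u => ?_⟩
  by_cases hu : u ∈ Ioo (0:ℝ) 1
  · have hq := h.qd (h.Zi_pos ht i)
    have h1 := hq.eq u hu
    have h2 : F i t (QQ F i t u) ≠ 0 := by
      intro hc
      rw [hc, zero_mul] at h1
      exact hq.Zpos.ne h1
    exact ((hR i t _ h2).2).trans (le_abs_self R)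
  · have : QQ F i t u = 0 := by
      unfold QQ LC1.Qf
      rw [dif_neg fun h => hu h.1]
    rw [this, abs_zero]
    exact abs_nonneg _

theorem Qv_update {n : ℕ} {F : Fin n → V → ℝ → ℝ} (t : V) (u : Fin n → ℝ) (i : Fin n) (s : ℝ) :
    Qv F t (Function.update u i s) = Function.update (Qv F t u) i (QQ F i t s) := by
  ext j
  unfold Qv
  by_cases hj : j = i
  · subst hj; simp
  · simp [hj]

theorem Fam.poin {n : ℕ} {F : Fin n → V → ℝ → ℝ} (h : Fam F) {t : V} (ht : 0 < ZZ F t) {W : ℝ}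
    (hW : ∀ i, qq F i t (1 / 2) ≤ W) {G : V × (Fin n → ℝ) → ℝ} (hG : Tf G) (t' : V) (c : Fin n → ℝ) :
    (∃ M, ∀ u, |G (t', Qv F t u + c)| ≤ M) ∧
    ∫ u, (G (t', Qv F t u + c) - ∫ v, G (t', Qv F t v + c) ∂(Uc n)) ^ 2 ∂(Uc n) ≤ W ^ 2 := by
  obtain ⟨R, hR0, hR⟩ := h.QQ_bdd
  obtain ⟨D, hDc, hDd, hD1⟩ := hG.grad
  have hQm := h.Qv_meas ht
  have hbd : ∃ M, ∀ u, |G (t', Qv F t u + c)| ≤ M := by
    refine ⟨|G (t', c)| + Real.sqrt (n * R ^ 2), fun u => ?_⟩
    have h1 := hG.lip (t', Qv F t u + c) (t', c)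
    simp only [sub_self, norm_zero, Pi.add_apply, add_sub_cancel_right] at h1
    have h2 : ∑ i, Qv F t u i ^ 2 ≤ n * R ^ 2 := by
      calc ∑ i, Qv F t u i ^ 2 ≤ ∑ _i : Fin n, R ^ 2 := Finset.sum_le_sum fun i _ => by
            rw [← sq_abs]
            exact pow_le_pow_left₀ (abs_nonneg _) (hR t ht i _) 2
        _ = n * R ^ 2 := by simp
    have h3 : |G (t', Qv F t u + c) - G (t', c)| ≤ Real.sqrt (n * R ^ 2) := by
      apply Real.abs_le_sqrt
      linarith
    calc |G (t', Qv F t u + c)| = |G (t', c) + (G (t', Qv F t u + c) - G (t', c))| := by ring_nf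
      _ ≤ _ := (abs_add_le _ _).trans (by linarith)
  refine ⟨hbd, ?_⟩
  obtain ⟨M, hM⟩ := hbd
  have hn : n = 0 ∨ 0 < n := Nat.eq_zero_or_pos n
  rcases hn with hn | hn
  · subst hn
    have : ∀ u v : Fin 0 → ℝ, G (t', Qv F t u + c) = G (t', Qv F t v + c) := fun u v => by
      rw [Subsingleton.elim u v]
    have h1 : ∀ u : Fin 0 → ℝ, (G (t', Qv F t u + c) - ∫ v, G (t', Qv F t v + c) ∂(Uc 0)) ^ 2 = 0 := by
      intro u
      rw [integral_congr_ae (Eventually.of_forall fun v => this v u)]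
      simp
    simp only [h1, integral_zero]
    exact sq_nonneg W
  have hW0 : 0 ≤ W := (h.qd (h.Zi_pos ht ⟨0, hn⟩)).lpos.le.trans (hW _)
  have hgm : Measurable fun u => G (t', Qv F t u + c) :=
    hG.cont.measurable.comp (measurable_const.prodMk (hQm.add_const c))
  have hDle : ∀ z i, |D z i| ≤ 1 := by
    intro z i
    have h1 : D z i ^ 2 ≤ ∑ i, D z i ^ 2 :=
      Finset.single_le_sum (f := fun i => D z i ^ 2) (fun i _ => sq_nonneg _) (Finset.mem_univ i)
    exact (sq_le_one_iff_abs_le_one _).1 (h1.trans (hD1 z))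
  have h1 := es (fun _ => I01) (fun u => G (t', Qv F t u + c)) hgm M hM
    (fun i u => W ^ 2 * D (t', Qv F t u + c) i ^ 2)
    (fun i => (((hDc i).measurable.comp (measurable_const.prodMk (hQm.add_const c))).pow_const 2).const_mul _)
    (W ^ 2) (fun i u => by
      rw [abs_mul, abs_of_nonneg (sq_nonneg W)]
      have := sq_bd (hDle (t', Qv F t u + c) i)
      nlinarith [sq_nonneg W])
    (by
      intro i u
      have hq := h.qd (h.Zi_pos ht i)
      -- the section
      set ψ : ℝ → ℝ := fun s => G (t', Function.update (Qv F t u + c) i (s + c i)) with hψ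
      have e1 : ∀ s, Qv F t (Function.update u i s) + c =
          Function.update (Qv F t u + c) i (QQ F i t s + c i) := by
        intro s
        rw [Qv_update]
        ext j
        by_cases hj : j = i
        · subst hj; simp
        · simp [hj]
      have h2 := hq.poin (hW i) (ψ := ψ)
        (δ := fun s => D (t', Function.update (Qv F t u + c) i (s + c i)) i)
        (fun s => by
          have k1 := hDd t' (Qv F t u + c) i (s + c i)
          have k2 : HasDerivAt (fun s : ℝ => s + c i) 1 s := (hasDerivAt_id s).add_const _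
          have := HasDerivAt.comp (h₂ := fun s => G (t', Function.update (Qv F t u + c) i s)) s k1 k2
          rw [mul_one] at this
          exact this)
        ((hDc i).comp (by fun_prop)) (M := M) (fun s => by
          rw [hψ]
          simp only
          rw [← e1]
          exact hM _) (fun s => hDle _ _)
      simp only [e1]
      exact h2)
  refine h1.trans ?_
  change ∑ i, ∫ u, W ^ 2 * D (t', Qv F t u + c) i ^ 2 ∂(Uc n) ≤ W ^ 2
  have hint : ∀ i, Integrable (fun u => W ^ 2 * D (t', Qv F t u + c) i ^ 2) (Uc n) := fun i =>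
    int_bdd (((((hDc i).measurable.comp (measurable_const.prodMk (hQm.add_const c))).pow_const 2).const_mul _))
      (M := W ^ 2) fun u => by
      rw [abs_mul, abs_of_nonneg (sq_nonneg W)]
      have := sq_bd (hDle (t', Qv F t u + c) i)
      nlinarith [sq_nonneg W]
  rw [← integral_finsetSum _ fun i _ => hint i]
  have h3 : ∫ u, ∑ i, W ^ 2 * D (t', Qv F t u + c) i ^ 2 ∂(Uc n) ≤ ∫ _u, W ^ 2 ∂(Uc n) := by
    refine integral_mono_of_nonneg (Eventually.of_forall fun u =>
      Finset.sum_nonneg fun i _ => by positivity) (integrable_const _) (Eventually.of_forall fun u => ?_)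
    simp only
    rw [← Finset.mul_sum]
    have := hD1 (t', Qv F t u + c)
    nlinarith [sq_nonneg W]
  exact h3.trans (le_of_eq (by simp))

end Pool.Agent.Q73.KL
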