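import Pool.Agent.H888R2.KB.N1
import Pool.Agent.H212R2.KLS.G2

/-!
# Limits of densities
-/

set_option autoImplicit false
set_option linter.unusedSectionVars false

namespace Pool.Agent.Q73.KL

open MeasureTheory Set Filter Topology
open scoped ENNReal InnerProductSpace
open Pool.Agent.H212R2.KLS (mu)
open Pool.Agent.H888R2.KT (LC)

/-- second moment about a point bounds the variance -/
theorem var_of_lint {A : Type*} [MeasurableSpace A] {μ : Measure A} [IsProbabilityMeasure μ]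
    {f : A → ℝ} (hf : Measurable f) {a D : ℝ} (hD : 0 ≤ D)
    (h : ∫⁻ x, ENNReal.ofReal ((f x - a) ^ 2) ∂μ ≤ ENNReal.ofReal D) :
    MemLp f 2 μ ∧ ∫ x, f x ^ 2 ∂μ - (∫ x, f x ∂μ) ^ 2 ≤ D := by
  have i0 : Integrable (fun x => (f x - a) ^ 2) μ := by
    refine ⟨((hf.sub_const _).pow_const 2).aestronglyMeasurable, ?_⟩
    rw [hasFiniteIntegral_iff_ofReal (Eventually.of_forall fun x => sq_nonneg _)]
    exact lt_of_le_of_lt h ENNReal.ofReal_lt_top
  have l0 : MemLp (fun x => f x - a) 2 μ :=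
    (memLp_two_iff_integrable_sq (hf.sub_const _).aestronglyMeasurable).2 i0
  have l1 : MemLp f 2 μ := by
    have := l0.add (memLp_const a)
    refine this.congr_norm hf.aestronglyMeasurable (Eventually.of_forall fun x => ?_)
    simp
  refine ⟨l1, ?_⟩
  have i1 : Integrable f μ := l1.integrable (by norm_num)
  have i2 : Integrable (fun x => f x ^ 2) μ := l1.integrable_sq
  have e1 : ∫ x, (f x - a) ^ 2 ∂μ = ∫ x, f x ^ 2 ∂μ - 2 * a * ∫ x, f x ∂μ + a ^ 2 := by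
    have e : ∀ x, (f x - a) ^ 2 = (f x ^ 2 - 2 * a * f x) + a ^ 2 := fun x => by ring
    simp only [e]
    have i3 : Integrable (fun x => 2 * a * f x) μ := i1.const_mul _
    have i4 : Integrable (fun x => f x ^ 2 - 2 * a * f x) μ := i2.sub i3
    rw [integral_add i4 (integrable_const _), integral_sub i2 i3, integral_const_mul]
    simp
  have h2 : ∫ x, (f x - a) ^ 2 ∂μ ≤ D := by
    rw [integral_eq_lintegral_of_nonneg_ae (Eventually.of_forall fun x => sq_nonneg _)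
      ((hf.sub_const _).pow_const 2).aestronglyMeasurable]
    exact ENNReal.toReal_le_of_le_ofReal hD h
  nlinarith [sq_nonneg ((∫ x, f x ∂μ) - a)]

variable {κ : Type} [Fintype κ]

theorem int_mu {ρ : EuclideanSpace ℝ κ → ℝ} (h0 : ∀ x, 0 ≤ ρ x) (hm : Measurable ρ)
    (φ : EuclideanSpace ℝ κ → ℝ) : ∫ x, φ x ∂(mu ρ) = ∫ x, φ x * ρ x := by
  unfold mu
  rw [integral_withDensity_eq_integral_toReal_smul hm.ennreal_ofReal
    (Eventually.of_forall fun x => ENNReal.ofReal_lt_top)]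
  refine integral_congr_ae (Eventually.of_forall fun x => ?_)
  simp only
  rw [ENNReal.toReal_ofReal (h0 x), smul_eq_mul, mul_comm]

theorem integrable_mu {ρ : EuclideanSpace ℝ κ → ℝ} (h0 : ∀ x, 0 ≤ ρ x) (hm : Measurable ρ)
    (φ : EuclideanSpace ℝ κ → ℝ) : Integrable φ (mu ρ) ↔ Integrable (fun x => φ x * ρ x) := by
  unfold mu
  rw [integrable_withDensity_iff_integrable_smul' hm.ennreal_ofReal
    (Eventually.of_forall fun x => ENNReal.ofReal_lt_top)]
  refine integrable_congr (Eventually.of_forall fun x => ?_)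
  simp only
  rw [ENNReal.toReal_ofReal (h0 x), smul_eq_mul, mul_comm]

theorem lint_mu {ρ : EuclideanSpace ℝ κ → ℝ} (hm : Measurable ρ)
    {φ : EuclideanSpace ℝ κ → ℝ≥0∞} (hφ : Measurable φ) :
    ∫⁻ x, φ x ∂(mu ρ) = ∫⁻ x, ENNReal.ofReal (ρ x) * φ x := by
  unfold mu
  rw [lintegral_withDensity_eq_lintegral_mul _ hm.ennreal_ofReal hφ]
  rfl

/-- data of an approximation from below -/
structure Apx (ρ : EuclideanSpace ℝ κ → ℝ) (r : ℕ → EuclideanSpace ℝ κ → ℝ) : Prop where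
  meas : Measurable ρ
  mass : mu ρ univ = 1
  rmeas : ∀ m, Measurable (r m)
  rnn : ∀ m x, 0 ≤ r m x
  le : ∀ m x, r m x ≤ ρ x
  lim : ∀ x, Tendsto (fun m => r m x) atTop (𝓝 (ρ x))

namespace Apx

variable {ρ : EuclideanSpace ℝ κ → ℝ} {r : ℕ → EuclideanSpace ℝ κ → ℝ}

theorem nn (h : Apx ρ r) (x : EuclideanSpace ℝ κ) : 0 ≤ ρ x := (h.rnn 0 x).trans (h.le 0 x)

theorem prob (h : Apx ρ r) : IsProbabilityMeasure (mu ρ) := ⟨h.mass⟩

/-- the masses -/
noncomputable def M (r : ℕ → EuclideanSpace ℝ κ → ℝ) (m : ℕ) : ℝ := ∫ x, r m x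

theorem lim_int (h : Apx ρ r) {φ : EuclideanSpace ℝ κ → ℝ} (hφ : Measurable φ)
    (hi : Integrable φ (mu ρ)) :
    Tendsto (fun m => ∫ x, φ x * r m x) atTop (𝓝 (∫ x, φ x ∂(mu ρ))) := by
  rw [int_mu h.nn h.meas]
  rw [integrable_mu h.nn h.meas] at hi
  refine tendsto_integral_of_dominated_convergence (fun x => |φ x * ρ x|)
    (fun m => (hφ.mul (h.rmeas m)).aestronglyMeasurable) hi.abs
    (fun m => Eventually.of_forall fun x => ?_)
    (Eventually.of_forall fun x => (h.lim x).const_mul _)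
  rw [Real.norm_eq_abs, abs_mul, abs_mul, abs_of_nonneg (h.rnn m x), abs_of_nonneg (h.nn x)]
  exact mul_le_mul_of_nonneg_left (h.le m x) (abs_nonneg _)

theorem M_lim (h : Apx ρ r) : Tendsto (M r) atTop (𝓝 1) := by
  have := h.prob
  have h1 := h.lim_int (φ := fun _ => (1 : ℝ)) measurable_const (integrable_const _)
  simp only [one_mul, integral_const, probReal_univ, smul_eq_mul] at h1
  exact h1

theorem ev_pos (h : Apx ρ r) : ∀ᶠ m in atTop, 0 < M r m :=
  h.M_lim.eventually (lt_mem_nhds one_pos)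

/-- normalised densities -/
noncomputable def nr (r : ℕ → EuclideanSpace ℝ κ → ℝ) (m : ℕ) (x : EuclideanSpace ℝ κ) : ℝ :=
  (M r m)⁻¹ * r m x

theorem nr_nn (h : Apx ρ r) (m : ℕ) (hm : 0 < M r m) (x : EuclideanSpace ℝ κ) : 0 ≤ nr r m x :=
  mul_nonneg (inv_pos.2 hm).le (h.rnn m x)

theorem nr_meas (h : Apx ρ r) (m : ℕ) : Measurable (nr r m) := (h.rmeas m).const_mul _

theorem r_int (h : Apx ρ r) (m : ℕ) : Integrable (r m) := by
  have := h.prob
  have h1 := (integrable_mu h.nn h.meas (fun _ => (1 : ℝ))).1 (integrable_const _)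
  simp only [one_mul] at h1
  exact h1.mono' (h.rmeas m).aestronglyMeasurable (Eventually.of_forall fun x => by
    rw [Real.norm_of_nonneg (h.rnn m x)]; exact h.le m x)

theorem nr_mass (h : Apx ρ r) (m : ℕ) (hm : 0 < M r m) : mu (nr r m) univ = 1 := by
  unfold mu
  rw [withDensity_apply _ MeasurableSet.univ, Measure.restrict_univ]
  have hni : Integrable (nr r m) := (h.r_int m).const_mul _
  rw [← ofReal_integral_eq_lintegral_ofReal hni (Eventually.of_forall fun x => h.nr_nn m hm x)]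
  unfold nr
  rw [integral_const_mul]
  have : (∫ x, r m x) = M r m := rfl
  rw [this, inv_mul_cancel₀ hm.ne', ENNReal.ofReal_one]

theorem nr_le (h : Apx ρ r) (m : ℕ) (hm : 0 < M r m) {φ : EuclideanSpace ℝ κ → ℝ≥0∞}
    (hφ : Measurable φ) : ∫⁻ x, φ x ∂(mu (nr r m)) ≤ ENNReal.ofReal (M r m)⁻¹ * ∫⁻ x, φ x ∂(mu ρ) := by
  rw [lint_mu (h.nr_meas m) hφ, lint_mu h.meas hφ, ← lintegral_const_mul' _ _ ENNReal.ofReal_ne_top]
  refine lintegral_mono fun x => ?_
  rw [← mul_assoc]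
  refine mul_le_mul' ?_ le_rfl
  unfold nr
  rw [← ENNReal.ofReal_mul (inv_pos.2 hm).le]
  exact ENNReal.ofReal_le_ofReal (mul_le_mul_of_nonneg_left (h.le m x) (inv_pos.2 hm).le)

theorem nr_int (h : Apx ρ r) (m : ℕ) (hm : 0 < M r m) (φ : EuclideanSpace ℝ κ → ℝ) :
    ∫ x, φ x ∂(mu (nr r m)) = (M r m)⁻¹ * ∫ x, φ x * r m x := by
  rw [int_mu (h.nr_nn m hm) (h.nr_meas m), ← integral_const_mul]
  refine integral_congr_ae (Eventually.of_forall fun x => ?_)
  simp only [nr]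
  ring

theorem nr_lim (h : Apx ρ r) {φ : EuclideanSpace ℝ κ → ℝ} (hφ : Measurable φ)
    (hi : Integrable φ (mu ρ)) :
    Tendsto (fun m => ∫ x, φ x ∂(mu (nr r m))) atTop (𝓝 (∫ x, φ x ∂(mu ρ))) := by
  have h1 := (h.M_lim.inv₀ one_ne_zero).mul (h.lim_int hφ hi)
  rw [inv_one, one_mul] at h1
  refine h1.congr' ?_
  filter_upwards [h.ev_pos] with m hm
  rw [h.nr_int m hm]

/-- **passage to the limit, Lipschitz functions** -/
theorem lip_lim (h : Apx ρ r) {D : ℝ} {f : EuclideanSpace ℝ κ → ℝ} (hf : Measurable f)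
    (hL : MemLp f 2 (mu ρ))
    (H : ∀ᶠ m in atTop, ∫ x, f x ^ 2 ∂(mu (nr r m)) - (∫ x, f x ∂(mu (nr r m))) ^ 2 ≤ D * (M r m)⁻¹) :
    ProbabilityTheory.variance f (mu ρ) ≤ D := by
  have := h.prob
  rw [ProbabilityTheory.variance_eq_sub hL]
  have h1 := (h.nr_lim (hf.pow_const 2) hL.integrable_sq).sub
    ((h.nr_lim hf (hL.integrable (by norm_num))).pow 2)
  have h2 := (h.M_lim.inv₀ one_ne_zero).const_mul D
  rw [inv_one, mul_one] at h2
  exact le_of_tendsto_of_tendsto h1 h2 H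

/-- **passage to the limit, bounded functions** -/
theorem bdd_lim (h : Apx ρ r) {D : ℝ} (hD : 0 < D) (hLC : ∀ᶠ m in atTop, LC (nr r m))
    (H : ∀ᶠ m in atTop, ∀ f : EuclideanSpace ℝ κ → ℝ, ContDiff ℝ 1 f → (∀ x, ‖fderiv ℝ f x‖ ≤ 1) →
      ∫ x, f x ^ 2 ∂(mu (nr r m)) - (∫ x, f x ∂(mu (nr r m))) ^ 2 ≤ D * (M r m)⁻¹)
    {f : EuclideanSpace ℝ κ → ℝ} (hf : ContDiff ℝ 1 f) (hb : ∀ x, |f x| ≤ 1) :
    ENNReal.ofReal (ProbabilityTheory.variance f (mu ρ) ^ 2) ≤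
      ENNReal.ofReal (8 * D) * ∫⁻ x, ENNReal.ofReal (‖fderiv ℝ f x‖ ^ 2) ∂(mu ρ) := by
  have hp := h.prob
  by_cases hI : ∫⁻ x, ENNReal.ofReal (‖fderiv ℝ f x‖ ^ 2) ∂(mu ρ) = ⊤
  · rw [hI, ENNReal.mul_top (by
      rw [Ne, ENNReal.ofReal_eq_zero, not_le]
      positivity)]
    exact le_top
  have hgc : Continuous fun x => ‖fderiv ℝ f x‖ ^ 2 :=
    ((hf.continuous_fderiv (by norm_num)).norm).pow 2
  obtain ⟨I, hI0, hIe⟩ : ∃ I : ℝ, 0 ≤ I ∧
      ∫⁻ x, ENNReal.ofReal (‖fderiv ℝ f x‖ ^ 2) ∂(mu ρ) = ENNReal.ofReal I :=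
    ⟨_, ENNReal.toReal_nonneg, (ENNReal.ofReal_toReal hI).symm⟩
  rw [hIe, ← ENNReal.ofReal_mul (by positivity)]
  refine ENNReal.ofReal_le_ofReal ?_
  have hL : MemLp f 2 (mu ρ) :=
    MemLp.of_bound hf.continuous.aestronglyMeasurable 1 (Eventually.of_forall fun x => by
      rw [Real.norm_eq_abs]; exact hb x)
  rw [ProbabilityTheory.variance_eq_sub hL]
  have hfm := hf.continuous.measurable
  have h1 := ((h.nr_lim (hfm.pow_const 2) hL.integrable_sq).sub
    ((h.nr_lim hfm (hL.integrable (by norm_num))).pow 2)).pow 2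
  have h3 := h.M_lim.inv₀ one_ne_zero
  have h2 := ((h3.const_mul D).const_mul 8).mul (h3.mul_const I)
  have e : 8 * (D * (1:ℝ)⁻¹) * ((1:ℝ)⁻¹ * I) = 8 * D * I := by simp
  rw [e] at h2
  refine le_of_tendsto_of_tendsto h1 h2 ?_
  filter_upwards [h.ev_pos, hLC, H] with m hm hlc hH
  have h4 := Pool.Agent.H888R2.KB.nash_lip hlc (h.nr_mass m hm) (D * (M r m)⁻¹)
    (mul_pos hD (inv_pos.2 hm)) hH f hf hb
  refine h4.trans (mul_le_mul_of_nonneg_left ?_ (by
    have := (inv_pos.2 hm).le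
    positivity))
  rw [integral_eq_lintegral_of_nonneg_ae (Eventually.of_forall fun x => sq_nonneg _)
    hgc.aestronglyMeasurable]
  refine ENNReal.toReal_le_of_le_ofReal (mul_nonneg (inv_pos.2 hm).le hI0) ?_
  refine (h.nr_le m hm (by fun_prop)).trans ?_
  rw [hIe, ← ENNReal.ofReal_mul (inv_pos.2 hm).le]

end Apx

end Pool.Agent.Q73.KL
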