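import Pool.Agent.Q73.KL.Fam

/-!
# Growth of the scales and comparison of the shapes, relative to a base point
-/

set_option autoImplicit false
set_option linter.unusedSectionVars false

namespace Pool.Agent.Q73.KL

open MeasureTheory Set Filter Topology
open scoped ENNReal

variable {V : Type} [NormedAddCommGroup V] [NormedSpace ℝ V] [MeasurableSpace V] [BorelSpace V]

/-- a base point -/
structure Bp {n : ℕ} (F : Fin n → V → ℝ → ℝ) (o : V) : Prop where
  fam : Fam F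
  pos : 0 < ZZ F o
  mx : ∀ t, ZZ F t ≤ 2 * ZZ F o

/-- logarithm of the ratio of the marginal densities at the base point and at `t` -/
noncomputable def YY {n : ℕ} (F : Fin n → V → ℝ → ℝ) (o t : V) : ℝ := Real.log (ZZ F o / ZZ F t)

theorem sum_sub_one_le {ι : Type} (s : Finset ι) (a : ι → ℝ) (ha : ∀ i ∈ s, 1 ≤ a i) :
    ∑ i ∈ s, (a i - 1) ≤ ∏ i ∈ s, a i - 1 := by
  classical
  induction s using Finset.induction_on with
  | empty => simp
  | insert i s hi ih =>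
    rw [Finset.sum_insert hi, Finset.prod_insert hi]
    have h1 := ih fun j hj => ha j (Finset.mem_insert_of_mem hj)
    have h2 : 1 ≤ a i := ha i (Finset.mem_insert_self _ _)
    have h3 : 1 ≤ ∏ j ∈ s, a j := by
      have : 0 ≤ ∑ j ∈ s, (a j - 1) := Finset.sum_nonneg fun j hj => by
        linarith [ha j (Finset.mem_insert_of_mem hj)]
      linarith
    nlinarith

namespace Bp

variable {n : ℕ} {F : Fin n → V → ℝ → ℝ} {o : V}

theorem exp_Y (h : Bp F o) {t : V} (ht : 0 < ZZ F t) : Real.exp (YY F o t) = ZZ F o / ZZ F t :=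
  Real.exp_log (div_pos h.pos ht)

theorem Y_o (h : Bp F o) : YY F o o = 0 := by
  unfold YY
  rw [div_self h.pos.ne', Real.log_one]

theorem Y_ge (h : Bp F o) {t : V} (ht : 0 < ZZ F t) : - Real.log 2 ≤ YY F o t := by
  unfold YY
  rw [← Real.log_inv]
  apply Real.log_le_log (by norm_num)
  rw [le_div_iff₀ ht]
  linarith [h.mx t]

theorem exp_ge (h : Bp F o) {t : V} (ht : 0 < ZZ F t) : 1 / 2 ≤ Real.exp (YY F o t) := by
  rw [h.exp_Y ht, le_div_iff₀ ht]
  linarith [h.mx t]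

section multi

variable {J : Type} [Fintype J] {w : J → ℝ} {p : J → V}

theorem log_prod_rpow (h : Bp F o) (w1 : ∑ j, w j = 1) (hp : ∀ j, 0 < ZZ F (p j)) :
    Real.log (∏ j, ZZ F (p j) ^ w j) = Real.log (ZZ F o) - ∑ j, w j * YY F o (p j) := by
  rw [Real.log_prod fun j _ => (Real.rpow_pos_of_pos (hp j) _).ne']
  have : ∀ j, Real.log (ZZ F (p j) ^ w j) = w j * Real.log (ZZ F o) - w j * YY F o (p j) := by
    intro j
    rw [Real.log_rpow (hp j)]
    unfold YY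
    rw [Real.log_div h.pos.ne' (hp j).ne']
    ring
  rw [Finset.sum_congr rfl fun j _ => this j, Finset.sum_sub_distrib, ← Finset.sum_mul, w1, one_mul]

theorem del_sum (h : Bp F o) (w0 : ∀ j, 0 ≤ w j) (w1 : ∑ j, w j = 1)
    (hp : ∀ j, 0 < ZZ F (p j)) :
    ∑ i, Fam.del F w p i = ∑ j, w j * YY F o (p j) - YY F o (∑ j, w j • p j) := by
  have hr := h.fam.ZZ_conv_pos w0 w1 hp
  rw [h.fam.del_sum w0 w1 hp, Real.log_div hr.ne'
    (Finset.prod_pos fun j _ => Real.rpow_pos_of_pos (hp j) _).ne', h.log_prod_rpow w1 hp]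
  unfold YY
  rw [Real.log_div h.pos.ne' hr.ne']
  ring

theorem Y_conv (h : Bp F o) (w0 : ∀ j, 0 ≤ w j) (w1 : ∑ j, w j = 1)
    (hp : ∀ j, 0 < ZZ F (p j)) : YY F o (∑ j, w j • p j) ≤ ∑ j, w j * YY F o (p j) := by
  have h1 := h.del_sum w0 w1 hp
  have h2 : 0 ≤ ∑ i, Fam.del F w p i := Finset.sum_nonneg fun i _ => h.fam.del_nonneg w0 w1 hp i
  linarith

theorem del_sum_le (h : Bp F o) (w0 : ∀ j, 0 ≤ w j) (w1 : ∑ j, w j = 1)
    (hp : ∀ j, 0 < ZZ F (p j)) :
    ∑ i, Fam.del F w p i ≤ Real.log 2 + ∑ j, w j * YY F o (p j) := by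
  have h1 := h.del_sum w0 w1 hp
  have h2 := h.Y_ge (h.fam.ZZ_conv_pos w0 w1 hp)
  linarith

end multi

section two

variable {s t : V} {r : ℝ}

theorem w0 (r0 : 0 < r) (r1 : r < 1) : ∀ j, 0 ≤ (![1 - r, r] : Fin 2 → ℝ) j := by
  intro j
  fin_cases j <;> simp <;> linarith

theorem w1 : ∑ j, (![1 - r, r] : Fin 2 → ℝ) j = 1 := by simp

theorem pp (hs : 0 < ZZ F s) (ht : 0 < ZZ F t) : ∀ j, 0 < ZZ F ((![s, t] : Fin 2 → V) j) := by
  intro j
  fin_cases j <;> simpa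

/-- the deficit of two points -/
theorem two (h : Bp F o) (hs : 0 < ZZ F s) (ht : 0 < ZZ F t) (r0 : 0 < r) (r1 : r < 1) :
    ∃ d : Fin n → ℝ, (∀ i, 0 ≤ d i) ∧
      ∑ i, d i ≤ Real.log 2 + ((1 - r) * YY F o s + r * YY F o t) ∧
      ∀ i, Zi F i ((1 - r) • s + r • t) = Zi F i s ^ (1 - r) * Zi F i t ^ r * Real.exp (d i) := by
  refine ⟨Fam.del F ![1 - r, r] ![s, t], h.fam.del_nonneg (w0 r0 r1) w1 (pp hs ht), ?_, ?_⟩
  · have := h.del_sum_le (w0 r0 r1) w1 (pp hs ht)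
    simpa [Fin.sum_univ_two] using this
  · intro i
    unfold Fam.del
    simp only [Fin.sum_univ_two, Fin.prod_univ_two, Matrix.cons_val_zero, Matrix.cons_val_one]
    have h1 : 0 < Zi F i s ^ (1 - r) * Zi F i t ^ r := mul_pos
      (Real.rpow_pos_of_pos (h.fam.Zi_pos hs i) _) (Real.rpow_pos_of_pos (h.fam.Zi_pos ht i) _)
    have h2 := h.fam.Zi_conv_pos (w0 r0 r1) w1 (pp hs ht) i
    simp only [Fin.sum_univ_two, Matrix.cons_val_zero, Matrix.cons_val_one] at h2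
    rw [Real.exp_log (div_pos h2 h1), mul_div_cancel₀ _ h1.ne']

theorem two_pos (h : Bp F o) (hs : 0 < ZZ F s) (ht : 0 < ZZ F t) (r0 : 0 < r) (r1 : r < 1) :
    0 < ZZ F ((1 - r) • s + r • t) := by
  have := h.fam.ZZ_conv_pos (w0 r0 r1) w1 (pp hs ht)
  simpa [Fin.sum_univ_two] using this

theorem grow (h : Bp F o) (hs : 0 < ZZ F s) (ht : 0 < ZZ F t) (r0 : 0 < r) (r1 : r < 1)
    (i : Fin n) : r / 2 * (qq F i t (1 / 2) / (4 * qq F i s (1 / 2))) ^ (1 - r) ≤
      2 * Real.exp ((1 - r) * YY F o s + r * YY F o t) := by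
  obtain ⟨d, hd0, hd1, hd2⟩ := h.two hs ht r0 r1
  have hr := h.two_pos hs ht r0 r1
  have h1 := Pool.Agent.Q73.KL.grow (h.fam.qd (h.fam.Zi_pos hs i)) (h.fam.qd (h.fam.Zi_pos ht i))
    (h.fam.qd (h.fam.Zi_pos hr i)) r0 r1 (fun x y => h.fam.logc i s t x y r r0 r1)
  have hP : 0 < Zi F i s ^ (1 - r) * Zi F i t ^ r := mul_pos
      (Real.rpow_pos_of_pos (h.fam.Zi_pos hs i) _) (Real.rpow_pos_of_pos (h.fam.Zi_pos ht i) _)
  rw [hd2 i, mul_comm (Zi F i s ^ (1 - r) * Zi F i t ^ r) (Real.exp (d i))] at h1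
  have h2 := le_of_mul_le_mul_right h1 hP
  refine h2.trans ?_
  have h3 : d i ≤ ∑ i, d i := Finset.single_le_sum (fun i _ => hd0 i) (Finset.mem_univ i)
  calc Real.exp (d i) ≤ Real.exp (Real.log 2 + ((1 - r) * YY F o s + r * YY F o t)) :=
        Real.exp_le_exp.2 (h3.trans hd1)
    _ = _ := by rw [Real.exp_add, Real.exp_log (by norm_num)]

/-- growth of the scale -/
theorem grow1 (h : Bp F o) (ht : 0 < ZZ F t) (i : Fin n) :
    qq F i t (1 / 2) ≤ 256 * Real.exp (YY F o t / 8) * qq F i o (1 / 2) := by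
  have h1 := h.grow h.pos ht (r := 1 / 9) (by norm_num) (by norm_num) i
  have l0 := (h.fam.qd (h.fam.Zi_pos h.pos i)).lpos
  have l1 := (h.fam.qd (h.fam.Zi_pos ht i)).lpos
  rw [h.Y_o, mul_zero, zero_add] at h1
  set R := qq F i t (1 / 2) / (4 * qq F i o (1 / 2)) with hR
  have hR0 : 0 < R := by positivity
  have e0 : (1 : ℝ) - 1 / 9 = 8 / 9 := by norm_num
  rw [e0] at h1
  have h2 : R ^ (8 / 9 : ℝ) ≤ 36 * Real.exp (1 / 9 * YY F o t) := by linarith
  have h3 : R ≤ (36 * Real.exp (1 / 9 * YY F o t)) ^ (9 / 8 : ℝ) := by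
    have := Real.rpow_le_rpow (Real.rpow_nonneg hR0.le _) h2 (by norm_num : (0:ℝ) ≤ 9 / 8)
    rwa [← Real.rpow_mul hR0.le, show (8 / 9 : ℝ) * (9 / 8) = 1 by norm_num, Real.rpow_one] at this
  rw [Real.mul_rpow (by norm_num) (Real.exp_pos _).le, ← Real.exp_mul] at h3
  have h4 : (36 : ℝ) ^ (9 / 8 : ℝ) ≤ 64 := by
    have : (36 : ℝ) ^ (9 / 8 : ℝ) = ((36:ℝ) ^ (9:ℕ)) ^ (1 / 8 : ℝ) := by
      rw [← Real.rpow_natCast, ← Real.rpow_mul (by norm_num)]
      norm_num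
    rw [this]
    calc ((36:ℝ) ^ (9:ℕ)) ^ (1 / 8 : ℝ) ≤ ((64:ℝ) ^ (8:ℕ)) ^ (1 / 8 : ℝ) :=
          Real.rpow_le_rpow (by norm_num) (by norm_num) (by norm_num)
      _ = 64 := by
          rw [← Real.rpow_natCast, ← Real.rpow_mul (by norm_num)]
          norm_num
  have h5 : 1 / 9 * YY F o t * (9 / 8) = YY F o t / 8 := by ring
  rw [h5] at h3
  have h6 : R ≤ 64 * Real.exp (YY F o t / 8) := h3.trans (by gcongr)
  rw [hR, div_le_iff₀ (by positivity)] at h6
  calc qq F i t (1 / 2) ≤ _ := h6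
    _ = _ := by ring

/-- reverse estimate -/
theorem grow2 (h : Bp F o) (ht : 0 < ZZ F t) (i : Fin n) :
    qq F i o (1 / 2) ≤ 256 * Real.exp (YY F o t) * qq F i t (1 / 2) := by
  have h1 := h.grow ht h.pos (r := 1 / 2) (by norm_num) (by norm_num) i
  have l0 := (h.fam.qd (h.fam.Zi_pos h.pos i)).lpos
  have l1 := (h.fam.qd (h.fam.Zi_pos ht i)).lpos
  rw [h.Y_o, mul_zero, add_zero] at h1
  set R := qq F i o (1 / 2) / (4 * qq F i t (1 / 2)) with hR
  have hR0 : 0 < R := by positivity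
  have e0 : (1 : ℝ) - 1 / 2 = 1 / 2 := by norm_num
  rw [e0, ← Real.sqrt_eq_rpow] at h1
  have h2 : Real.sqrt R ≤ 8 * Real.exp (1 / 2 * YY F o t) := by linarith
  have h3 : R ≤ 64 * Real.exp (YY F o t) := by
    have h4 : R = Real.sqrt R ^ 2 := (Real.sq_sqrt hR0.le).symm
    rw [h4]
    calc Real.sqrt R ^ 2 ≤ (8 * Real.exp (1 / 2 * YY F o t)) ^ 2 :=
          pow_le_pow_left₀ (Real.sqrt_nonneg _) h2 2
      _ = 64 * Real.exp (YY F o t) := by
          rw [mul_pow, ← Real.exp_nat_mul]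
          norm_num
          ring_nf
  rw [hR, div_le_iff₀ (by positivity)] at h3
  calc qq F i o (1 / 2) ≤ _ := h3
    _ = _ := by ring

/-- comparison of the shapes -/
theorem shape (h : Bp F o) (ht : 0 < ZZ F t) {W : ℝ} (hW : ∀ i, qq F i o (1 / 2) ≤ W) :
    ∑ i, ∫⁻ u in Ioo (0:ℝ) 1, ENNReal.ofReal (((QQ F i t u - QQ F i o u) -
      (QQ F i t (1 / 2) - QQ F i o (1 / 2))) ^ 2) ≤
      ENNReal.ofReal (2 ^ 20 * W ^ 2 * Real.exp (3 / 4 * YY F o t)) := by
  obtain ⟨d, hd0, hd1, hd2⟩ := h.two h.pos ht (r := 1 / 2) (by norm_num) (by norm_num)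
  have hr := h.two_pos h.pos ht (r := 1 / 2) (by norm_num) (by norm_num)
  rw [h.Y_o, mul_zero, zero_add] at hd1
  set l := 256 * Real.exp (YY F o t / 8) * W with hl
  have hexp : 1 / 2 ≤ Real.exp (YY F o t / 8) := by
    have h1 := h.exp_ge ht
    have h2 : Real.exp (YY F o t) = Real.exp (YY F o t / 8) ^ 8 := by
      rw [← Real.exp_nat_mul]; congr 1; push_cast; ring
    rw [h2] at h1
    by_contra hc
    push Not at hc
    have h3 : Real.exp (YY F o t / 8) ^ 8 < (1/2) ^ 8 :=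
      pow_lt_pow_left₀ hc (Real.exp_pos _).le (by norm_num)
    norm_num at h3
    linarith
  have key : ∀ i, ∫⁻ u in Ioo (0:ℝ) 1, ENNReal.ofReal (((QQ F i t u - QQ F i o u) -
      (QQ F i t (1 / 2) - QQ F i o (1 / 2))) ^ 2) ≤
      ENNReal.ofReal (8 * l ^ 2 * (Real.exp (d i) - 1)) := by
    intro i
    have l0 := (h.fam.qd (h.fam.Zi_pos h.pos i)).lpos
    have hW0 : 0 < W := lt_of_lt_of_le l0 (hW i)
    have k1 := Pool.Agent.Q73.KL.shape (h.fam.qd (h.fam.Zi_pos h.pos i))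
      (h.fam.qd (h.fam.Zi_pos ht i)) (h.fam.qd (h.fam.Zi_pos hr i))
      (fun x y => h.fam.logc i o t x y (1 / 2) (by norm_num) (by norm_num)) (l := l)
      (by
        rw [hl]
        have := hW i
        nlinarith) (by
        refine (h.grow1 ht i).trans ?_
        rw [hl]
        exact mul_le_mul_of_nonneg_left (hW i) (by positivity))
    refine k1.trans (le_of_eq ?_)
    congr 2
    have p0 := h.fam.Zi_pos h.pos i
    have p1 := h.fam.Zi_pos ht i
    rw [hd2 i]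
    have e1 : Zi F i o ^ (1 - 1 / 2 : ℝ) = Real.sqrt (Zi F i o) := by
      rw [Real.sqrt_eq_rpow]; norm_num
    have e2 : Zi F i t ^ (1 / 2 : ℝ) = Real.sqrt (Zi F i t) := (Real.sqrt_eq_rpow _).symm
    rw [e1, e2, mul_div_cancel_left₀ _ (mul_pos (Real.sqrt_pos.2 p0) (Real.sqrt_pos.2 p1)).ne']
  refine (Finset.sum_le_sum fun i _ => key i).trans ?_
  have hexp1 : ∀ i, 1 ≤ Real.exp (d i) := fun i => Real.one_le_exp (hd0 i)
  rw [← ENNReal.ofReal_sum_of_nonneg fun i _ => mul_nonneg (by positivity) (by linarith [hexp1 i])]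
  refine ENNReal.ofReal_le_ofReal ?_
  rw [← Finset.mul_sum]
  have h1 := sum_sub_one_le Finset.univ (fun i => Real.exp (d i)) fun i _ => hexp1 i
  rw [← Real.exp_sum] at h1
  have h2 : Real.exp (∑ i, d i) ≤ 2 * Real.exp (1 / 2 * YY F o t) := by
    calc Real.exp (∑ i, d i) ≤ Real.exp (Real.log 2 + 1 / 2 * YY F o t) := Real.exp_le_exp.2 hd1
      _ = _ := by rw [Real.exp_add, Real.exp_log (by norm_num)]
  calc 8 * l ^ 2 * ∑ i, (Real.exp (d i) - 1) ≤ 8 * l ^ 2 * (2 * Real.exp (1 / 2 * YY F o t)) := by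
        refine mul_le_mul_of_nonneg_left ?_ (by positivity)
        linarith
    _ = 2 ^ 20 * W ^ 2 * Real.exp (3 / 4 * YY F o t) := by
        rw [hl]
        have e1 : Real.exp (3 / 4 * YY F o t) =
            Real.exp (YY F o t / 8) ^ 2 * Real.exp (1 / 2 * YY F o t) := by
          rw [← Real.exp_nat_mul, ← Real.exp_add]
          congr 1; push_cast; ring
        rw [e1]
        ring

end two

end Bp

end Pool.Agent.Q73.KL
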