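import Pool.Agent.Q73.KL.Gen
import Pool.Agent.Q188.SB.Fin

/-!
# Convex sets fibred in boxes
-/

set_option autoImplicit false
set_option linter.unusedSectionVars false

namespace Pool.Agent.Q73.KL

open MeasureTheory Set Filter Topology
open scoped ENNReal InnerProductSpace
open Pool.Agent.H212R2.KLS (mu)
open Pool.Agent.W695.KH (EV VV)

variable {k n : ℕ}

/-- the sections by the translates of the last coordinate subspace are boxes -/
def Box (K : Set (Ek k n)) : Prop :=
  ∀ x : Ek k n, (∀ i : Fin n, ∃ y ∈ K, (∀ j : Fin k, y (Sum.inl j) = x (Sum.inl j)) ∧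
    y (Sum.inr i) = x (Sum.inr i)) → x ∈ K

/-- projection to the first block and one more coordinate -/
noncomputable def pj (i : Fin n) (x : Ek k n) : Vk k × ℝ := (fs x, sn x i)

theorem pj_cont (i : Fin n) : Continuous (pj i : Ek k n → Vk k × ℝ) :=
  fs_cont.prodMk ((continuous_apply i).comp sn_cont)

theorem pj_lin (i : Fin n) (a b : ℝ) (x y : Ek k n) :
    pj i (a • x + b • y) = a • pj i x + b • pj i y := rfl

theorem pj_open (i : Fin n) : IsOpenMap (pj i : Ek k n → Vk k × ℝ) := by
  let L : Ek k n →ₗ[ℝ] Vk k × ℝ :=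
    { toFun := pj i
      map_add' := fun x y => rfl
      map_smul' := fun c x => rfl }
  have hs : Function.Surjective L := by
    intro z
    refine ⟨jn (z.1, fun _ => z.2), ?_⟩
    rfl
  exact L.isOpenMap_of_finiteDimensional hs

/-- the data of a box-fibred set -/
structure Bx (K : Set (Ek k n)) : Prop where
  conv : Convex ℝ K
  bdd : Bornology.IsBounded K
  meas : MeasurableSet K
  vol : 0 < volume K
  box : Box K
  proj : ∀ i, MeasurableSet (pj i '' K)

theorem Bx.of_compact {K : Set (Ek k n)} (hc : Convex ℝ K) (hK : IsCompact K) (hv : 0 < volume K)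
    (hb : Box K) : Bx K :=
  ⟨hc, hK.isBounded, hK.measurableSet, hv, hb, fun i => (hK.image (pj_cont i)).measurableSet⟩

theorem Bx.of_open {K : Set (Ek k n)} (hc : Convex ℝ K) (hK : IsOpen K) (hB : Bornology.IsBounded K)
    (hv : 0 < volume K) (hb : Box K) : Bx K :=
  ⟨hc, hB, hK.measurableSet, hv, hb, fun i => (pj_open i K hK).measurableSet⟩

/-- the family of a box-fibred set -/
noncomputable def FB (K : Set (Ek k n)) (c : ℝ) : Fin n → Vk k → ℝ → ℝ := fun i t a =>
  (pj i '' K).indicator (fun _ => c) (t, a)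

theorem FB_fam {K : Set (Ek k n)} (h : Bx K) {c : ℝ} (hc : 0 < c) : Fam (FB K c) where
  nonneg i t x := indicator_nonneg (fun _ _ => hc.le) _
  meas i := by
    have : Function.uncurry (FB K c i) = (pj i '' K).indicator fun _ => c := by
      funext z
      rfl
    rw [this]
    exact measurable_const.indicator (h.proj i)
  logc i t s x y r r0 r1 := by
    unfold FB
    by_cases hx : ((t, x) : Vk k × ℝ) ∈ pj i '' K
    · by_cases hy : ((s, y) : Vk k × ℝ) ∈ pj i '' K
      · have hz : (((1 - r) • t + r • s, (1 - r) * x + r * y) : Vk k × ℝ) ∈ pj i '' K := by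
          obtain ⟨p, hp, hp2⟩ := hx
          obtain ⟨q, hq, hq2⟩ := hy
          refine ⟨(1 - r) • p + r • q, h.conv hp hq (by linarith) r0.le (by ring), ?_⟩
          rw [pj_lin, hp2, hq2]
          rfl
        rw [indicator_of_mem hx, indicator_of_mem hy, indicator_of_mem hz, ← Real.rpow_add hc]
        simp
      · rw [indicator_of_notMem hy, Real.zero_rpow r0.ne', mul_zero]
        exact indicator_nonneg (fun _ _ => hc.le) _
    · rw [indicator_of_notMem hx, Real.zero_rpow (by linarith : (1 - r) ≠ 0), zero_mul]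
      exact indicator_nonneg (fun _ _ => hc.le) _
  bdd := ⟨c, fun i t x => by
    unfold FB
    by_cases hx : ((t, x) : Vk k × ℝ) ∈ pj i '' K
    · rw [indicator_of_mem hx]
    · rw [indicator_of_notMem hx]; exact hc.le⟩
  supp := by
    obtain ⟨R, hR⟩ := h.bdd.exists_norm_le
    refine ⟨R, fun i t x hx => ?_⟩
    have hm : ((t, x) : Vk k × ℝ) ∈ pj i '' K := by
      by_contra hc
      exact hx (indicator_of_notMem hc _)
    obtain ⟨p, hp, hp2⟩ := hm
    have h1 := hR p hp
    have h2 : ‖p‖ ^ 2 = ‖fs p‖ ^ 2 + ∑ l, sn p l ^ 2 := by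
      have h3 := norm_jn_sub (k := k) (n := n) (fs p, sn p) (0, 0)
      have e0 : (jn ((0 : Vk k), (0 : Fin n → ℝ)) : Ek k n) = 0 := by
        ext c
        rcases c with j | i <;> rfl
      rw [e0, sub_zero, jn_fs] at h3
      simpa using h3
    have e1 : fs p = t := congrArg Prod.fst hp2
    have e2 : sn p i = x := congrArg Prod.snd hp2
    rw [e1] at h2
    have h4 : x ^ 2 ≤ ∑ l, sn p l ^ 2 := by
      rw [← e2]
      exact Finset.single_le_sum (f := fun l => sn p l ^ 2) (fun l _ => sq_nonneg _)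
        (Finset.mem_univ i)
    have hp0 : 0 ≤ ‖p‖ := norm_nonneg p
    have ht0 : 0 ≤ ‖t‖ := norm_nonneg t
    constructor
    · refine le_trans ?_ h1
      refine le_of_sq_le_sq' ?_ hp0
      nlinarith [sq_nonneg x]
    · refine le_trans ?_ h1
      refine abs_le_of_sq_le_sq ?_ hp0
      nlinarith [sq_nonneg ‖t‖]
where
  le_of_sq_le_sq' {a b : ℝ} (h : a ^ 2 ≤ b ^ 2) (hb : 0 ≤ b) : a ≤ b := by
    by_contra hc
    push Not at hc
    nlinarith
  abs_le_of_sq_le_sq {a b : ℝ} (h : a ^ 2 ≤ b ^ 2) (hb : 0 ≤ b) : |a| ≤ b := by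
    rw [← sq_abs] at h
    exact le_of_sq_le_sq' h hb

theorem den_FB {K : Set (Ek k n)} (h : Bx K) (c : ℝ) (hn : 0 < n) :
    den (FB K c) = K.indicator fun _ => c ^ n := by
  funext x
  unfold den FB
  by_cases hx : x ∈ K
  · rw [indicator_of_mem hx]
    have h1 : ∀ i : Fin n, ((fs x, sn x i) : Vk k × ℝ) ∈ pj i '' K := fun i => ⟨x, hx, rfl⟩
    calc ∏ i, (pj i '' K).indicator (fun _ => c) (fs x, sn x i) = ∏ _i : Fin n, c :=
          Finset.prod_congr rfl fun i _ => indicator_of_mem (h1 i) _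
      _ = c ^ n := by simp
  · rw [indicator_of_notMem hx]
    by_contra hc
    apply hx
    refine h.box x fun i => ?_
    have h1 : ((fs x, sn x i) : Vk k × ℝ) ∈ pj i '' K := by
      by_contra h2
      exact hc (Finset.prod_eq_zero (Finset.mem_univ i) (indicator_of_notMem h2 _))
    obtain ⟨y, hy, hy2⟩ := h1
    refine ⟨y, hy, fun j => ?_, ?_⟩
    · have e1 : fs y = fs x := congrArg Prod.fst hy2
      have := congrFun (congrArg WithLp.ofLp e1) j
      exact this
    · exact congrArg Prod.snd hy2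

open Pool.Agent.Q188.SB (rr mu_rr int_rr)

theorem mass_rr' {K : Set (Ek k n)} (h : Bx K) : mu (rr K) univ = 1 := by
  have hfin : volume K ≠ ⊤ := h.bdd.measure_lt_top.ne
  rw [mu_rr K h.meas, Measure.smul_apply, Measure.restrict_apply_univ, smul_eq_mul]
  have h1 : volume K = ENNReal.ofReal (volume K).toReal := (ENNReal.ofReal_toReal hfin).symm
  have hpos : 0 < (volume K).toReal := ENNReal.toReal_pos h.vol.ne' hfin
  nth_rw 2 [h1]
  rw [← ENNReal.ofReal_mul (by positivity), inv_mul_cancel₀ hpos.ne', ENNReal.ofReal_one]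

/-- the constant -/
noncomputable def CC (k : ℕ) : ℝ := 2 ^ 51 * 48 ^ k

theorem CC_pos (k : ℕ) : 0 < CC k := by unfold CC; positivity

/-- continuous functions are integrable -/
theorem integrable_rr {K : Set (Ek k n)} (h : Bx K) {φ : Ek k n → ℝ} (hφ : Continuous φ) :
    Integrable φ (mu (rr K)) := by
  rw [mu_rr K h.meas]
  refine Integrable.smul_measure ?_ ENNReal.ofReal_ne_top
  have hc : IsCompact (closure K) := h.bdd.isCompact_closure
  exact (hφ.continuousOn.integrableOn_compact hc).mono_set subset_closure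

/-- **variance of Lipschitz functions on a box-fibred set** -/
theorem body_gap {K : Set (Ek k n)} (h : Bx K) (hn : 0 < n) {s : ℝ} (hs0 : 0 ≤ s) (c : Ek k n)
    (hs : ∀ θ : Ek k n, EV K (fun x => ⟪θ, x - c⟫_ℝ ^ 2) ≤ s * ‖θ‖ ^ 2)
    {f : Ek k n → ℝ} (hf : ContDiff ℝ 1 f) (hf' : ∀ x, ‖fderiv ℝ f x‖ ≤ 1) :
    VV K f ≤ CC k * s := by
  have hfin : volume K ≠ ⊤ := h.bdd.measure_lt_top.ne
  have hpos : 0 < (volume K).toReal := ENNReal.toReal_pos h.vol.ne' hfin
  set M := (volume K).toReal with hM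
  set a : ℝ := (M⁻¹) ^ ((1 : ℝ) / n) with ha
  have ha0 : 0 < a := Real.rpow_pos_of_pos (inv_pos.2 hpos) _
  have han : a ^ n = M⁻¹ := by
    rw [ha, ← Real.rpow_natCast, ← Real.rpow_mul (inv_pos.2 hpos).le, one_div, inv_mul_cancel₀
      (by exact_mod_cast hn.ne'), Real.rpow_one]
  have hF := FB_fam h ha0
  have hd : den (FB K a) = rr K := by
    rw [den_FB h a hn, han]
    rfl
  have hm : mu (den (FB K a)) univ = 1 := by rw [hd]; exact mass_rr' h
  have hp : IsProbabilityMeasure (mu (rr K)) := ⟨mass_rr' h⟩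
  obtain ⟨A, hA⟩ := core' hF hn hm hs0 c (fun θ => by
    rw [hd, ← ofReal_integral_eq_lintegral_ofReal (integrable_rr h (by fun_prop))
      (Eventually.of_forall fun x => sq_nonneg _), int_rr K h.meas]
    exact ENNReal.ofReal_le_ofReal (hs θ)) hf hf'
  rw [hd] at hA
  have h1 := (var_of_lint hf.continuous.measurable (by positivity) hA).2
  rw [int_rr K h.meas, int_rr K h.meas] at h1
  exact h1

end Pool.Agent.Q73.KL
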