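import Pool.Agent.Q73.KL.Mean

/-!
# Variance of Lipschitz functions
-/

set_option autoImplicit false
set_option linter.unusedSectionVars false

namespace Pool.Agent.Q73.KL

open MeasureTheory Set Filter Topology
open scoped ENNReal InnerProductSpace
open Pool.Agent.Q188.NC (int_bdd sq_int_le var_prod)

variable {V : Type} [NormedAddCommGroup V] [InnerProductSpace ℝ V] [FiniteDimensional ℝ V]
  [MeasurableSpace V] [BorelSpace V]

namespace Fam

variable {n : ℕ} {F : Fin n → V → ℝ → ℝ}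

theorem Zi_bdd (h : Fam F) : ∃ C, 0 ≤ C ∧ ∀ i t, Zi F i t ≤ C := by
  obtain ⟨M, hM⟩ := h.bdd
  obtain ⟨R, hR⟩ := h.supp
  refine ⟨|M| * (2 * |R|), by positivity, fun i t => ?_⟩
  have h1 : Zi F i t = ∫ x in Icc (-|R|) |R|, F i t x := by
    unfold Zi
    rw [← integral_indicator measurableSet_Icc]
    congr 1
    ext x
    by_cases hx : x ∈ Icc (-|R|) |R|
    · rw [indicator_of_mem hx]
    · rw [indicator_of_notMem hx]
      by_contra hc
      exact hx (abs_le.1 ((hR i t x hc).2.trans (le_abs_self R)))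
  rw [h1]
  have h2 := norm_setIntegral_le_of_norm_le_const (μ := (volume : Measure ℝ)) (s := Icc (-|R|) |R|)
    (f := F i t) (C := |M|) (by simp) (fun x _ => by
      rw [Real.norm_of_nonneg (h.nonneg i t x)]
      exact (hM i t x).trans (le_abs_self M))
  refine (le_abs_self _).trans (h2.trans (le_of_eq ?_))
  congr 1
  rw [Measure.real, Real.volume_Icc, ENNReal.toReal_ofReal (by linarith [abs_nonneg R])]
  ring

theorem exists_bp (h : Fam F) (ν : Measure V) (hmass : ∫⁻ t, ENNReal.ofReal (ZZ F t) ∂ν ≠ 0) :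
    ∃ o, Bp F o := by
  obtain ⟨C, hC0, hC⟩ := h.Zi_bdd
  have hB : ∀ t, ZZ F t ≤ C ^ n := by
    intro t
    calc ZZ F t ≤ ∏ _i : Fin n, C :=
          Finset.prod_le_prod (fun i _ => h.Zi_nonneg i t) fun i _ => hC i t
      _ = C ^ n := by simp
  have hbdd : BddAbove (range (ZZ F)) := ⟨C ^ n, by rintro _ ⟨t, rfl⟩; exact hB t⟩
  obtain ⟨t0, ht0⟩ : ∃ t, 0 < ZZ F t := by
    by_contra hc
    push Not at hc
    apply hmass
    have : ∀ t, ENNReal.ofReal (ZZ F t) = 0 := fun t => ENNReal.ofReal_eq_zero.2 (hc t)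
    simp [this]
  have hS : 0 < sSup (range (ZZ F)) := lt_of_lt_of_le ht0 (le_csSup hbdd ⟨t0, rfl⟩)
  obtain ⟨_, ⟨o, rfl⟩, ho⟩ := exists_lt_of_lt_csSup ⟨_, mem_range_self t0⟩ (half_lt_self hS)
  refine ⟨o, h, lt_trans (by positivity) ho, fun t => ?_⟩
  have := le_csSup hbdd ⟨t, rfl⟩
  linarith

/-- second moments of the conditional mean -/
theorem avg (h : Fam F) (ν : Measure V) [SFinite ν] (e a : EuclideanSpace ℝ (Fin n)) {s : ℝ≥0∞}
    (hs : ∫⁻ z, ENNReal.ofReal ((∑ i, e i * (z.2 i - a i)) ^ 2) ∂(muF F ν) ≤ s) :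
    ∫⁻ t, ENNReal.ofReal (ZZ F t) * ENNReal.ofReal (⟪e, am F t - a⟫_ℝ ^ 2) ∂ν ≤ s := by
  rw [h.dis ν (by fun_prop)] at hs
  refine le_trans (lintegral_mono fun t => ?_) hs
  rcases (h.ZZ_nonneg t).eq_or_lt with h0 | ht
  · rw [← h0]; simp
  refine mul_le_mul' le_rfl ?_
  obtain ⟨R, hR0, hR⟩ := h.QQ_bdd
  have hQm := h.Qv_meas ht
  have hm : Measurable fun u : Fin n → ℝ => ∑ i, e i * (Qv F t u i - a i) := by fun_prop
  have hb : ∀ u, |∑ i, e i * (Qv F t u i - a i)| ≤ ∑ i, |e i| * (R + |a i|) := by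
    intro u
    refine (Finset.abs_sum_le_sum_abs _ _).trans (Finset.sum_le_sum fun i _ => ?_)
    rw [abs_mul]
    refine mul_le_mul_of_nonneg_left ?_ (abs_nonneg _)
    exact (abs_sub _ _).trans (add_le_add (hR t ht i _) le_rfl)
  have e1 : ∫ u, ∑ i, e i * (Qv F t u i - a i) ∂(Uc n) = ⟪e, am F t - a⟫_ℝ := by
    have hi : ∀ i, Integrable (fun u : Fin n → ℝ => Qv F t u i - a i) (Uc n) := fun i =>
      int_bdd (by fun_prop) (M := R + |a i|) fun u =>
        (abs_sub _ _).trans (add_le_add (hR t ht i _) le_rfl)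
    rw [integral_finsetSum _ fun i _ => (hi i).const_mul _, PiLp.inner_apply]
    refine Finset.sum_congr rfl fun i _ => ?_
    rw [integral_const_mul]
    have e2 : ∫ u : Fin n → ℝ, (Qv F t u i - a i) ∂(Uc n) = am F t i - a i := by
      have e3 : ∫ u : Fin n → ℝ, (Qv F t u i - a i) ∂(Uc n) = ∫ v, (QQ F i t v - a i) ∂I01 := by
        have hmp := measurePreserving_eval (fun _ : Fin n => I01) i
        have m1 : AEStronglyMeasurable (fun v => QQ F i t v - a i) I01 :=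
          ((h.qd (h.Zi_pos ht i)).meas.sub_const _).aestronglyMeasurable
        have := integral_map (μ := Uc n) (φ := Function.eval i) hmp.measurable.aemeasurable
          (f := fun v => QQ F i t v - a i) (by unfold Uc; rw [hmp.map_eq]; exact m1)
        unfold Uc at this ⊢
        rw [hmp.map_eq] at this
        exact this.symm
      rw [e3, integral_sub (int_bdd (h.qd (h.Zi_pos ht i)).meas (hR t ht i)) (integrable_const _),
        h.am_eq ht]
      simp
    rw [e2]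
    simp [mul_comm]
  rw [← e1, lint_real (hm.pow_const 2) (fun u => sq_nonneg _) (fun u => sq_bd (hb u))]
  exact ENNReal.ofReal_le_ofReal (sq_int_le hm hb)

end Fam

namespace Bp

variable {n : ℕ} {F : Fin n → V → ℝ → ℝ} {o : V}

theorem lint_eval (i : Fin n) {φ : ℝ → ℝ≥0∞} (hφ : Measurable φ) :
    ∫⁻ u : Fin n → ℝ, φ (u i) ∂(Uc n) = ∫⁻ v, φ v ∂I01 := by
  have hmp := measurePreserving_eval (fun _ : Fin n => I01) i
  rw [← hmp.map_eq, lintegral_map hφ hmp.measurable]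
  rfl

theorem W_bd (h : Bp F o) (ν : Measure V) [ν.IsAddHaarMeasure]
    (hmass : ∫⁻ t, ENNReal.ofReal (ZZ F t) ∂ν = 1) (i : Fin n) (a : ℝ) {s : ℝ} (hs0 : 0 ≤ s)
    (hs : ∫⁻ z, ENNReal.ofReal ((z.2 i - a) ^ 2) ∂(muF F ν) ≤ ENNReal.ofReal s) :
    qq F i o (1 / 2) ^ 2 ≤ 2 ^ 22 * 3 ^ Module.finrank ℝ V * s := by
  rw [h.fam.dis ν (by fun_prop)] at hs
  have l0 := (h.fam.qd (h.fam.Zi_pos h.pos i)).lpos
  set L := qq F i o (1 / 2) with hL
  have h1 : ∫⁻ t, ENNReal.ofReal (L ^ 2 / 2 ^ 22) *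
      ENNReal.ofReal (ZZ F t * Real.exp (-(2 * YY F o t))) ∂ν ≤ ENNReal.ofReal s := by
    refine le_trans (lintegral_mono fun t => ?_) hs
    rcases (h.fam.ZZ_nonneg t).eq_or_lt with h0 | ht
    · rw [← h0]; simp
    have hq := h.fam.qd (h.fam.Zi_pos ht i)
    have e1 : ∫⁻ u : Fin n → ℝ, ENNReal.ofReal ((Qv F t u i - a) ^ 2) ∂(Uc n) =
        ∫⁻ v, ENNReal.ofReal ((QQ F i t v - a) ^ 2) ∂I01 := by
      have hm : Measurable fun v => ENNReal.ofReal ((QQ F i t v - a) ^ 2) :=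
        ((hq.meas.sub_const _).pow_const 2).ennreal_ofReal
      exact lint_eval i hm
    simp only
    rw [e1]
    have h2 := hq.var_lo a
    have h3 := h.grow2 ht i
    rw [ENNReal.ofReal_mul ht.le]
    calc ENNReal.ofReal (L ^ 2 / 2 ^ 22) * (ENNReal.ofReal (ZZ F t) *
          ENNReal.ofReal (Real.exp (-(2 * YY F o t))))
        = ENNReal.ofReal (ZZ F t) * (ENNReal.ofReal (L ^ 2 / 2 ^ 22) *
          ENNReal.ofReal (Real.exp (-(2 * YY F o t)))) := by ring
      _ ≤ ENNReal.ofReal (ZZ F t) * ENNReal.ofReal (qq F i t (1 / 2) ^ 2 / 64) := by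
          refine mul_le_mul' le_rfl ?_
          rw [← ENNReal.ofReal_mul (by positivity)]
          refine ENNReal.ofReal_le_ofReal ?_
          have h4 : L ^ 2 ≤ (256 * Real.exp (YY F o t) * qq F i t (1 / 2)) ^ 2 :=
            pow_le_pow_left₀ l0.le h3 2
          have h5 : (256 * Real.exp (YY F o t) * qq F i t (1 / 2)) ^ 2 =
              2 ^ 16 * Real.exp (2 * YY F o t) * qq F i t (1 / 2) ^ 2 := by
            have : Real.exp (2 * YY F o t) = Real.exp (YY F o t) ^ 2 := by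
              rw [← Real.exp_nat_mul]; norm_num
            rw [this]; ring
          rw [h5] at h4
          have h6 : Real.exp (2 * YY F o t) * Real.exp (-(2 * YY F o t)) = 1 := by
            rw [← Real.exp_add]; simp
          have h7 := Real.exp_pos (-(2 * YY F o t))
          calc L ^ 2 / 2 ^ 22 * Real.exp (-(2 * YY F o t))
              ≤ (2 ^ 16 * Real.exp (2 * YY F o t) * qq F i t (1 / 2) ^ 2) / 2 ^ 22 *
                  Real.exp (-(2 * YY F o t)) := by gcongr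
            _ = (2 ^ 16 / 2 ^ 22) * (Real.exp (2 * YY F o t) * Real.exp (-(2 * YY F o t))) *
                  qq F i t (1 / 2) ^ 2 := by ring
            _ = qq F i t (1 / 2) ^ 2 / 64 := by rw [h6]; ring
      _ ≤ _ := mul_le_mul' le_rfl h2
  rw [lintegral_const_mul' _ _ ENNReal.ofReal_ne_top] at h1
  have h2 := h.scale2 ν
  rw [hmass] at h2
  have h3 : ENNReal.ofReal (L ^ 2 / 2 ^ 22) ≤ ENNReal.ofReal (3 ^ Module.finrank ℝ V) *
      ENNReal.ofReal s := by
    calc ENNReal.ofReal (L ^ 2 / 2 ^ 22) = ENNReal.ofReal (L ^ 2 / 2 ^ 22) * 1 := (mul_one _).symm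
      _ ≤ ENNReal.ofReal (L ^ 2 / 2 ^ 22) * (ENNReal.ofReal (3 ^ Module.finrank ℝ V) *
          ∫⁻ t, ENNReal.ofReal (ZZ F t * Real.exp (-(2 * YY F o t))) ∂ν) := mul_le_mul' le_rfl h2
      _ = ENNReal.ofReal (3 ^ Module.finrank ℝ V) * (ENNReal.ofReal (L ^ 2 / 2 ^ 22) *
          ∫⁻ t, ENNReal.ofReal (ZZ F t * Real.exp (-(2 * YY F o t))) ∂ν) := by ring
      _ ≤ _ := mul_le_mul' le_rfl h1
  rw [← ENNReal.ofReal_mul (by positivity), ENNReal.ofReal_le_ofReal_iff (by positivity)] at h3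
  rw [div_le_iff₀ (by positivity)] at h3
  linarith

end Bp

end Pool.Agent.Q73.KL
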