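import Pool.Agent.Q73.KL.Scale

/-!
# Disintegration, and a lower bound for the variance
-/

set_option autoImplicit false
set_option linter.unusedSectionVars false

namespace Pool.Agent.Q73.KL

open MeasureTheory Set Filter Topology
open scoped ENNReal

/-- the uniform measure on the unit interval -/
noncomputable def I01 : Measure ℝ := volume.restrict (Ioo (0:ℝ) 1)

instance : IsProbabilityMeasure I01 := ⟨by simp [I01]⟩

/-- the uniform measure on the unit cube -/
noncomputable def Uc (n : ℕ) : Measure (Fin n → ℝ) := Measure.pi fun _ => I01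

instance (n : ℕ) : IsProbabilityMeasure (Uc n) := by unfold Uc; infer_instance

theorem QD.var_lo {F : ℝ → ℝ} {Z : ℝ} {Q q : ℝ → ℝ} (h : QD F Z Q q) (a : ℝ) :
    ENNReal.ofReal (q (1 / 2) ^ 2 / 64) ≤ ∫⁻ u, ENNReal.ofReal ((Q u - a) ^ 2) ∂I01 := by
  have hl := h.lpos
  have hsub : Ioo (0:ℝ) (1/2) ⊆ Ioo 0 1 := Ioo_subset_Ioo_right (by norm_num)
  have key : ∀ u ∈ Ioo (0:ℝ) (1/2), q (1 / 2) ^ 2 / 32 ≤ (Q u - a) ^ 2 + (Q (u + 1 / 2) - a) ^ 2 := by
    intro u hu
    have hlt : u < u + 1 / 2 := by linarith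
    have hIcc : ∀ x ∈ Icc u (u + 1 / 2), x ∈ Ioo (0:ℝ) 1 := fun x hx =>
      ⟨lt_of_lt_of_le hu.1 hx.1, lt_of_le_of_lt hx.2 (by linarith [hu.2])⟩
    obtain ⟨c, hc, hc2⟩ := exists_hasDerivAt_eq_slope Q q hlt
      (fun x hx => (h.deriv x (hIcc x hx)).continuousAt.continuousWithinAt)
      (fun x hx => h.deriv x (hIcc x (Ioo_subset_Icc_self hx)))
    have h1 := h.low c (hIcc c (Ioo_subset_Icc_self hc))
    have h2 : Q (u + 1 / 2) - Q u = q c * (1 / 2) := by
      rw [hc2]; field_simp; ring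
    have h3 : q (1 / 2) / 4 ≤ Q (u + 1 / 2) - Q u := by rw [h2]; linarith
    have h4 : (q (1 / 2) / 4) ^ 2 ≤ (Q (u + 1 / 2) - Q u) ^ 2 :=
      pow_le_pow_left₀ (by positivity) h3 2
    nlinarith [sq_nonneg ((Q u - a) + (Q (u + 1 / 2) - a))]
  have hm1 : Measurable fun u => ENNReal.ofReal ((Q u - a) ^ 2) := by
    have := h.meas
    fun_prop
  have e1 : ∫⁻ u in Ioo (1/2:ℝ) 1, ENNReal.ofReal ((Q u - a) ^ 2) =
      ∫⁻ u in Ioo (0:ℝ) (1/2), ENNReal.ofReal ((Q (u + 1 / 2) - a) ^ 2) := by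
    have := (measurePreserving_add_right (volume : Measure ℝ) (1/2)).setLIntegral_comp_preimage_emb
      (measurableEmbedding_addRight (1/2 : ℝ)) (fun u => ENNReal.ofReal ((Q u - a) ^ 2)) (Ioo (1/2:ℝ) 1)
    rw [← this]
    congr 2
    ext u
    simp only [mem_Ioo, mem_preimage]
    constructor
    · intro h; constructor <;> linarith [h.1, h.2]
    · intro h; constructor <;> linarith [h.1, h.2]
  have e2 : (∫⁻ u in Ioo (0:ℝ) (1/2), ENNReal.ofReal ((Q u - a) ^ 2)) +
      ∫⁻ u in Ioo (1/2:ℝ) 1, ENNReal.ofReal ((Q u - a) ^ 2) ≤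
      ∫⁻ u, ENNReal.ofReal ((Q u - a) ^ 2) ∂I01 := by
    have hd : Disjoint (Ioo (0:ℝ) (1/2)) (Ioo (1/2:ℝ) 1) := by
      rw [Set.disjoint_left]
      intro u hu hu'
      exact absurd hu.2 (not_lt.2 hu'.1.le)
    rw [← lintegral_union measurableSet_Ioo hd]
    refine lintegral_mono_set (union_subset hsub (Ioo_subset_Ioo_left (by norm_num)))
  refine le_trans ?_ e2
  rw [e1, ← lintegral_add_left hm1]
  have e3 : ENNReal.ofReal (q (1 / 2) ^ 2 / 64) =
      ∫⁻ _u in Ioo (0:ℝ) (1/2), ENNReal.ofReal (q (1 / 2) ^ 2 / 32) := by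
    rw [setLIntegral_const, Real.volume_Ioo, ← ENNReal.ofReal_mul (by positivity)]
    congr 1
    ring
  rw [e3]
  refine setLIntegral_mono_ae' measurableSet_Ioo (Eventually.of_forall fun u hu => ?_)
  rw [← ENNReal.ofReal_add (sq_nonneg _) (sq_nonneg _)]
  exact ENNReal.ofReal_le_ofReal (key u hu)

variable {V : Type} [NormedAddCommGroup V] [NormedSpace ℝ V] [MeasurableSpace V] [BorelSpace V]

theorem lint_prod {n : ℕ} (G : Fin n → ℝ → ℝ) (hG : ∀ i, Integrable (G i)) (h0 : ∀ i x, 0 ≤ G i x) :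
    ∫⁻ x : Fin n → ℝ, ENNReal.ofReal (∏ i, G i (x i)) = ∏ i, ENNReal.ofReal (∫ x, G i x) := by
  have h1 : Integrable (fun x : Fin n → ℝ => ∏ i, G i (x i)) := Integrable.fintype_prod hG
  rw [← ofReal_integral_eq_lintegral_ofReal h1
    (Eventually.of_forall fun x => Finset.prod_nonneg fun i _ => h0 i _),
    integral_fintype_prod_volume_eq_prod, ENNReal.ofReal_prod_of_nonneg fun i _ =>
      integral_nonneg fun x => h0 i x]

theorem pi_dens {n : ℕ} (G : Fin n → ℝ → ℝ) (hG : ∀ i, Integrable (G i))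
    (h0 : ∀ i x, 0 ≤ G i x) :
    (volume : Measure (Fin n → ℝ)).withDensity (fun x => ENNReal.ofReal (∏ i, G i (x i))) =
      Measure.pi fun i => (volume : Measure ℝ).withDensity fun x => ENNReal.ofReal (G i x) := by
  have : ∀ i, IsFiniteMeasure ((volume : Measure ℝ).withDensity fun x => ENNReal.ofReal (G i x)) :=
    fun i => isFiniteMeasure_withDensity_ofReal (hG i).2
  symm
  refine Measure.pi_eq fun s hs => ?_
  rw [withDensity_apply _ (MeasurableSet.univ_pi hs), ← lintegral_indicator (MeasurableSet.univ_pi hs)]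
  have e : ∀ x : Fin n → ℝ, (univ.pi s).indicator (fun x => ENNReal.ofReal (∏ i, G i (x i))) x =
      ENNReal.ofReal (∏ i, (s i).indicator (G i) (x i)) := by
    intro x
    by_cases hx : x ∈ univ.pi s
    · rw [indicator_of_mem hx]
      congr 1
      refine Finset.prod_congr rfl fun i _ => ?_
      rw [indicator_of_mem (hx i (mem_univ i))]
    · rw [indicator_of_notMem hx]
      obtain ⟨i, hi⟩ : ∃ i, x i ∉ s i := by
        by_contra hc
        push Not at hc
        exact hx fun i _ => hc i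
      rw [Finset.prod_eq_zero (Finset.mem_univ i) (indicator_of_notMem hi _), ENNReal.ofReal_zero]
  simp only [e]
  rw [lint_prod _ (fun i => (hG i).indicator (hs i))
    (fun i x => indicator_nonneg (fun x _ => h0 i x) x)]
  refine Finset.prod_congr rfl fun i _ => ?_
  rw [withDensity_apply _ (hs i), integral_indicator (hs i),
    ofReal_integral_eq_lintegral_ofReal (hG i).integrableOn (Eventually.of_forall fun x => h0 i x)]

theorem QD.dens_eq {F : ℝ → ℝ} {Z : ℝ} {Q q : ℝ → ℝ} (h : QD F Z Q q) :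
    (volume : Measure ℝ).withDensity (fun x => ENNReal.ofReal (F x)) =
      ENNReal.ofReal Z • I01.map Q := by
  ext B hB
  rw [withDensity_apply _ hB, h.mass hB, Measure.smul_apply, smul_eq_mul, Measure.map_apply h.meas hB]
  congr 1
  unfold I01
  rw [Measure.restrict_apply (h.meas hB)]
  congr 1
  ext u
  simp [and_comm]

/-- vector of quantiles -/
noncomputable def Qv {n : ℕ} (F : Fin n → V → ℝ → ℝ) (t : V) (u : Fin n → ℝ) : Fin n → ℝ :=
  fun i => QQ F i t (u i)

namespace Fam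

variable {n : ℕ} {F : Fin n → V → ℝ → ℝ}

theorem Qv_meas (h : Fam F) {t : V} (ht : 0 < ZZ F t) : Measurable (Qv F t) := by
  unfold Qv
  refine measurable_pi_lambda _ fun i => ?_
  exact (h.qd (h.Zi_pos ht i)).meas.comp (measurable_pi_apply i)

theorem dens_eq (h : Fam F) {t : V} (ht : 0 < ZZ F t) :
    (volume : Measure (Fin n → ℝ)).withDensity (fun x => ENNReal.ofReal (∏ i, F i t (x i))) =
      ENNReal.ofReal (ZZ F t) • (Uc n).map (Qv F t) := by
  rw [pi_dens (fun i => F i t) (fun i => h.int1 i t) (fun i x => h.nonneg i t x)]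
  have hfin : ∀ i, IsFiniteMeasure ((volume : Measure ℝ).withDensity fun x => ENNReal.ofReal (F i t x)) :=
    fun i => isFiniteMeasure_withDensity_ofReal (h.int1 i t).2
  refine Measure.pi_eq fun s hs => ?_
  rw [Measure.smul_apply, smul_eq_mul, Measure.map_apply (h.Qv_meas ht) (MeasurableSet.univ_pi hs)]
  have e1 : Qv F t ⁻¹' univ.pi s = univ.pi fun i => QQ F i t ⁻¹' s i := by
    ext u
    simp [Qv]
  rw [e1]
  unfold Uc ZZ
  rw [Measure.pi_pi, ENNReal.ofReal_prod_of_nonneg fun i _ => h.Zi_nonneg i t,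
    ← Finset.prod_mul_distrib]
  refine Finset.prod_congr rfl fun i _ => ?_
  have hq := h.qd (h.Zi_pos ht i)
  rw [hq.dens_eq, Measure.smul_apply, smul_eq_mul, Measure.map_apply hq.meas (hs i)]

theorem fiber (h : Fam F) (t : V) {φ : (Fin n → ℝ) → ℝ≥0∞} (hφ : Measurable φ) :
    ∫⁻ x, ENNReal.ofReal (∏ i, F i t (x i)) * φ x =
      ENNReal.ofReal (ZZ F t) * ∫⁻ u, φ (Qv F t u) ∂(Uc n) := by
  have hm : Measurable fun x : Fin n → ℝ => ENNReal.ofReal (∏ i, F i t (x i)) :=
    (Finset.measurable_fun_prod _ fun i _ => (h.meas1 i t).comp (measurable_pi_apply i)).ennreal_ofReal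
  rcases (h.ZZ_nonneg t).eq_or_lt with h0 | ht
  · rw [← h0, ENNReal.ofReal_zero, zero_mul]
    have h1 := lint_prod (fun i => F i t) (fun i => h.int1 i t) (fun i x => h.nonneg i t x)
    have h2 : ∏ i, ENNReal.ofReal (∫ x, F i t x) = 0 := by
      have : ∏ i, ENNReal.ofReal (∫ x, F i t x) = ENNReal.ofReal (ZZ F t) := by
        have e1 := ENNReal.ofReal_prod_of_nonneg (s := Finset.univ) (f := fun i => Zi F i t)
          fun i _ => h.Zi_nonneg i t
        exact e1.symm
      rw [this, ← h0, ENNReal.ofReal_zero]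
    rw [h2, lintegral_eq_zero_iff hm] at h1
    have h3 : ∫⁻ x, ((fun x : Fin n → ℝ => ENNReal.ofReal (∏ i, F i t (x i))) * φ) x = 0 := by
      rw [lintegral_eq_zero_iff (hm.mul hφ)]
      filter_upwards [h1] with x hx
      simp only [Pi.zero_apply, Pi.mul_apply] at hx ⊢
      rw [hx, zero_mul]
    exact h3
  · have h1 : ∫⁻ x, ENNReal.ofReal (∏ i, F i t (x i)) * φ x =
        ∫⁻ x, φ x ∂((volume : Measure (Fin n → ℝ)).withDensity
          (fun x => ENNReal.ofReal (∏ i, F i t (x i)))) := by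
      rw [lintegral_withDensity_eq_lintegral_mul _ hm hφ]
      rfl
    rw [h1, h.dens_eq ht, lintegral_smul_measure, lintegral_map hφ (h.Qv_meas ht), smul_eq_mul]

end Fam

/-- the joint measure -/
noncomputable def muF {n : ℕ} (F : Fin n → V → ℝ → ℝ) (ν : Measure V) : Measure (V × (Fin n → ℝ)) :=
  (ν.prod volume).withDensity fun z => ENNReal.ofReal (∏ i, F i z.1 (z.2 i))

theorem Fam.dis {n : ℕ} {F : Fin n → V → ℝ → ℝ} (h : Fam F) (ν : Measure V) [SFinite ν]
    {φ : V × (Fin n → ℝ) → ℝ≥0∞} (hφ : Measurable φ) :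
    ∫⁻ z, φ z ∂(muF F ν) =
      ∫⁻ t, ENNReal.ofReal (ZZ F t) * ∫⁻ u, φ (t, Qv F t u) ∂(Uc n) ∂ν := by
  have hm : Measurable fun z : V × (Fin n → ℝ) => ENNReal.ofReal (∏ i, F i z.1 (z.2 i)) := by
    refine (Finset.measurable_fun_prod _ fun i _ => ?_).ennreal_ofReal
    exact (h.meas i).comp (measurable_fst.prodMk ((measurable_pi_apply i).comp measurable_snd))
  unfold muF
  rw [lintegral_withDensity_eq_lintegral_mul _ hm hφ, lintegral_prod _ (hm.mul hφ).aemeasurable]
  refine lintegral_congr fun t => ?_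
  simp only [Pi.mul_apply]
  exact h.fiber t (φ := fun x => φ (t, x)) (hφ.comp measurable_prodMk_left)

end Pool.Agent.Q73.KL
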