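import Pool.Agent.Q73.KL.Two

/-!
# Families of log-concave functions on the line, depending in a log-concave way on a parameter
-/

set_option autoImplicit false
set_option linter.unusedSectionVars false

namespace Pool.Agent.Q73.KL

open MeasureTheory Set Filter Topology
open scoped ENNReal

variable {V : Type} [NormedAddCommGroup V] [NormedSpace ℝ V] [MeasurableSpace V] [BorelSpace V]

/-- `F_i(t, x)` is log-concave, bounded, with bounded support -/
structure Fam {n : ℕ} (F : Fin n → V → ℝ → ℝ) : Prop where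
  nonneg : ∀ i t x, 0 ≤ F i t x
  meas : ∀ i, Measurable (Function.uncurry (F i))
  logc : ∀ i (t s : V) (x y r : ℝ), 0 < r → r < 1 →
    F i t x ^ (1 - r) * F i s y ^ r ≤ F i ((1 - r) • t + r • s) ((1 - r) * x + r * y)
  bdd : ∃ M, ∀ i t x, F i t x ≤ M
  supp : ∃ R, ∀ i t x, F i t x ≠ 0 → ‖t‖ ≤ R ∧ |x| ≤ R

/-- Jensen for log-concave functions -/
theorem logc_prod {E : Type} [AddCommGroup E] [Module ℝ E] {f : E → ℝ} (h0 : ∀ x, 0 ≤ f x)
    (h : ∀ x y (r : ℝ), 0 < r → r < 1 → f x ^ (1 - r) * f y ^ r ≤ f ((1 - r) • x + r • y))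
    {J : Type} [Fintype J] {w : J → ℝ} (w0 : ∀ j, 0 ≤ w j) (w1 : ∑ j, w j = 1) (p : J → E) :
    ∏ j, f (p j) ^ w j ≤ f (∑ j, w j • p j) := by
  classical
  by_cases hz : ∃ j, 0 < w j ∧ f (p j) = 0
  · obtain ⟨j, hj, hj2⟩ := hz
    have : ∏ j, f (p j) ^ w j = 0 := Finset.prod_eq_zero (Finset.mem_univ j) (by
      rw [hj2, Real.zero_rpow hj.ne'])
    rw [this]
    exact h0 _
  · push Not at hz
    have hconc : ConcaveOn ℝ {x | 0 < f x} fun x => Real.log (f x) := by
      have key : ∀ x ∈ {x | 0 < f x}, ∀ y ∈ {x | 0 < f x}, ∀ a b : ℝ, 0 < a → 0 < b → a + b = 1 →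
          0 < f (a • x + b • y) ∧
            a • Real.log (f x) + b • Real.log (f y) ≤ Real.log (f (a • x + b • y)) := by
        intro x hx y hy a b ha hb hab
        have ea : a = 1 - b := by linarith
        have h1 := h x y b hb (by linarith)
        have hx0 : 0 < f x := hx
        have hy0 : 0 < f y := hy
        rw [← ea] at h1
        have h3 : 0 < f x ^ a * f y ^ b :=
          mul_pos (Real.rpow_pos_of_pos hx0 _) (Real.rpow_pos_of_pos hy0 _)
        refine ⟨lt_of_lt_of_le h3 h1, ?_⟩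
        have h2 := Real.log_le_log h3 h1
        rw [Real.log_mul (Real.rpow_pos_of_pos hx0 _).ne' (Real.rpow_pos_of_pos hy0 _).ne',
          Real.log_rpow hx0, Real.log_rpow hy0] at h2
        simpa only [smul_eq_mul] using h2
      refine ⟨convex_iff_forall_pos.2 fun x hx y hy a b ha hb hab => (key x hx y hy a b ha hb hab).1,
        fun x hx y hy a b ha hb hab => ?_⟩
      rcases ha.eq_or_lt with ha' | ha'
      · rw [← ha'] at hab ⊢
        have : b = 1 := by linarith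
        rw [this]; simp
      rcases hb.eq_or_lt with hb' | hb'
      · rw [← hb'] at hab ⊢
        have : a = 1 := by linarith
        rw [this]; simp
      exact (key x hx y hy a b ha' hb' hab).2
    set s : Finset J := Finset.univ.filter fun j => 0 < w j with hs
    have hsw : ∀ j ∉ s, w j = 0 := by
      intro j hj
      simp only [hs, Finset.mem_filter, Finset.mem_univ, true_and, not_lt] at hj
      exact le_antisymm hj (w0 j)
    have hmem : ∀ j ∈ s, p j ∈ {x | 0 < f x} := by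
      intro j hj
      have hj' : 0 < w j := by simpa [hs] using hj
      exact lt_of_le_of_ne (h0 _) (Ne.symm (hz j hj'))
    have e1 : ∑ j ∈ s, w j = 1 := by
      rw [← w1]
      exact Finset.sum_subset (Finset.subset_univ _) fun j _ hj => hsw j hj
    have e2 : ∑ j ∈ s, w j • p j = ∑ j, w j • p j :=
      Finset.sum_subset (Finset.subset_univ _) fun j _ hj => by rw [hsw j hj, zero_smul]
    have e3 : ∏ j ∈ s, f (p j) ^ w j = ∏ j, f (p j) ^ w j :=
      Finset.prod_subset (Finset.subset_univ _) fun j _ hj => by rw [hsw j hj, Real.rpow_zero]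
    have h1 := hconc.le_map_sum (t := s) (w := w) (p := p) (fun j _ => w0 j) e1 hmem
    have h2 := hconc.1.sum_mem (t := s) (w := w) (z := p) (fun j _ => w0 j) e1 hmem
    rw [e2] at h1 h2
    rw [← e3]
    have h3 : ∏ j ∈ s, f (p j) ^ w j = Real.exp (∑ j ∈ s, w j • Real.log (f (p j))) := by
      rw [Real.exp_sum]
      refine Finset.prod_congr rfl fun j hj => ?_
      rw [Real.rpow_def_of_pos (hmem j hj), smul_eq_mul, mul_comm]
    rw [h3]
    calc Real.exp (∑ j ∈ s, w j • Real.log (f (p j))) ≤ Real.exp (Real.log (f (∑ j, w j • p j))) :=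
          Real.exp_le_exp.2 h1
      _ = _ := Real.exp_log h2

/-- the marginal densities -/
noncomputable def Zi {n : ℕ} (F : Fin n → V → ℝ → ℝ) (i : Fin n) (t : V) : ℝ := ∫ x, F i t x

/-- the marginal density -/
noncomputable def ZZ {n : ℕ} (F : Fin n → V → ℝ → ℝ) (t : V) : ℝ := ∏ i, Zi F i t

/-- quantile function -/
noncomputable def QQ {n : ℕ} (F : Fin n → V → ℝ → ℝ) (i : Fin n) (t : V) (u : ℝ) : ℝ :=
  LC1.Qf (F i t) u

/-- derivative of the quantile function -/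
noncomputable def qq {n : ℕ} (F : Fin n → V → ℝ → ℝ) (i : Fin n) (t : V) (u : ℝ) : ℝ :=
  Zi F i t / F i t (QQ F i t u)

namespace Fam

variable {n : ℕ} {F : Fin n → V → ℝ → ℝ}

theorem meas1 (h : Fam F) (i : Fin n) (t : V) : Measurable (F i t) :=
  (h.meas i).comp measurable_prodMk_left

theorem int1 (h : Fam F) (i : Fin n) (t : V) : Integrable (F i t) := by
  obtain ⟨M, hM⟩ := h.bdd
  obtain ⟨R, hR⟩ := h.supp
  have h1 : (F i t) = (Icc (-R) R).indicator (F i t) := by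
    ext x
    by_cases hx : x ∈ Icc (-R) R
    · rw [indicator_of_mem hx]
    · rw [indicator_of_notMem hx]
      by_contra hc
      exact hx (abs_le.1 (hR i t x hc).2)
  rw [h1, integrable_indicator_iff measurableSet_Icc]
  refine Measure.integrableOn_of_bounded (M := M) (by simp) (h.meas1 i t).aestronglyMeasurable
    (Eventually.of_forall fun x => ?_)
  rw [Real.norm_of_nonneg (h.nonneg i t x)]
  exact hM i t x

theorem Zi_nonneg (h : Fam F) (i : Fin n) (t : V) : 0 ≤ Zi F i t :=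
  integral_nonneg fun x => h.nonneg i t x

theorem ZZ_nonneg (h : Fam F) (t : V) : 0 ≤ ZZ F t := Finset.prod_nonneg fun i _ => h.Zi_nonneg i t

theorem Zi_pos (h : Fam F) {t : V} (ht : 0 < ZZ F t) (i : Fin n) : 0 < Zi F i t := by
  refine lt_of_le_of_ne (h.Zi_nonneg i t) fun hc => ?_
  have : ZZ F t = 0 := Finset.prod_eq_zero (Finset.mem_univ i) hc.symm
  rw [this] at ht
  exact lt_irrefl _ ht

theorem lc1 (h : Fam F) {i : Fin n} {t : V} (ht : 0 < Zi F i t) : LC1 (F i t) where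
  nonneg := h.nonneg i t
  meas := h.meas1 i t
  logc x y r r0 r1 := by
    have := h.logc i t t x y r r0 r1
    rwa [← add_smul, sub_add_cancel, one_smul] at this
  int := h.int1 i t
  pos := ht

theorem qd (h : Fam F) {i : Fin n} {t : V} (ht : 0 < Zi F i t) :
    QD (F i t) (Zi F i t) (QQ F i t) (qq F i t) := (h.lc1 ht).qd

theorem conf0 (h : Fam F) {J : Type} [Fintype J] {w : J → ℝ} (w0 : ∀ j, 0 ≤ w j)
    (w1 : ∑ j, w j = 1) {p : J → V} (hp : ∀ j, 0 < ZZ F (p j)) (i : Fin n) :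
    Conf0 w (fun j => F i (p j)) (fun j => Zi F i (p j)) (fun j => QQ F i (p j))
      (fun j => qq F i (p j)) (F i (∑ j, w j • p j)) where
  w0 := w0
  w1 := w1
  qd j := h.qd (h.Zi_pos (hp j) i)
  maj x := by
    have h1 := logc_prod (E := V × ℝ) (f := fun z => F i z.1 z.2) (fun z => h.nonneg i _ _)
      (fun z z' r r0 r1 => h.logc i z.1 z'.1 z.2 z'.2 r r0 r1) w0 w1 (fun j => (p j, x j))
    simp only [Prod.smul_mk, Prod.fst_sum, Prod.snd_sum, smul_eq_mul] at h1
    exact h1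

theorem Zi_conv (h : Fam F) {J : Type} [Fintype J] {w : J → ℝ} (w0 : ∀ j, 0 ≤ w j)
    (w1 : ∑ j, w j = 1) {p : J → V} (hp : ∀ j, 0 < ZZ F (p j)) (i : Fin n) :
    ∏ j, Zi F i (p j) ^ w j ≤ Zi F i (∑ j, w j • p j) := by
  have h0 := h.conf0 w0 w1 hp i
  have h1 := h0.base1 measurableSet_Ioo subset_rfl
  have h2 := h1.trans (setLIntegral_le_lintegral _ _)
  simp only [Real.volume_Ioo, sub_zero, ENNReal.ofReal_one, mul_one] at h2
  rw [← ofReal_integral_eq_lintegral_ofReal (h.int1 i _)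
    (Eventually.of_forall fun x => h.nonneg i _ x)] at h2
  exact (ENNReal.ofReal_le_ofReal_iff (h.Zi_nonneg i _)).1 h2

theorem Zi_conv_pos (h : Fam F) {J : Type} [Fintype J] {w : J → ℝ} (w0 : ∀ j, 0 ≤ w j)
    (w1 : ∑ j, w j = 1) {p : J → V} (hp : ∀ j, 0 < ZZ F (p j)) (i : Fin n) :
    0 < Zi F i (∑ j, w j • p j) :=
  lt_of_lt_of_le (Finset.prod_pos fun j _ => Real.rpow_pos_of_pos (h.Zi_pos (hp j) i) _)
    (h.Zi_conv w0 w1 hp i)

theorem ZZ_conv_pos (h : Fam F) {J : Type} [Fintype J] {w : J → ℝ} (w0 : ∀ j, 0 ≤ w j)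
    (w1 : ∑ j, w j = 1) {p : J → V} (hp : ∀ j, 0 < ZZ F (p j)) : 0 < ZZ F (∑ j, w j • p j) :=
  Finset.prod_pos fun i _ => h.Zi_conv_pos w0 w1 hp i

theorem ZZ_conv (h : Fam F) {J : Type} [Fintype J] {w : J → ℝ} (w0 : ∀ j, 0 ≤ w j)
    (w1 : ∑ j, w j = 1) {p : J → V} (hp : ∀ j, 0 < ZZ F (p j)) :
    ∏ j, ZZ F (p j) ^ w j ≤ ZZ F (∑ j, w j • p j) := by
  have e : ∏ j, ZZ F (p j) ^ w j = ∏ i, ∏ j, Zi F i (p j) ^ w j := by
    rw [Finset.prod_comm]
    refine Finset.prod_congr rfl fun j _ => ?_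
    unfold ZZ
    rw [Real.finsetProd_rpow _ _ fun i _ => h.Zi_nonneg i _]
  rw [e]
  exact Finset.prod_le_prod (fun i _ => Finset.prod_nonneg fun j _ =>
    Real.rpow_nonneg (h.Zi_nonneg _ _) _) fun i _ => h.Zi_conv w0 w1 hp i

theorem conf (h : Fam F) {J : Type} [Fintype J] {w : J → ℝ} (w0 : ∀ j, 0 ≤ w j)
    (w1 : ∑ j, w j = 1) {p : J → V} (hp : ∀ j, 0 < ZZ F (p j)) (i : Fin n) :
    Conf w (fun j => F i (p j)) (fun j => Zi F i (p j)) (fun j => QQ F i (p j))
      (fun j => qq F i (p j)) (F i (∑ j, w j • p j)) (Zi F i (∑ j, w j • p j))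
      (QQ F i (∑ j, w j • p j)) (qq F i (∑ j, w j • p j)) :=
  { h.conf0 w0 w1 hp i with qdr := h.qd (h.Zi_conv_pos w0 w1 hp i) }

/-- the deficit of coordinate `i` -/
noncomputable def del (F : Fin n → V → ℝ → ℝ) {J : Type} [Fintype J] (w : J → ℝ) (p : J → V)
    (i : Fin n) : ℝ := Real.log (Zi F i (∑ j, w j • p j) / ∏ j, Zi F i (p j) ^ w j)

theorem del_nonneg (h : Fam F) {J : Type} [Fintype J] {w : J → ℝ} (w0 : ∀ j, 0 ≤ w j)
    (w1 : ∑ j, w j = 1) {p : J → V} (hp : ∀ j, 0 < ZZ F (p j)) (i : Fin n) : 0 ≤ del F w p i := by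
  apply Real.log_nonneg
  rw [one_le_div (Finset.prod_pos fun j _ => Real.rpow_pos_of_pos (h.Zi_pos (hp j) i) _)]
  exact h.Zi_conv w0 w1 hp i

theorem del_sum (h : Fam F) {J : Type} [Fintype J] {w : J → ℝ} (w0 : ∀ j, 0 ≤ w j)
    (w1 : ∑ j, w j = 1) {p : J → V} (hp : ∀ j, 0 < ZZ F (p j)) :
    ∑ i, del F w p i = Real.log (ZZ F (∑ j, w j • p j) / ∏ j, ZZ F (p j) ^ w j) := by
  have e : ∏ j, ZZ F (p j) ^ w j = ∏ i, ∏ j, Zi F i (p j) ^ w j := by
    rw [Finset.prod_comm]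
    refine Finset.prod_congr rfl fun j _ => ?_
    unfold ZZ
    rw [Real.finsetProd_rpow _ _ fun i _ => h.Zi_nonneg i _]
  rw [e]
  unfold ZZ del
  rw [← Finset.prod_div_distrib, Real.log_prod]
  intro i _
  exact (div_pos (h.Zi_conv_pos w0 w1 hp i)
    (Finset.prod_pos fun j _ => Real.rpow_pos_of_pos (h.Zi_pos (hp j) i) _)).ne'

theorem med (h : Fam F) {J : Type} [Fintype J] {w : J → ℝ} (w0 : ∀ j, 0 ≤ w j)
    (w1 : ∑ j, w j = 1) {p : J → V} (hp : ∀ j, 0 < ZZ F (p j)) (i : Fin n) :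
    |QQ F i (∑ j, w j • p j) (1 / 2) - ∑ j, w j * QQ F i (p j) (1 / 2)| ≤
      qq F i (∑ j, w j • p j) (1 / 2) / 2 * del F w p i :=
  (h.conf w0 w1 hp i).med

end Fam

end Pool.Agent.Q73.KL
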