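import Pool.Agent.Q73.KL.Tr
import Pool.Agent.Q73.KL.Lim

/-!
# General densities
-/

set_option autoImplicit false
set_option linter.unusedSectionVars false

namespace Pool.Agent.Q73.KL

open MeasureTheory Set Filter Topology
open scoped ENNReal InnerProductSpace
open Pool.Agent.H212R2.KLS (mu)
open Pool.Agent.H888R2.KT (LC)

variable {k n : ℕ}

/-- families of log-concave functions on `ℝ^k × ℝ` -/
structure FamG (F : Fin n → Vk k → ℝ → ℝ) : Prop where
  nonneg : ∀ i t x, 0 ≤ F i t x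
  meas : ∀ i, Measurable (Function.uncurry (F i))
  logc : ∀ i (t s : Vk k) (x y r : ℝ), 0 < r → r < 1 →
    F i t x ^ (1 - r) * F i s y ^ r ≤ F i ((1 - r) • t + r • s) ((1 - r) * x + r * y)

open Classical in
/-- truncation -/
noncomputable def Ft (F : Fin n → Vk k → ℝ → ℝ) (M : ℝ) : Fin n → Vk k → ℝ → ℝ := fun i t x =>
  if ‖t‖ ≤ M ∧ |x| ≤ M then min (F i t x) M else 0

variable {F : Fin n → Vk k → ℝ → ℝ}

theorem Ft_nn (h : FamG F) {M : ℝ} (hM : 0 < M) (i : Fin n) (t : Vk k) (x : ℝ) : 0 ≤ Ft F M i t x := by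
  unfold Ft
  split_ifs
  · exact le_min (h.nonneg i t x) hM.le
  · exact le_rfl

theorem Ft_le (h : FamG F) {M : ℝ} (i : Fin n) (t : Vk k) (x : ℝ) : Ft F M i t x ≤ F i t x := by
  unfold Ft
  split_ifs
  · exact min_le_left _ _
  · exact h.nonneg i t x

theorem Ft_ev (F : Fin n → Vk k → ℝ → ℝ) (i : Fin n) (t : Vk k) (x : ℝ) :
    ∀ᶠ m : ℕ in atTop, Ft F (m + 1) i t x = F i t x := by
  filter_upwards [eventually_ge_atTop (Nat.ceil (‖t‖ + |x| + |F i t x|))] with m hm
  have h1 : ‖t‖ + |x| + |F i t x| ≤ m := Nat.ceil_le.1 hm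
  have h2 := norm_nonneg t
  have h3 := abs_nonneg x
  have h4 := abs_nonneg (F i t x)
  have h5 := le_abs_self (F i t x)
  unfold Ft
  rw [if_pos ⟨by linarith, by linarith⟩, min_eq_left (by linarith)]

theorem Ft_fam (h : FamG F) {M : ℝ} (hM : 0 < M) {c : ℝ} (hc : 0 < c) :
    Fam fun i t x => c * Ft F M i t x where
  nonneg i t x := mul_nonneg hc.le (Ft_nn h hM i t x)
  meas i := by
    have h1 : MeasurableSet {z : Vk k × ℝ | ‖z.1‖ ≤ M ∧ |z.2| ≤ M} := by
      have m1 : MeasurableSet {z : Vk k × ℝ | ‖z.1‖ ≤ M} := measurableSet_le (by fun_prop) measurable_const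
      have m2 : MeasurableSet {z : Vk k × ℝ | |z.2| ≤ M} := measurableSet_le (by fun_prop) measurable_const
      exact m1.inter m2
    have h2 : (Function.uncurry fun t x => c * Ft F M i t x) =
        fun z => c * {z : Vk k × ℝ | ‖z.1‖ ≤ M ∧ |z.2| ≤ M}.indicator
          (fun z => min (Function.uncurry (F i) z) M) z := by
      funext z
      obtain ⟨t, x⟩ := z
      simp only [Function.uncurry_apply_pair, Ft, indicator_apply, mem_ofPred_eq]
    rw [h2]
    exact (((h.meas i).min measurable_const).indicator h1).const_mul c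
  logc i t s x y r r0 r1 := by
    have hr : 0 < 1 - r := by linarith
    have a1 := Ft_nn h hM i t x
    have a2 := Ft_nn h hM i s y
    have e1 : (c * Ft F M i t x) ^ (1 - r) * (c * Ft F M i s y) ^ r =
        c * (Ft F M i t x ^ (1 - r) * Ft F M i s y ^ r) := by
      rw [Real.mul_rpow hc.le a1, Real.mul_rpow hc.le a2]
      have : c ^ (1 - r) * c ^ r = c := by
        rw [← Real.rpow_add hc]; simp
      calc c ^ (1 - r) * Ft F M i t x ^ (1 - r) * (c ^ r * Ft F M i s y ^ r)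
          = (c ^ (1 - r) * c ^ r) * (Ft F M i t x ^ (1 - r) * Ft F M i s y ^ r) := by ring
        _ = _ := by rw [this]
    rw [e1]
    refine mul_le_mul_of_nonneg_left ?_ hc.le
    by_cases hx : ‖t‖ ≤ M ∧ |x| ≤ M
    · by_cases hy : ‖s‖ ≤ M ∧ |y| ≤ M
      · have hz : ‖(1 - r) • t + r • s‖ ≤ M ∧ |(1 - r) * x + r * y| ≤ M := by
          constructor
          · refine (norm_add_le _ _).trans ?_
            rw [norm_smul, norm_smul, Real.norm_of_nonneg hr.le, Real.norm_of_nonneg r0.le]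
            nlinarith [hx.1, hy.1]
          · refine (abs_add_le _ _).trans ?_
            rw [abs_mul, abs_mul, abs_of_pos hr, abs_of_pos r0]
            nlinarith [hx.2, hy.2]
        unfold Ft
        rw [if_pos hx, if_pos hy, if_pos hz]
        have f1 := h.nonneg i t x
        have f2 := h.nonneg i s y
        refine le_min ?_ ?_
        · refine le_trans ?_ (h.logc i t s x y r r0 r1)
          exact mul_le_mul (Real.rpow_le_rpow (le_min f1 hM.le) (min_le_left _ _) hr.le)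
            (Real.rpow_le_rpow (le_min f2 hM.le) (min_le_left _ _) r0.le)
            (Real.rpow_nonneg (le_min f2 hM.le) _) (Real.rpow_nonneg f1 _)
        · calc (min (F i t x) M) ^ (1 - r) * (min (F i s y) M) ^ r ≤ M ^ (1 - r) * M ^ r :=
              mul_le_mul (Real.rpow_le_rpow (le_min f1 hM.le) (min_le_right _ _) hr.le)
                (Real.rpow_le_rpow (le_min f2 hM.le) (min_le_right _ _) r0.le)
                (Real.rpow_nonneg (le_min f2 hM.le) _) (Real.rpow_nonneg hM.le _)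
            _ = M := by rw [← Real.rpow_add hM]; simp
      · have : Ft F M i s y = 0 := by unfold Ft; rw [if_neg hy]
        rw [this, Real.zero_rpow r0.ne', mul_zero]
        exact Ft_nn h hM _ _ _
    · have : Ft F M i t x = 0 := by unfold Ft; rw [if_neg hx]
      rw [this, Real.zero_rpow hr.ne', zero_mul]
      exact Ft_nn h hM _ _ _
  bdd := ⟨c * M, fun i t x => mul_le_mul_of_nonneg_left (by
    unfold Ft
    split_ifs
    · exact min_le_right _ _
    · exact hM.le) hc.le⟩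
  supp := ⟨M, fun i t x hx => by
    by_contra hc
    exact hx (by unfold Ft; rw [if_neg hc, mul_zero])⟩

theorem Fam.den_lc {F : Fin n → Vk k → ℝ → ℝ} (h : Fam F) (x y : Ek k n) (r : ℝ) (r0 : 0 < r)
    (r1 : r < 1) : den F x ^ (1 - r) * den F y ^ r ≤ den F ((1 - r) • x + r • y) := by
  unfold den
  rw [← Real.finsetProd_rpow _ _ fun i _ => h.nonneg _ _ _,
    ← Real.finsetProd_rpow _ _ fun i _ => h.nonneg _ _ _, ← Finset.prod_mul_distrib]
  refine Finset.prod_le_prod (fun i _ => mul_nonneg (Real.rpow_nonneg (h.nonneg _ _ _) _)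
    (Real.rpow_nonneg (h.nonneg _ _ _) _)) fun i _ => ?_
  exact h.logc i _ _ _ _ r r0 r1

theorem den_LC (hn : 0 < n) {F : Fin n → Vk k → ℝ → ℝ} (h : Fam F) (hm : mu (den F) univ = 1) :
    LC (den F) where
  nonneg x := Finset.prod_nonneg fun i _ => h.nonneg _ _ _
  meas := den_meas h.meas
  logc := h.den_lc
  bdd := by
    obtain ⟨R, hR⟩ := h.supp
    refine ⟨Real.sqrt (R ^ 2 + n * R ^ 2), fun x hx => ?_⟩
    by_contra hc
    have h1 : ∀ i, ‖fs x‖ ≤ R ∧ |sn x i| ≤ R := fun i => hR i _ _ fun h0 =>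
      hc (Finset.prod_eq_zero (Finset.mem_univ i) h0)
    have h2 : ‖x‖ ^ 2 ≤ R ^ 2 + n * R ^ 2 := by
      have h3 := norm_jn_sub (k := k) (n := n) (fs x, sn x) (0, 0)
      have e0 : (jn ((0 : Vk k), (0 : Fin n → ℝ)) : Ek k n) = 0 := by
        ext c
        rcases c with j | i <;> rfl
      rw [e0, sub_zero, jn_fs] at h3
      rw [h3]
      simp only [sub_zero, Pi.zero_apply]
      refine add_le_add (pow_le_pow_left₀ (norm_nonneg _) (h1 ⟨0, hn⟩).1 2) ?_
      calc ∑ i, sn x i ^ 2 ≤ ∑ _i : Fin n, R ^ 2 := Finset.sum_le_sum fun i _ => by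
            rw [← sq_abs]; exact pow_le_pow_left₀ (abs_nonneg _) (h1 i).2 2
        _ = n * R ^ 2 := by simp
    exact absurd hx (not_lt.2 (Real.le_sqrt_of_sq_le h2))
  fin := by rw [hm]; exact ENNReal.one_ne_top
  ne h0 := by rw [h0] at hm; simp at hm

theorem apx (h : FamG F) (hm : mu (den F) univ = 1) :
    Apx (den F) fun m : ℕ => den (Ft F (m + 1)) where
  meas := den_meas h.meas
  mass := hm
  rmeas m := by
    have h1 := (Ft_fam h (M := (m : ℝ) + 1) (by positivity) (c := 1) one_pos).meas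
    simp only [one_mul] at h1
    exact den_meas h1
  rnn m x := Finset.prod_nonneg fun i _ => Ft_nn h (by positivity) _ _ _
  le m x := Finset.prod_le_prod (fun i _ => Ft_nn h (by positivity) _ _ _) fun i _ => Ft_le h _ _ _
  lim x := by
    refine tendsto_const_nhds.congr' ?_
    have h1 : ∀ᶠ m : ℕ in atTop, ∀ i, Ft F (m + 1) i (fs x) (sn x i) = F i (fs x) (sn x i) :=
      eventually_all.2 fun i => Ft_ev F i _ _
    filter_upwards [h1] with m hm
    unfold den
    exact (Finset.prod_congr rfl fun i _ => hm i).symm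

/-- the normalised truncation is the density of a bounded family -/
theorem nr_den (hn : 0 < n) (h : FamG F) (m : ℕ) (hm : 0 < Apx.M (fun m : ℕ => den (Ft F (m + 1))) m) :
    ∃ G : Fin n → Vk k → ℝ → ℝ, Fam G ∧ Apx.nr (fun m : ℕ => den (Ft F (m + 1))) m = den G := by
  set M := Apx.M (fun m : ℕ => den (Ft F (m + 1))) m with hM
  set c : ℝ := (M⁻¹) ^ ((1 : ℝ) / n) with hc
  have hc0 : 0 < c := Real.rpow_pos_of_pos (inv_pos.2 hm) _
  have hcn : c ^ n = M⁻¹ := by
    rw [hc, ← Real.rpow_natCast, ← Real.rpow_mul (inv_pos.2 hm).le, one_div, inv_mul_cancel₀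
      (by exact_mod_cast hn.ne'), Real.rpow_one]
  refine ⟨_, Ft_fam h (M := (m : ℝ) + 1) (by positivity) hc0, ?_⟩
  funext x
  have e1 : Apx.nr (fun m : ℕ => den (Ft F (m + 1))) m x = M⁻¹ * den (Ft F (m + 1)) x := rfl
  rw [e1]
  unfold den
  rw [Finset.prod_mul_distrib, Finset.prod_const, Finset.card_univ, Fintype.card_fin, hcn]

/-- the covariance matrix has norm at most `s` -/
def CovLe (μ : Measure (Ek k n)) (s : ℝ) : Prop :=
  ∀ θ : Ek k n, ProbabilityTheory.evariance (fun x => ⟪θ, x⟫_ℝ) μ ≤ ENNReal.ofReal (s * ‖θ‖ ^ 2)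

theorem cov_center {μ : Measure (Ek k n)} [IsProbabilityMeasure μ] {s : ℝ} (h : CovLe μ s) :
    (∀ θ : Ek k n, MemLp (fun x => ⟪θ, x⟫_ℝ) 2 μ) ∧ ∃ c : Ek k n, ∀ θ : Ek k n,
      ∫⁻ x, ENNReal.ofReal (⟪θ, x - c⟫_ℝ ^ 2) ∂μ ≤ ENNReal.ofReal (s * ‖θ‖ ^ 2) := by
  have hL : ∀ θ : Ek k n, MemLp (fun x => ⟪θ, x⟫_ℝ) 2 μ := by
    intro θ
    rw [← ProbabilityTheory.evariance_lt_top_iff_memLp (by fun_prop)]
    exact lt_of_le_of_lt (h θ) ENNReal.ofReal_lt_top
  refine ⟨hL, ?_⟩
  have hi : ∀ c, Integrable (fun x : Ek k n => x c) μ := by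
    intro c
    have := (hL (EuclideanSpace.single c 1)).integrable (by norm_num)
    simpa [EuclideanSpace.inner_single_left] using this
  refine ⟨WithLp.toLp 2 fun c => ∫ x, x c ∂μ, fun θ => le_trans (le_of_eq ?_) (h θ)⟩
  have e1 : ∫ x, ⟪θ, x⟫_ℝ ∂μ = ⟪θ, (WithLp.toLp 2 fun c => ∫ x : Ek k n, x c ∂μ : Ek k n)⟫_ℝ := by
    simp only [PiLp.inner_apply]
    rw [integral_finsetSum _ fun c _ => by
      simpa using (hi c).mul_const (θ c)]
    refine Finset.sum_congr rfl fun c _ => ?_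
    simp only [Real.inner_apply]
    rw [← integral_const_mul]
  unfold ProbabilityTheory.evariance
  refine lintegral_congr fun x => ?_
  rw [e1, ← inner_sub_right, Real.enorm_eq_ofReal_abs, ← ENNReal.ofReal_pow (abs_nonneg _), sq_abs]

/-- Lipschitz functions are square integrable -/
theorem lip_memLp {μ : Measure (Ek k n)} [IsProbabilityMeasure μ]
    (hL : ∀ θ : Ek k n, MemLp (fun x => ⟪θ, x⟫_ℝ) 2 μ) {f : Ek k n → ℝ} (hf : ContDiff ℝ 1 f)
    (hf' : ∀ x, ‖fderiv ℝ f x‖ ≤ 1) : MemLp f 2 μ := by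
  have h1 : Integrable (fun x : Ek k n => ‖x‖ ^ 2) μ := by
    have e : (fun x : Ek k n => ‖x‖ ^ 2) = fun x => ∑ c, ⟪(EuclideanSpace.single c (1:ℝ) : Ek k n), x⟫_ℝ ^ 2 := by
      funext x
      rw [EuclideanSpace.norm_sq_eq]
      refine Finset.sum_congr rfl fun c _ => ?_
      rw [EuclideanSpace.inner_single_left, Real.norm_eq_abs, sq_abs]
      simp
    rw [e]
    exact integrable_finsetSum _ fun c _ => (hL _).integrable_sq
  rw [memLp_two_iff_integrable_sq hf.continuous.aestronglyMeasurable]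
  refine Integrable.mono' ((integrable_const (2 * f 0 ^ 2)).add (h1.const_mul 2))
    (hf.continuous.pow 2).aestronglyMeasurable (Eventually.of_forall fun x => ?_)
  rw [Real.norm_of_nonneg (sq_nonneg _)]
  have h2 := lip_of' hf hf' x 0
  rw [sub_zero] at h2
  have h3 : (f x - f 0) ^ 2 ≤ ‖x‖ ^ 2 := by
    rw [← sq_abs]
    exact pow_le_pow_left₀ (abs_nonneg _) h2 2
  simp only [Pi.add_apply]
  nlinarith [sq_nonneg (f x - 2 * f 0)]

/-- **general densities** -/
theorem genA (hn : 0 < n) (h : FamG F) (hmass : mu (den F) univ = 1) {s : ℝ} (hs : 0 < s)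
    (hcov : CovLe (mu (den F)) s) {f : Ek k n → ℝ} (hf : ContDiff ℝ 1 f) :
    ((∀ x, ‖fderiv ℝ f x‖ ≤ 1) → MemLp f 2 (mu (den F)) ∧
      ProbabilityTheory.variance f (mu (den F)) ≤ 2 ^ 51 * 48 ^ k * s) ∧
    ((∀ x, |f x| ≤ 1) → ENNReal.ofReal (ProbabilityTheory.variance f (mu (den F)) ^ 2) ≤
      ENNReal.ofReal (8 * (2 ^ 51 * 48 ^ k * s)) *
        ∫⁻ x, ENNReal.ofReal (‖fderiv ℝ f x‖ ^ 2) ∂(mu (den F))) := by
  have hp : IsProbabilityMeasure (mu (den F)) := ⟨hmass⟩
  obtain ⟨hL, c, hc⟩ := cov_center hcov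
  have hA := apx h hmass
  have key : ∀ᶠ m in atTop, ∀ f : Ek k n → ℝ, ContDiff ℝ 1 f → (∀ x, ‖fderiv ℝ f x‖ ≤ 1) →
      ∫ x, f x ^ 2 ∂(mu (Apx.nr (fun m : ℕ => den (Ft F (m + 1))) m)) -
        (∫ x, f x ∂(mu (Apx.nr (fun m : ℕ => den (Ft F (m + 1))) m))) ^ 2 ≤
        (2 ^ 51 * 48 ^ k * s) * (Apx.M (fun m : ℕ => den (Ft F (m + 1))) m)⁻¹ := by
    filter_upwards [hA.ev_pos] with m hm f hf hf'
    obtain ⟨G, hG, hGe⟩ := nr_den hn h m hm
    have hmi := inv_pos.2 hm
    have hGm : mu (den G) univ = 1 := by rw [← hGe]; exact hA.nr_mass m hm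
    have hpG : IsProbabilityMeasure (mu (den G)) := ⟨hGm⟩
    have h1 : ∀ θ : Ek k n, ∫⁻ x, ENNReal.ofReal (⟪θ, x - c⟫_ℝ ^ 2) ∂(mu (den G)) ≤
        ENNReal.ofReal ((s * (Apx.M (fun m : ℕ => den (Ft F (m + 1))) m)⁻¹) * ‖θ‖ ^ 2) := by
      intro θ
      rw [← hGe]
      refine (hA.nr_le m hm (by fun_prop)).trans ?_
      refine (mul_le_mul' le_rfl (hc θ)).trans (le_of_eq ?_)
      rw [← ENNReal.ofReal_mul hmi.le]
      congr 1
      ring
    obtain ⟨a, ha⟩ := core' hG hn hGm (mul_nonneg hs.le hmi.le) c h1 hf hf'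
    rw [hGe]
    have h2 := (var_of_lint hf.continuous.measurable (by positivity) ha).2
    refine h2.trans (le_of_eq ?_)
    ring
  refine ⟨fun hf' => ?_, fun hb => ?_⟩
  · have hLf := lip_memLp hL hf hf'
    refine ⟨hLf, hA.lip_lim hf.continuous.measurable hLf ?_⟩
    filter_upwards [key] with m hm using hm f hf hf'
  · refine hA.bdd_lim (by positivity) ?_ key hf hb
    filter_upwards [hA.ev_pos] with m hm
    obtain ⟨G, hG, hGe⟩ := nr_den hn h m hm
    have hGm : mu (den G) univ = 1 := by rw [← hGe]; exact hA.nr_mass m hm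
    rw [hGe]
    exact den_LC hn hG hGm

end Pool.Agent.Q73.KL
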