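import Mathlib

/-!
# Hardy inequality on the unit interval
-/

set_option autoImplicit false

namespace Pool.Agent.Q73.KL

open MeasureTheory Set Filter Topology
open scoped ENNReal

theorem hardy_eps {h h' : ℝ → ℝ} (hd : ∀ u ∈ Ioo (0 : ℝ) 1, HasDerivAt h (h' u) u)
    (hc : ContinuousOn h' (Ioo 0 1)) (h0 : h (1 / 2) = 0) {ε : ℝ} (e0 : 0 < ε) (e1 : ε < 1 / 2) :
    ∫⁻ u in Ioo ε (1 / 2), ENNReal.ofReal (h u ^ 2) ≤
      4 * ∫⁻ u in Ioo ε (1 / 2), ENNReal.ofReal ((u * h' u) ^ 2) := by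
  have hsub : Icc ε (1 / 2) ⊆ Ioo (0 : ℝ) 1 := fun u hu =>
    ⟨lt_of_lt_of_le e0 hu.1, lt_of_le_of_lt hu.2 (by norm_num)⟩
  have hcont : ContinuousOn h (Icc ε (1 / 2)) := fun u hu =>
    (hd u (hsub hu)).continuousAt.continuousWithinAt
  have hcont' : ContinuousOn h' (Icc ε (1 / 2)) := hc.mono hsub
  have c1 : ContinuousOn (fun u => h u ^ 2) (Icc ε (1 / 2)) := hcont.pow 2
  have c2 : ContinuousOn (fun u => (u * h' u) ^ 2) (Icc ε (1 / 2)) :=
    (continuousOn_id.mul hcont').pow 2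
  have c3 : ContinuousOn (fun u => h u ^ 2 + u * (2 * h u * h' u)) (Icc ε (1 / 2)) :=
    c1.add (continuousOn_id.mul ((continuousOn_const.mul hcont).mul hcont'))
  have hle : ε ≤ 1 / 2 := e1.le
  have k1 : ∫ u in ε..(1 / 2), (h u ^ 2 + u * (2 * h u * h' u)) = -(ε * h ε ^ 2) := by
    have := intervalIntegral.integral_eq_sub_of_hasDerivAt (f := fun u => u * h u ^ 2)
      (f' := fun u => h u ^ 2 + u * (2 * h u * h' u)) (a := ε) (b := 1 / 2) (fun u hu => by
        rw [uIcc_of_le hle] at hu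
        have h1 := (hasDerivAt_id u).mul ((hd u (hsub hu)).pow 2)
        refine h1.congr_deriv ?_
        simp) (c3.intervalIntegrable_of_Icc hle)
    rw [this, h0]
    simp
  have k2 : ∫ u in ε..(1 / 2), ((1 / 2) * h u ^ 2 - 2 * (u * h' u) ^ 2) ≤
      ∫ u in ε..(1 / 2), (h u ^ 2 + u * (2 * h u * h' u)) := by
    refine intervalIntegral.integral_mono_on hle ?_ (c3.intervalIntegrable_of_Icc hle)
      fun u hu => ?_
    · exact ((continuousOn_const.mul c1).sub (continuousOn_const.mul c2)).intervalIntegrable_of_Icc hle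
    · nlinarith [sq_nonneg (h u + 2 * (u * h' u))]
  have k3 : ∫ u in ε..(1 / 2), ((1 / 2) * h u ^ 2 - 2 * (u * h' u) ^ 2) =
      (1 / 2) * (∫ u in ε..(1 / 2), h u ^ 2) - 2 * ∫ u in ε..(1 / 2), (u * h' u) ^ 2 := by
    rw [intervalIntegral.integral_sub, intervalIntegral.integral_const_mul,
      intervalIntegral.integral_const_mul]
    · exact (continuousOn_const.mul c1).intervalIntegrable_of_Icc hle
    · exact (continuousOn_const.mul c2).intervalIntegrable_of_Icc hle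
  have k4 : (∫ u in ε..(1 / 2), h u ^ 2) ≤ 4 * ∫ u in ε..(1 / 2), (u * h' u) ^ 2 := by
    have : 0 ≤ ε * h ε ^ 2 := by positivity
    linarith
  have conv : ∀ g : ℝ → ℝ, ContinuousOn g (Icc ε (1 / 2)) → (∀ u, 0 ≤ g u) →
      ∫⁻ u in Ioo ε (1 / 2), ENNReal.ofReal (g u) = ENNReal.ofReal (∫ u in ε..(1 / 2), g u) := by
    intro g hg hg0
    rw [intervalIntegral.integral_of_le hle, integral_Ioc_eq_integral_Ioo,
      ofReal_integral_eq_lintegral_ofReal]
    · exact (hg.integrableOn_Icc).mono_set Ioo_subset_Icc_self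
    · exact Eventually.of_forall hg0
  rw [conv _ c1 fun u => sq_nonneg _, conv _ c2 fun u => sq_nonneg _]
  refine (ENNReal.ofReal_le_ofReal k4).trans (le_of_eq ?_)
  rw [ENNReal.ofReal_mul (by norm_num)]
  norm_num

theorem hardy_half {h h' : ℝ → ℝ} (hd : ∀ u ∈ Ioo (0 : ℝ) 1, HasDerivAt h (h' u) u)
    (hc : ContinuousOn h' (Ioo 0 1)) (h0 : h (1 / 2) = 0) :
    ∫⁻ u in Ioo (0 : ℝ) (1 / 2), ENNReal.ofReal (h u ^ 2) ≤
      4 * ∫⁻ u in Ioo (0 : ℝ) (1 / 2), ENNReal.ofReal ((u * h' u) ^ 2) := by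
  have hU : Ioo (0 : ℝ) (1 / 2) = ⋃ n : ℕ, Ioo (1 / ((n : ℝ) + 3)) (1 / 2) := by
    ext u
    simp only [mem_iUnion, mem_Ioo]
    constructor
    · intro hu
      obtain ⟨n, hn⟩ := exists_nat_one_div_lt hu.1
      refine ⟨n, ?_, hu.2⟩
      refine lt_trans ?_ hn
      exact one_div_lt_one_div_of_lt (by positivity) (by linarith)
    · rintro ⟨n, h1, h2⟩
      exact ⟨lt_trans (by positivity) h1, h2⟩
  rw [hU, setLIntegral_iUnion_of_directed]
  · refine iSup_le fun n => ?_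
    rw [← hU]
    refine (hardy_eps hd hc h0 (by positivity) ?_).trans ?_
    · rw [div_lt_div_iff₀ (by positivity) (by norm_num)]
      have : (0:ℝ) ≤ n := Nat.cast_nonneg n
      linarith
    · refine mul_le_mul' le_rfl (lintegral_mono_set fun u hu => ?_)
      exact ⟨lt_trans (by positivity) hu.1, hu.2⟩
  · apply Monotone.directed_le
    intro n m hnm u hu
    refine ⟨lt_of_le_of_lt ?_ hu.1, hu.2⟩
    have : (n : ℝ) ≤ m := by exact_mod_cast hnm
    apply one_div_le_one_div_of_le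
    · positivity
    · linarith

theorem hardy {h h' : ℝ → ℝ} (hd : ∀ u ∈ Ioo (0 : ℝ) 1, HasDerivAt h (h' u) u)
    (hc : ContinuousOn h' (Ioo 0 1)) :
    ∫⁻ u in Ioo (0 : ℝ) 1, ENNReal.ofReal ((h u - h (1 / 2)) ^ 2) ≤
      4 * ∫⁻ u in Ioo (0 : ℝ) 1, ENNReal.ofReal ((min u (1 - u) * h' u) ^ 2) := by
  have a1 := hardy_half (h := fun u => h u - h (1 / 2)) (h' := h') (fun u hu => (hd u hu).sub_const _) hc
    (sub_self _)
  have hmem : ∀ u ∈ Ioo (0:ℝ) 1, 1 - u ∈ Ioo (0:ℝ) 1 := fun u hu => ⟨by linarith [hu.2], by linarith [hu.1]⟩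
  have a2 := hardy_half (h := fun u => h (1 - u) - h (1 / 2)) (h' := fun u => - h' (1 - u))
    (fun u hu => by
      have h1 : HasDerivAt (fun u : ℝ => 1 - u) (-1) u := by
        simpa using (hasDerivAt_id u).const_sub 1
      have := (HasDerivAt.comp (h₂ := h) u (hd _ (hmem u hu)) h1).sub_const (h (1 / 2))
      refine this.congr_deriv ?_
      ring) (by
      refine ContinuousOn.neg (hc.comp (by fun_prop) hmem)) (by norm_num)
  have refl : ∀ g : ℝ → ℝ≥0∞, ∫⁻ u in Ioo (0:ℝ) (1/2), g (1 - u) = ∫⁻ u in Ioo (1/2:ℝ) 1, g u := by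
    intro g
    have := (Measure.measurePreserving_sub_left (volume : Measure ℝ) 1).setLIntegral_comp_preimage_emb
      (MeasurableEquiv.subLeft (1:ℝ)).measurableEmbedding g (Ioo (1/2:ℝ) 1)
    rw [← this]
    congr 2
    ext u
    simp only [mem_Ioo, mem_preimage]
    constructor
    · intro h; constructor <;> linarith [h.1, h.2]
    · intro h; constructor <;> linarith [h.1, h.2]
  have split : ∀ g : ℝ → ℝ≥0∞, ∫⁻ u in Ioo (0:ℝ) 1, g u =
      (∫⁻ u in Ioo (0:ℝ) (1/2), g u) + ∫⁻ u in Ioo (1/2:ℝ) 1, g u := by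
    intro g
    have h1 : Ioo (0:ℝ) 1 =ᵐ[volume] (Ioo (0:ℝ) (1/2) ∪ Ioo (1/2:ℝ) 1 : Set ℝ) := by
      have h2 : Ioo (0:ℝ) 1 = Ioc (0:ℝ) (1/2) ∪ Ioo (1/2:ℝ) 1 :=
        (Ioc_union_Ioo_eq_Ioo (by norm_num) (by norm_num)).symm
      rw [h2]
      exact (Ioo_ae_eq_Ioc.symm).union (ae_eq_refl _)
    rw [setLIntegral_congr h1, lintegral_union measurableSet_Ioo]
    rw [Set.disjoint_left]
    intro u hu hu'
    exact absurd hu.2 (not_lt.2 hu'.1.le)
  have r2 := refl fun u => ENNReal.ofReal ((h u - h (1 / 2)) ^ 2)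
  have r3 := refl fun u => ENNReal.ofReal (((1 - u) * h' u) ^ 2)
  have r4 : ∫⁻ u in Ioo (0:ℝ) (1/2), ENNReal.ofReal ((u * -h' (1 - u)) ^ 2) =
      ∫⁻ u in Ioo (0:ℝ) (1/2), ENNReal.ofReal (((1 - (1 - u)) * h' (1 - u)) ^ 2) := by
    refine lintegral_congr fun u => ?_
    congr 1; ring
  rw [r2, r4, r3] at a2
  rw [split, split (fun u => ENNReal.ofReal ((min u (1 - u) * h' u) ^ 2)), mul_add]
  refine add_le_add (a1.trans (le_of_eq ?_)) (a2.trans (le_of_eq ?_))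
  · congr 1
    refine setLIntegral_congr_fun measurableSet_Ioo fun u hu => ?_
    rw [min_eq_left (by linarith [hu.2])]
  · congr 1
    refine setLIntegral_congr_fun measurableSet_Ioo fun u hu => ?_
    rw [min_eq_right (by linarith [hu.1])]

end Pool.Agent.Q73.KL
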