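import Mathlib

/-!
# Log-concave functions on the line: quantiles
-/

set_option autoImplicit false

namespace Pool.Agent.Q73.KL

open MeasureTheory Set Filter Topology
open scoped ENNReal

/-- integrable log-concave functions on the line -/
structure LC1 (F : ℝ → ℝ) : Prop where
  nonneg : ∀ x, 0 ≤ F x
  meas : Measurable F
  logc : ∀ x y t : ℝ, 0 < t → t < 1 → F x ^ (1 - t) * F y ^ t ≤ F ((1 - t) * x + t * y)
  int : Integrable F
  pos : 0 < ∫ x, F x

/-- distribution function, not normalised -/
noncomputable def Gf (F : ℝ → ℝ) (x : ℝ) : ℝ := ∫ y in Iic x, F y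

namespace LC1

variable {F : ℝ → ℝ}

theorem split {a t : ℝ} (ha : 0 ≤ a) (t0 : 0 < t) (t1 : t < 1) : a ^ (1 - t) * a ^ t = a := by
  rw [← Real.rpow_add_of_nonneg ha (by linarith) t0.le]
  simp

theorem four (h : LC1 F) {y x m : ℝ} (h1 : y ≤ x) (h2 : x ≤ m) :
    F y * F m ≤ F x * F (y + (m - x)) := by
  rcases h1.eq_or_lt with rfl | h1
  · have : y + (m - y) = m := by ring
    rw [this]
  rcases h2.eq_or_lt with rfl | h2
  · simp [mul_comm]
  have hd : 0 < m - y := by linarith
  set t := (x - y) / (m - y) with ht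
  have t0 : 0 < t := div_pos (by linarith) hd
  have t1 : t < 1 := by rw [div_lt_one hd]; linarith
  have e1 : (1 - t) * y + t * m = x := by rw [ht]; field_simp; ring
  have e2 : (1 - (1 - t)) * y + (1 - t) * m = y + (m - x) := by rw [ht]; field_simp; ring
  have k1 := h.logc y m t t0 t1
  have k2 := h.logc y m (1 - t) (by linarith) (by linarith)
  rw [e1] at k1
  rw [e2] at k2
  calc F y * F m = (F y ^ (1 - t) * F y ^ t) * (F m ^ (1 - t) * F m ^ t) := by
        rw [split (h.nonneg y) t0 t1, split (h.nonneg m) t0 t1]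
    _ = (F y ^ (1 - t) * F m ^ t) * (F y ^ (1 - (1 - t)) * F m ^ (1 - t)) := by
        rw [show 1 - (1 - t) = t by ring]; ring
    _ ≤ F x * F (y + (m - x)) := mul_le_mul k1 k2
        (mul_nonneg (Real.rpow_nonneg (h.nonneg _) _) (Real.rpow_nonneg (h.nonneg _) _))
        (h.nonneg _)

theorem G_nonneg (h : LC1 F) (x : ℝ) : 0 ≤ Gf F x := integral_nonneg fun y => h.nonneg y

theorem G_mono (h : LC1 F) : Monotone (Gf F) := by
  intro x y hxy
  exact setIntegral_mono_set h.int.integrableOn (Eventually.of_forall fun y => h.nonneg y)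
    (Eventually.of_forall (Iic_subset_Iic.2 hxy))

/-- the ratio `F / G` is nonincreasing -/
theorem ratio (h : LC1 F) {x m : ℝ} (hx : x ≤ m) : Gf F x * F m ≤ F x * Gf F m := by
  have e1 : Gf F m = ∫ y in Iic x, F (y + (m - x)) := by
    have := (measurePreserving_add_right (volume : Measure ℝ) (m - x)).setIntegral_preimage_emb
      (measurableEmbedding_addRight (m - x)) F (Iic m)
    unfold Gf
    rw [← this]
    congr 1
    ext y
    simp only [Set.preimage_add_const_Iic]
    ring_nf
  have i1 : Integrable fun y => F (y + (m - x)) := h.int.comp_add_right (m - x)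
  rw [e1]
  unfold Gf
  rw [← integral_mul_const, ← integral_const_mul]
  refine setIntegral_mono_on (h.int.mul_const _).integrableOn (i1.const_mul _).integrableOn
    measurableSet_Iic fun y hy => h.four hy hx

theorem G_sub (h : LC1 F) (x y : ℝ) : Gf F y - Gf F x = ∫ z in x..y, F z :=
  intervalIntegral.integral_Iic_sub_Iic h.int.integrableOn h.int.integrableOn

theorem G_cont (h : LC1 F) : Continuous (Gf F) := by
  have : Gf F = fun y => Gf F 0 + ∫ z in (0:ℝ)..y, F z := by
    ext y
    rw [← h.G_sub]; ring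
  rw [this]
  exact continuous_const.add (intervalIntegral.continuous_primitive (fun a b =>
    h.int.intervalIntegrable) 0)

theorem G_meas (h : LC1 F) (x : ℝ) :
    volume.withDensity (fun y => ENNReal.ofReal (F y)) (Iic x) = ENNReal.ofReal (Gf F x) := by
  rw [withDensity_apply _ measurableSet_Iic, Gf,
    ofReal_integral_eq_lintegral_ofReal h.int.integrableOn
      (Eventually.of_forall fun y => h.nonneg y)]

theorem fin (h : LC1 F) : volume.withDensity (fun y => ENNReal.ofReal (F y)) univ =
    ENNReal.ofReal (∫ x, F x) := by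
  rw [withDensity_apply _ MeasurableSet.univ, Measure.restrict_univ,
    ofReal_integral_eq_lintegral_ofReal h.int (Eventually.of_forall fun y => h.nonneg y)]

theorem G_top (h : LC1 F) : Tendsto (Gf F) atTop (𝓝 (∫ x, F x)) := by
  have h1 := tendsto_measure_Iic_atTop (volume.withDensity (fun y => ENNReal.ofReal (F y)))
  rw [h.fin] at h1
  have h2 := (ENNReal.tendsto_toReal ENNReal.ofReal_ne_top).comp h1
  rw [ENNReal.toReal_ofReal h.pos.le] at h2
  refine h2.congr fun x => ?_
  simp only [Function.comp]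
  rw [h.G_meas, ENNReal.toReal_ofReal (h.G_nonneg x)]

theorem G_bot : Tendsto (Gf F) atBot (𝓝 0) :=
  tendsto_integral_Iic_zero tendsto_id

theorem G_le (h : LC1 F) (x : ℝ) : Gf F x ≤ ∫ x, F x :=
  setIntegral_le_integral h.int (Eventually.of_forall fun y => h.nonneg y)

/-- the interior of the support -/
def Us (F : ℝ → ℝ) : Set ℝ := {x | 0 < Gf F x ∧ Gf F x < ∫ x, F x}

theorem U_open (h : LC1 F) : IsOpen (Us F) :=
  (isOpen_lt continuous_const h.G_cont).inter (isOpen_lt h.G_cont continuous_const)

theorem U_conv (h : LC1 F) : Convex ℝ (Us F) := by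
  have : OrdConnected (Us F) := by
    refine ⟨fun x hx y hy z hz => ⟨lt_of_lt_of_le hx.1 (h.G_mono hz.1),
      lt_of_le_of_lt (h.G_mono hz.2) hy.2⟩⟩
  exact this.convex

theorem pos_of (h : LC1 F) {x y z : ℝ} (hx : 0 < F x) (hy : 0 < F y) (h1 : x ≤ z) (h2 : z ≤ y) :
    0 < F z := by
  have := h.four h1 h2
  have h3 : 0 < F z * F (x + (y - z)) := lt_of_lt_of_le (mul_pos hx hy) this
  rcases (h.nonneg z).eq_or_lt with h4 | h4
  · rw [← h4, zero_mul] at h3
    exact absurd h3 (lt_irrefl 0)
  · exact h4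

theorem F_pos (h : LC1 F) {x : ℝ} (hx : x ∈ Us F) : 0 < F x := by
  have h1 : ∃ y, y ≤ x ∧ 0 < F y := by
    by_contra hc
    push Not at hc
    have : Gf F x = 0 := by
      unfold Gf
      refine setIntegral_eq_zero_of_forall_eq_zero fun y hy => ?_
      exact le_antisymm (hc y hy) (h.nonneg y)
    exact hx.1.ne' this
  have h2 : ∃ y, x ≤ y ∧ 0 < F y := by
    by_contra hc
    push Not at hc
    have h3 : ∀ y ∈ Ioi x, F y = 0 := fun y hy => le_antisymm (hc y (le_of_lt hy)) (h.nonneg y)
    have h4 := intervalIntegral.integral_Iic_add_Ioi (b := x) h.int.integrableOn h.int.integrableOn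
    rw [setIntegral_eq_zero_of_forall_eq_zero h3, add_zero] at h4
    exact hx.2.ne h4
  obtain ⟨a, ha, ha'⟩ := h1
  obtain ⟨b, hb, hb'⟩ := h2
  exact h.pos_of ha' hb' ha hb

theorem F_cont (h : LC1 F) : ContinuousOn F (Us F) := by
  have hc : ConcaveOn ℝ (Us F) fun x => Real.log (F x) := by
    refine ⟨h.U_conv, fun x hx y hy a b ha hb hab => ?_⟩
    rcases ha.eq_or_lt with ha' | ha'
    · rw [← ha'] at hab ⊢
      have : b = 1 := by linarith
      rw [this]; simp
    rcases hb.eq_or_lt with hb' | hb'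
    · rw [← hb'] at hab ⊢
      have : a = 1 := by linarith
      rw [this]; simp
    have ea : a = 1 - b := by linarith
    have h1 := h.logc x y b hb' (by linarith)
    have hx0 := h.F_pos hx
    have hy0 := h.F_pos hy
    simp only [smul_eq_mul]
    rw [ea] at *
    have h2 := Real.log_le_log (mul_pos (Real.rpow_pos_of_pos hx0 _) (Real.rpow_pos_of_pos hy0 _)) h1
    rw [Real.log_mul (Real.rpow_pos_of_pos hx0 _).ne' (Real.rpow_pos_of_pos hy0 _).ne',
      Real.log_rpow hx0, Real.log_rpow hy0] at h2
    exact h2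
  have h1 := hc.continuousOn h.U_open
  have h2 : ContinuousOn (fun x => Real.exp (Real.log (F x))) (Us F) :=
    Real.continuous_exp.comp_continuousOn h1
  exact h2.congr fun x hx => (Real.exp_log (h.F_pos hx)).symm

theorem G_deriv (h : LC1 F) {x : ℝ} (hx : x ∈ Us F) : HasDerivAt (Gf F) (F x) x := by
  have h1 : ContinuousAt F x := h.F_cont.continuousAt (h.U_open.mem_nhds hx)
  have h2 := intervalIntegral.integral_hasDerivAt_right (a := 0) (b := x)
    (h.int.intervalIntegrable) (h.meas.stronglyMeasurable.stronglyMeasurableAtFilter) h1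
  have : Gf F = fun y => Gf F 0 + ∫ z in (0:ℝ)..y, F z := by
    ext y
    rw [← h.G_sub]; ring
  rw [this]
  exact h2.const_add _

theorem G_strict (h : LC1 F) : StrictMonoOn (Gf F) (Us F) := by
  apply strictMonoOn_of_deriv_pos h.U_conv h.G_cont.continuousOn
  intro x hx
  rw [h.U_open.interior_eq] at hx
  rw [(h.G_deriv hx).deriv]
  exact h.F_pos hx

end LC1

end Pool.Agent.Q73.KL
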