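import Pool.Agent.Q73.KL.Shift

/-!
# The shift of the medians is close to a subspace of small dimension
-/

set_option autoImplicit false
set_option linter.unusedSectionVars false

namespace Pool.Agent.Q73.KL

open MeasureTheory Set Filter Topology
open scoped ENNReal

variable {V : Type} [NormedAddCommGroup V] [NormedSpace ℝ V] [MeasurableSpace V] [BorelSpace V]
  [FiniteDimensional ℝ V]

namespace Bp

variable {n : ℕ} {F : Fin n → V → ℝ → ℝ} {o : V}

theorem supp_bdd (h : Fam F) (hn : 0 < n) : ∃ R, ∀ t, 0 < ZZ F t → ‖t‖ ≤ R := by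
  obtain ⟨R, hR⟩ := h.supp
  refine ⟨R, fun t ht => ?_⟩
  have h1 := h.Zi_pos ht ⟨0, hn⟩
  by_contra hc
  push Not at hc
  have h2 : ∀ x, F ⟨0, hn⟩ t x = 0 := by
    intro x
    by_contra h3
    exact absurd (hR _ t x h3).1 (not_le.2 hc)
  unfold Zi at h1
  simp only [h2, integral_zero] at h1
  exact lt_irrefl _ h1

theorem y1_sq {Y : ℝ} (hY : - Real.log 2 ≤ Y) : (max 1 Y) ^ 2 ≤ 4 * Real.exp (3 / 4 * Y) := by
  rcases le_total Y 1 with h | h
  · rw [max_eq_left h]
    have h1 : (1/2 : ℝ) ≤ Real.exp (3 / 4 * Y) := by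
      have h2 : Real.exp (-Real.log 2) = 1 / 2 := by rw [Real.exp_neg, Real.exp_log (by norm_num)]; norm_num
      rw [← h2]
      apply Real.exp_le_exp.2
      have := Real.log_nonneg (by norm_num : (1:ℝ) ≤ 2)
      linarith
    linarith
  · rw [max_eq_right h]
    have h1 := Real.quadratic_le_exp_of_nonneg (by linarith : 0 ≤ 3 / 4 * Y)
    nlinarith

theorem exists_s (h : Bp F o) (hn : 0 < n) (ν : Measure V) [ν.IsAddHaarMeasure]
    (hmass : ∫⁻ t, ENNReal.ofReal (ZZ F t) ∂ν ≠ 0) :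
    ∃ s : Fin (Module.finrank ℝ V) → V, (∀ j, 0 < ZZ F (s j)) ∧ (∀ j, YY F o (s j) ≤ 1) ∧
      ∀ t, 0 < ZZ F t → ∃ β : Fin (Module.finrank ℝ V) → ℝ,
        t - o = ∑ j, β j • (s j - o) ∧ ∀ j, |β j| ≤ 2 * max 1 (YY F o t) := by
  set A : Set V := {v | 0 < ZZ F (o + v) ∧ YY F o (o + v) ≤ 1} with hA
  have hAb : Bornology.IsBounded A := by
    obtain ⟨R, hR⟩ := supp_bdd h.fam hn
    rw [isBounded_iff_forall_norm_le]
    refine ⟨R + ‖o‖, fun v hv => ?_⟩
    have h1 := hR _ hv.1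
    calc ‖v‖ = ‖(o + v) - o‖ := by congr 1; abel
      _ ≤ ‖o + v‖ + ‖o‖ := norm_sub_le _ _
      _ ≤ _ := by linarith
  -- small multiples
  have hsmall : ∀ t, 0 < ZZ F t → ∀ r : ℝ, 0 < r → r ≤ 1 → r * YY F o t ≤ 1 → r • (t - o) ∈ A := by
    intro t ht r r0 r1 hr
    rcases r1.eq_or_lt with r1 | r1
    · subst r1
      rw [one_smul]
      refine ⟨?_, ?_⟩
      · rw [add_sub_cancel]; exact ht
      · rw [add_sub_cancel]; linarith
    · have e : o + r • (t - o) = (1 - r) • o + r • t := by module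
      refine ⟨?_, ?_⟩
      · rw [e]; exact h.two_pos h.pos ht r0 r1
      · rw [e]
        have := h.Y_conv (w0 r0 r1) w1 (pp h.pos ht)
        simp only [Fin.sum_univ_two, Matrix.cons_val_zero, Matrix.cons_val_one, h.Y_o] at this
        linarith
  have hspan : ⊤ ≤ Submodule.span ℝ A := by
    by_contra hc
    have hne : Submodule.span ℝ A ≠ ⊤ := fun h' => hc (by rw [h'])
    have h0 : ν (Submodule.span ℝ A : Set V) = 0 := Measure.addHaar_submodule ν _ hne
    have h1 : {t | 0 < ZZ F t} ⊆ (fun v => v - o) ⁻¹' (Submodule.span ℝ A : Set V) := by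
      intro t ht
      have ht' : 0 < ZZ F t := ht
      set r : ℝ := 1 / (1 + |YY F o t|) with hr
      have hpos : 0 < 1 + |YY F o t| := by positivity
      have r0 : 0 < r := by positivity
      have r1 : r ≤ 1 := by rw [hr, div_le_one hpos]; linarith [abs_nonneg (YY F o t)]
      have h2 := hsmall t ht' r r0 r1 (by
        rw [hr, div_mul_eq_mul_div, one_mul, div_le_one hpos]
        linarith [le_abs_self (YY F o t)])
      have h3 : (r⁻¹) • (r • (t - o)) ∈ Submodule.span ℝ A :=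
        Submodule.smul_mem _ _ (Submodule.subset_span h2)
      rw [smul_smul, inv_mul_cancel₀ r0.ne', one_smul] at h3
      exact h3
    have h2 : ν ((fun v => v - o) ⁻¹' (Submodule.span ℝ A : Set V)) = 0 := by
      have : (fun v => v - o) = fun v => v + -o := by ext v; exact sub_eq_add_neg v o
      rw [this, measure_preimage_add_right]
      exact h0
    have h3 : ν {t | 0 < ZZ F t} = 0 := measure_mono_null h1 h2
    apply hmass
    rw [← nonpos_iff_eq_zero]
    calc ∫⁻ t, ENNReal.ofReal (ZZ F t) ∂ν = ∫⁻ t, 0 ∂ν := by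
          refine lintegral_congr_ae ?_
          rw [Filter.EventuallyEq, ae_iff]
          refine measure_mono_null (fun t ht => ?_) h3
          by_contra hc2
          apply ht
          have : ¬ (0 < ZZ F t) := hc2
          simp only [ENNReal.ofReal_eq_zero]
          exact not_lt.1 this
      _ ≤ 0 := by simp
  obtain ⟨s, hs, hs2⟩ := exists_basis_bdd A hAb hspan
  refine ⟨fun j => o + s j, fun j => (hs j).1, fun j => (hs j).2, fun t ht => ?_⟩
  set y := max 1 (YY F o t) with hy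
  have hy1 : 1 ≤ y := le_max_left _ _
  have hy0 : 0 < y := by linarith
  have h2 := hsmall t ht y⁻¹ (inv_pos.2 hy0) (inv_le_one_of_one_le₀ hy1) (by
    rw [inv_mul_le_iff₀ hy0, mul_one]
    exact le_max_right _ _)
  obtain ⟨β, hβ, hβ2⟩ := hs2 _ h2
  refine ⟨fun j => y * β j, ?_, fun j => ?_⟩
  · have : t - o = y • (y⁻¹ • (t - o)) := by
      rw [smul_smul, mul_inv_cancel₀ hy0.ne', one_smul]
    rw [this, hβ2, Finset.smul_sum]
    refine Finset.sum_congr rfl fun j _ => ?_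
    rw [smul_smul, add_sub_cancel_left]
  · rw [abs_mul, abs_of_pos hy0]
    nlinarith [hβ j]

/-- distance of the shift of the medians to a fixed subspace -/
theorem near (h : Bp F o) (hn : 0 < n) (ν : Measure V) [ν.IsAddHaarMeasure]
    (hmass : ∫⁻ t, ENNReal.ofReal (ZZ F t) ∂ν ≠ 0) {W : ℝ}
    (hW : ∀ i, qq F i o (1 / 2) ≤ W) (hW0 : 0 ≤ W) :
    ∃ s : Fin (Module.finrank ℝ V) → V, ∀ t, 0 < ZZ F t → ∃ β : Fin (Module.finrank ℝ V) → ℝ,
      ∑ i, (cc F o t i - ∑ j, β j * cc F o (s j) i) ^ 2 ≤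
        2 ^ 24 * ((Module.finrank ℝ V : ℝ) + 1) ^ 2 * W ^ 2 * Real.exp (3 / 4 * YY F o t) := by
  obtain ⟨s, hs, hs1, hs2⟩ := h.exists_s hn ν hmass
  refine ⟨s, fun t ht => ?_⟩
  obtain ⟨β, hβ, hβ2⟩ := hs2 t ht
  refine ⟨β, (h.shift ht hs hs1 hβ hW hW0).trans ?_⟩
  set k : ℝ := (Module.finrank ℝ V : ℝ) with hk
  have hk0 : 0 ≤ k := Nat.cast_nonneg _
  set y := max 1 (YY F o t) with hy
  have hy1 : 1 ≤ y := le_max_left _ _
  have h1 : ∑ j, |β j| ≤ k * (2 * y) := by
    calc ∑ j, |β j| ≤ ∑ _j : Fin (Module.finrank ℝ V), 2 * y := Finset.sum_le_sum fun j _ => hβ2 j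
      _ = k * (2 * y) := by simp [hk]
  have h2 : max (YY F o t) 0 ≤ y := max_le (le_max_right _ _) (by linarith)
  have h3 : 4 * (1 + ∑ j, |β j|) + max (YY F o t) 0 ≤ 8 * (k + 1) * y := by nlinarith
  have h4 : 0 ≤ 4 * (1 + ∑ j, |β j|) + max (YY F o t) 0 := by
    have : 0 ≤ ∑ j, |β j| := Finset.sum_nonneg fun j _ => abs_nonneg _
    have := le_max_right (YY F o t) 0
    linarith
  have h5 := y1_sq (h.Y_ge ht)
  calc (256 * W * (4 * (1 + ∑ j, |β j|) + max (YY F o t) 0)) ^ 2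
      ≤ (256 * W * (8 * (k + 1) * y)) ^ 2 := by
        refine pow_le_pow_left₀ (mul_nonneg (by positivity) h4) ?_ 2
        exact mul_le_mul_of_nonneg_left h3 (by positivity)
    _ = 2 ^ 22 * (k + 1) ^ 2 * W ^ 2 * y ^ 2 := by ring
    _ ≤ 2 ^ 22 * (k + 1) ^ 2 * W ^ 2 * (4 * Real.exp (3 / 4 * YY F o t)) :=
        mul_le_mul_of_nonneg_left h5 (by positivity)
    _ = _ := by ring

end Bp

end Pool.Agent.Q73.KL
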