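import Pool.Agent.Q73.KL.Core

/-!
# Variance of Lipschitz functions, conclusion
-/

set_option autoImplicit false
set_option linter.unusedSectionVars false

namespace Pool.Agent.Q73.KL

open MeasureTheory Set Filter Topology
open scoped ENNReal InnerProductSpace
open Pool.Agent.Q188.NC (int_bdd sq_int_le var_prod)

variable {V : Type} [NormedAddCommGroup V] [InnerProductSpace ℝ V] [FiniteDimensional ℝ V]
  [MeasurableSpace V] [BorelSpace V]

theorem int_eval {n : ℕ} (i : Fin n) {φ : ℝ → ℝ} (hφ : Measurable φ) :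
    ∫ u : Fin n → ℝ, φ (u i) ∂(Uc n) = ∫ v, φ v ∂I01 := by
  have hmp := measurePreserving_eval (fun _ : Fin n => I01) i
  have := integral_map (μ := Uc n) (φ := Function.eval i) hmp.measurable.aemeasurable
    (f := φ) (by unfold Uc; rw [hmp.map_eq]; exact hφ.aestronglyMeasurable)
  unfold Uc at this ⊢
  rw [hmp.map_eq] at this
  exact this.symm

namespace Bp

variable {n : ℕ} {F : Fin n → V → ℝ → ℝ} {o : V}

theorem point (h : Bp F o) {W : ℝ} (hW : ∀ i, qq F i o (1 / 2) ≤ W)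
    {G : V × (Fin n → ℝ) → ℝ} (hG : Tf G) (tc : V) (c : EuclideanSpace ℝ (Fin n)) {t : V}
    (ht : 0 < ZZ F t) {B : ℝ} (hB : ∑ i, ∫ v, (QQ F i t v - QQ F i o v - c i) ^ 2 ∂I01 ≤ B) :
    ∫⁻ u, ENNReal.ofReal ((G (t, Qv F t u) - ∫ u, G (tc, Qv F o u + c) ∂(Uc n)) ^ 2) ∂(Uc n) ≤
      ENNReal.ofReal (2 * ‖t - tc‖ ^ 2 + 2 * B + 2 * W ^ 2) := by
  obtain ⟨R, hR0, hR⟩ := h.fam.QQ_bdd
  obtain ⟨⟨M1, hM1⟩, -⟩ := h.fam.poin (W := ∑ i, |qq F i t (1 / 2)|) ht (fun i => (le_abs_self _).trans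
    (Finset.single_le_sum (f := fun i => |qq F i t (1 / 2)|) (fun i _ => abs_nonneg _)
      (Finset.mem_univ i))) hG t 0
  obtain ⟨⟨M2, hM2⟩, hP⟩ := h.fam.poin h.pos hW hG tc c
  set A := ∫ u, G (tc, Qv F o u + c) ∂(Uc n) with hA
  have mt := h.fam.Qv_meas ht
  have mo := h.fam.Qv_meas h.pos
  have mG1 : Measurable fun u => G (t, Qv F t u) := hG.cont.measurable.comp (measurable_const.prodMk mt)
  have mG2 : Measurable fun u => G (tc, Qv F o u + c) :=
    hG.cont.measurable.comp (measurable_const.prodMk (mo.add_const _))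
  have hM1' : ∀ u, |G (t, Qv F t u)| ≤ M1 := fun u => by
    have := hM1 u
    rwa [add_zero] at this
  have mi : ∀ i, Measurable fun v => (QQ F i t v - QQ F i o v - c i) ^ 2 := fun i =>
    (((h.fam.qd (h.fam.Zi_pos ht i)).meas.sub (h.fam.qd (h.fam.Zi_pos h.pos i)).meas).sub_const _).pow_const 2
  have bi : ∀ i v, |(QQ F i t v - QQ F i o v - c i) ^ 2| ≤ (R + R + |c i|) ^ 2 := fun i v =>
    sq_bd ((abs_sub _ _).trans (add_le_add ((abs_sub _ _).trans
      (add_le_add (hR t ht i v) (hR o h.pos i v))) le_rfl))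
  have ii : ∀ i, Integrable (fun u : Fin n → ℝ => (QQ F i t (u i) - QQ F i o (u i) - c i) ^ 2) (Uc n) :=
    fun i => int_bdd ((mi i).comp (measurable_pi_apply i)) (fun u => bi i (u i))
  have i2 : Integrable (fun u => (G (tc, Qv F o u + c) - A) ^ 2) (Uc n) :=
    int_bdd ((mG2.sub_const _).pow_const 2) (M := (M2 + |A|) ^ 2) fun u =>
      sq_bd ((abs_sub _ _).trans (add_le_add (hM2 u) le_rfl))
  have b1 : ∀ u, |(G (t, Qv F t u) - A) ^ 2| ≤ (M1 + |A|) ^ 2 := fun u =>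
      sq_bd ((abs_sub _ _).trans (add_le_add (hM1' u) le_rfl))
  rw [lint_real ((mG1.sub_const _).pow_const 2) (fun u => sq_nonneg _) b1]
  refine ENNReal.ofReal_le_ofReal ?_
  have h1 : ∀ u, (G (t, Qv F t u) - A) ^ 2 ≤
      (2 * ‖t - tc‖ ^ 2 + 2 * ∑ i, (QQ F i t (u i) - QQ F i o (u i) - c i) ^ 2) +
        2 * (G (tc, Qv F o u + c) - A) ^ 2 := by
    intro u
    have k1 := hG.lip (t, Qv F t u) (tc, Qv F o u + c)
    have k2 : ∑ i, (Qv F t u i - (Qv F o u + (c : Fin n → ℝ)) i) ^ 2 =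
        ∑ i, (QQ F i t (u i) - QQ F i o (u i) - c i) ^ 2 := by
      refine Finset.sum_congr rfl fun i _ => ?_
      simp only [Qv, Pi.add_apply]
      ring
    simp only at k1
    rw [k2] at k1
    nlinarith [sq_nonneg ((G (t, Qv F t u) - G (tc, Qv F o u + c)) - (G (tc, Qv F o u + c) - A))]
  have i3 : Integrable (fun u : Fin n → ℝ => ∑ i, (QQ F i t (u i) - QQ F i o (u i) - c i) ^ 2) (Uc n) :=
    integrable_finsetSum _ fun i _ => ii i
  have i4 : Integrable (fun u : Fin n → ℝ => 2 * ‖t - tc‖ ^ 2 +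
      2 * ∑ i, (QQ F i t (u i) - QQ F i o (u i) - c i) ^ 2) (Uc n) :=
    (integrable_const _).add (i3.const_mul 2)
  have i5 : Integrable (fun u => 2 * (G (tc, Qv F o u + c) - A) ^ 2) (Uc n) := i2.const_mul 2
  calc ∫ u, (G (t, Qv F t u) - A) ^ 2 ∂(Uc n)
      ≤ ∫ u, ((2 * ‖t - tc‖ ^ 2 + 2 * ∑ i, (QQ F i t (u i) - QQ F i o (u i) - c i) ^ 2) +
        2 * (G (tc, Qv F o u + c) - A) ^ 2) ∂(Uc n) :=
        integral_mono_of_nonneg (Eventually.of_forall fun u => sq_nonneg _) (i4.add i5)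
          (Eventually.of_forall h1)
    _ = (2 * ‖t - tc‖ ^ 2 + 2 * ∑ i, ∫ v, (QQ F i t v - QQ F i o v - c i) ^ 2 ∂I01) +
        2 * ∫ u, (G (tc, Qv F o u + c) - A) ^ 2 ∂(Uc n) := by
        have e1 : ∫ u, 2 * (G (tc, Qv F o u + c) - A) ^ 2 ∂(Uc n) =
            2 * ∫ u, (G (tc, Qv F o u + c) - A) ^ 2 ∂(Uc n) := integral_const_mul _ _
        have e2 : ∫ u : Fin n → ℝ, 2 * ∑ i, (QQ F i t (u i) - QQ F i o (u i) - c i) ^ 2 ∂(Uc n) =
            2 * ∑ i, ∫ v, (QQ F i t v - QQ F i o v - c i) ^ 2 ∂I01 := by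
          rw [integral_const_mul, integral_finsetSum _ fun i _ => ii i]
          congr 1
          exact Finset.sum_congr rfl fun i _ => int_eval i (mi i)
        rw [integral_add i4 i5, integral_add (integrable_const _) (i3.const_mul 2), e1, e2]
        simp only [integral_const, probReal_univ, smul_eq_mul, one_mul]
    _ ≤ _ := by linarith

end Bp

theorem sum_sq_inner (v : V) : ∑ j, ⟪stdOrthonormalBasis ℝ V j, v⟫_ℝ ^ 2 = ‖v‖ ^ 2 := by
  rw [← (stdOrthonormalBasis ℝ V).sum_sq_norm_inner_right v]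
  exact Finset.sum_congr rfl fun j _ => by rw [Real.norm_eq_abs, sq_abs]

theorem pow_bound (k : ℕ) : (4 : ℝ) * k + 2 ^ 50 * (k + 1) ^ 2 * 12 ^ k + 2 ^ 23 * 3 ^ k ≤
    2 ^ 51 * 48 ^ k := by
  have h1 : ((k : ℝ) + 1) ≤ 2 ^ k := by
    have := one_add_mul_le_pow (show (-2 : ℝ) ≤ 1 by norm_num) k
    norm_num at this
    linarith
  have h2 : ((k : ℝ) + 1) ^ 2 ≤ 4 ^ k := by
    calc ((k : ℝ) + 1) ^ 2 ≤ (2 ^ k) ^ 2 := pow_le_pow_left₀ (by positivity) h1 2
      _ = 4 ^ k := by rw [← pow_mul, mul_comm, pow_mul]; norm_num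
  have h3 : ((k : ℝ) + 1) ^ 2 * 12 ^ k ≤ 48 ^ k := by
    calc ((k : ℝ) + 1) ^ 2 * 12 ^ k ≤ 4 ^ k * 12 ^ k := by gcongr
      _ = 48 ^ k := by rw [← mul_pow]; norm_num
  have h4 : (3 : ℝ) ^ k ≤ 48 ^ k := pow_le_pow_left₀ (by norm_num) (by norm_num) k
  have h5 : (2 : ℝ) ^ k ≤ 48 ^ k := pow_le_pow_left₀ (by norm_num) (by norm_num) k
  nlinarith

/-- **main estimate** -/
theorem core {n : ℕ} {F : Fin n → V → ℝ → ℝ} (h : Fam F) (hn : 0 < n) (ν : Measure V)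
    [ν.IsAddHaarMeasure] (hmass : ∫⁻ t, ENNReal.ofReal (ZZ F t) ∂ν = 1) {s : ℝ} (hs0 : 0 ≤ s)
    (tc : V) (a : EuclideanSpace ℝ (Fin n))
    (hT : ∀ θ : V, ∫⁻ z, ENNReal.ofReal (⟪θ, z.1 - tc⟫_ℝ ^ 2) ∂(muF F ν) ≤
      ENNReal.ofReal (s * ‖θ‖ ^ 2))
    (hX : ∀ e : EuclideanSpace ℝ (Fin n), ∫⁻ z, ENNReal.ofReal ((∑ i, e i * (z.2 i - a i)) ^ 2)
      ∂(muF F ν) ≤ ENNReal.ofReal (s * ‖e‖ ^ 2))
    {G : V × (Fin n → ℝ) → ℝ} (hG : Tf G) :
    ∃ A : ℝ, ∫⁻ z, ENNReal.ofReal ((G z - A) ^ 2) ∂(muF F ν) ≤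
      ENNReal.ofReal (2 ^ 51 * 48 ^ Module.finrank ℝ V * s) := by
  have hmass0 : ∫⁻ t, ENNReal.ofReal (ZZ F t) ∂ν ≠ 0 := by rw [hmass]; exact one_ne_zero
  obtain ⟨o, ho⟩ := h.exists_bp ν hmass0
  set k := Module.finrank ℝ V with hk
  set W := Real.sqrt (2 ^ 22 * 3 ^ k * s) with hWdef
  have hW0 : 0 ≤ W := Real.sqrt_nonneg _
  have hW2 : W ^ 2 = 2 ^ 22 * 3 ^ k * s := Real.sq_sqrt (by positivity)
  have hW : ∀ i, qq F i o (1 / 2) ≤ W := by
    intro i
    have h1 := hX (EuclideanSpace.single i 1)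
    have h2 : ∀ z : V × (Fin n → ℝ), (∑ j, (EuclideanSpace.single i (1:ℝ) : EuclideanSpace ℝ (Fin n)) j *
        (z.2 j - a j)) = z.2 i - a i := by
      intro z
      rw [Finset.sum_eq_single i]
      · simp
      · intro j _ hj
        simp [hj]
      · intro hi
        exact absurd (Finset.mem_univ i) hi
    simp only [h2] at h1
    rw [show ‖(EuclideanSpace.single i (1:ℝ) : EuclideanSpace ℝ (Fin n))‖ = 1 by simp] at h1
    simp only [one_pow, mul_one] at h1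
    exact Real.le_sqrt_of_sq_le (ho.W_bd ν hmass i (a i) hs0 h1)
  obtain ⟨m, e, hm, he, c, hc⟩ := ho.vec hn ν hmass0 hW hW0 a
  refine ⟨∫ u, G (tc, Qv F o u + c) ∂(Uc n), ?_⟩
  set A := ∫ u, G (tc, Qv F o u + c) ∂(Uc n) with hA
  set K := 2 ^ 27 * ((k : ℝ) + 1) ^ 2 * W ^ 2 with hK
  have hK0 : 0 ≤ K := by positivity
  have mG : Measurable fun z => ENNReal.ofReal ((G z - A) ^ 2) :=
    ((hG.cont.measurable.sub_const _).pow_const 2).ennreal_ofReal
  rw [h.dis ν mG]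
  -- measurability in `t`
  have mY : Measurable fun t => Real.exp (3 / 4 * YY F o t) := by
    have : Measurable (YY F o) := by
      unfold YY
      exact Real.measurable_log.comp (measurable_const.div h.ZZ_meas')
    fun_prop
  have mZ := h.ZZ_meas'
  have mam := h.am_meas'
  -- pointwise bound
  have hpt : ∀ t, ENNReal.ofReal (ZZ F t) * ∫⁻ u, ENNReal.ofReal ((G (t, Qv F t u) - A) ^ 2) ∂(Uc n) ≤
      ENNReal.ofReal 2 * ∑ j, ENNReal.ofReal (ZZ F t) * ENNReal.ofReal (⟪stdOrthonormalBasis ℝ V j, t - tc⟫_ℝ ^ 2) +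
      (ENNReal.ofReal 2 * ∑ j, ENNReal.ofReal (ZZ F t) * ENNReal.ofReal (⟪e j, am F t - a⟫_ℝ ^ 2) +
      (ENNReal.ofReal (2 * K) * ENNReal.ofReal (ZZ F t * Real.exp (3 / 4 * YY F o t)) +
        ENNReal.ofReal (2 * W ^ 2) * ENNReal.ofReal (ZZ F t))) := by
    intro t
    rcases (h.ZZ_nonneg t).eq_or_lt with h0 | ht
    · rw [← h0]; simp
    have h1 := ho.point hW hG tc c ht (hc t ht)
    refine (mul_le_mul' le_rfl h1).trans (le_of_eq ?_)
    rw [← Finset.mul_sum, ← Finset.mul_sum, ← ENNReal.ofReal_sum_of_nonneg fun j _ => sq_nonneg _,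
      ← ENNReal.ofReal_sum_of_nonneg fun j _ => sq_nonneg _, sum_sq_inner]
    have hZ := ht.le
    have hsum : 0 ≤ ∑ j, ⟪e j, am F t - a⟫_ℝ ^ 2 := Finset.sum_nonneg fun j _ => sq_nonneg _
    have hexp := (Real.exp_pos (3 / 4 * YY F o t)).le
    rw [← ENNReal.ofReal_mul hZ, ← ENNReal.ofReal_mul hZ, ← ENNReal.ofReal_mul hZ,
      ← ENNReal.ofReal_mul (by norm_num), ← ENNReal.ofReal_mul (by norm_num),
      ← ENNReal.ofReal_mul (by positivity), ← ENNReal.ofReal_mul (by positivity),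
      ← ENNReal.ofReal_add (by positivity) (by positivity),
      ← ENNReal.ofReal_add (by positivity) (by positivity),
      ← ENNReal.ofReal_add (by positivity) (by positivity)]
    congr 1
    rw [hK]
    ring
  refine (lintegral_mono hpt).trans ?_
  have m1 : Measurable fun t => ENNReal.ofReal 2 * ∑ j, ENNReal.ofReal (ZZ F t) *
      ENNReal.ofReal (⟪stdOrthonormalBasis ℝ V j, t - tc⟫_ℝ ^ 2) := by fun_prop
  have m2 : Measurable fun t => ENNReal.ofReal 2 * ∑ j, ENNReal.ofReal (ZZ F t) *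
      ENNReal.ofReal (⟪e j, am F t - a⟫_ℝ ^ 2) := by fun_prop
  have m3 : Measurable fun t => ENNReal.ofReal (2 * K) *
      ENNReal.ofReal (ZZ F t * Real.exp (3 / 4 * YY F o t)) := by fun_prop
  rw [lintegral_add_left m1, lintegral_add_left m2, lintegral_add_left m3,
    lintegral_const_mul' _ _ ENNReal.ofReal_ne_top, lintegral_const_mul' _ _ ENNReal.ofReal_ne_top,
    lintegral_const_mul' _ _ ENNReal.ofReal_ne_top, lintegral_const_mul' _ _ ENNReal.ofReal_ne_top,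
    lintegral_finsetSum _ (fun j _ => by fun_prop), lintegral_finsetSum _ (fun j _ => by fun_prop), hmass]
  -- the four terms
  have t1 : ∀ j, ∫⁻ t, ENNReal.ofReal (ZZ F t) *
      ENNReal.ofReal (⟪stdOrthonormalBasis ℝ V j, t - tc⟫_ℝ ^ 2) ∂ν ≤ ENNReal.ofReal s := by
    intro j
    have h1 := hT (stdOrthonormalBasis ℝ V j)
    rw [(stdOrthonormalBasis ℝ V).orthonormal.1 j, one_pow, mul_one, h.dis ν (by fun_prop)] at h1
    simpa using h1
  have t2 : ∀ j, ∫⁻ t, ENNReal.ofReal (ZZ F t) * ENNReal.ofReal (⟪e j, am F t - a⟫_ℝ ^ 2) ∂ν ≤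
      ENNReal.ofReal s := by
    intro j
    have h1 := h.avg ν (e j) a (hX (e j))
    rwa [he j, one_pow, mul_one] at h1
  have t3 : ∫⁻ t, ENNReal.ofReal (ZZ F t * Real.exp (3 / 4 * YY F o t)) ∂ν ≤
      ENNReal.ofReal (4 ^ k) := by
    have := ho.scale1 ν
    rwa [hmass, mul_one] at this
  have s1 : ∑ j, ∫⁻ t, ENNReal.ofReal (ZZ F t) *
      ENNReal.ofReal (⟪stdOrthonormalBasis ℝ V j, t - tc⟫_ℝ ^ 2) ∂ν ≤ ENNReal.ofReal (k * s) := by
    refine (Finset.sum_le_sum fun j _ => t1 j).trans (le_of_eq ?_)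
    rw [Finset.sum_const, Finset.card_univ, Fintype.card_fin, nsmul_eq_mul,
      ENNReal.ofReal_mul (by positivity), ENNReal.ofReal_natCast]
  have s2 : ∑ j, ∫⁻ t, ENNReal.ofReal (ZZ F t) * ENNReal.ofReal (⟪e j, am F t - a⟫_ℝ ^ 2) ∂ν ≤
      ENNReal.ofReal (k * s) := by
    refine (Finset.sum_le_sum fun j _ => t2 j).trans ?_
    rw [Finset.sum_const, Finset.card_univ, Fintype.card_fin, nsmul_eq_mul,
      ENNReal.ofReal_mul (by positivity), ENNReal.ofReal_natCast]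
    gcongr
  calc _ ≤ ENNReal.ofReal 2 * ENNReal.ofReal (k * s) + (ENNReal.ofReal 2 * ENNReal.ofReal (k * s) +
        (ENNReal.ofReal (2 * K) * ENNReal.ofReal (4 ^ k) + ENNReal.ofReal (2 * W ^ 2) * 1)) := by
        exact add_le_add (mul_le_mul' le_rfl s1) (add_le_add (mul_le_mul' le_rfl s2)
          (add_le_add (mul_le_mul' le_rfl t3) le_rfl))
    _ = ENNReal.ofReal (2 * (k * s) + (2 * (k * s) + (2 * K * 4 ^ k + 2 * W ^ 2))) := by
        rw [mul_one, ← ENNReal.ofReal_mul (by norm_num), ← ENNReal.ofReal_mul (by positivity),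
          ← ENNReal.ofReal_add (by positivity) (by positivity),
          ← ENNReal.ofReal_add (by positivity) (by positivity),
          ← ENNReal.ofReal_add (by positivity) (by positivity)]
    _ ≤ _ := by
        refine ENNReal.ofReal_le_ofReal ?_
        have h12 : (3 : ℝ) ^ k * 4 ^ k = 12 ^ k := by rw [← mul_pow]; norm_num
        have e1 : 2 * (k * s) + (2 * (k * s) + (2 * K * 4 ^ k + 2 * W ^ 2)) =
            (4 * k + 2 ^ 50 * (k + 1) ^ 2 * (3 ^ k * 4 ^ k) + 2 ^ 23 * 3 ^ k) * s := by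
          rw [hK, hW2]; ring
        rw [e1, h12]
        exact mul_le_mul_of_nonneg_right (pow_bound k) hs0

end Pool.Agent.Q73.KL
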