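import Mathlib

/-!
# Projection to the span of few vectors
-/

set_option autoImplicit false

namespace Pool.Agent.Q73.KL

open Set
open scoped InnerProductSpace

theorem proj {H : Type} [NormedAddCommGroup H] [InnerProductSpace ℝ H] [FiniteDimensional ℝ H]
    {k : ℕ} (p : Fin k → H) : ∃ (m : ℕ) (e : Fin m → H), m ≤ k ∧ (∀ j, ‖e j‖ = 1) ∧
      ∀ w : H, ∃ c : H, ∀ (v : H) (β : Fin k → ℝ),
        ‖v - c‖ ^ 2 ≤ ∑ j, ⟪e j, v - w⟫_ℝ ^ 2 + ‖v - ∑ j, β j • p j‖ ^ 2 := by
  set E : Submodule ℝ H := Submodule.span ℝ (range p) with hE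
  let b := stdOrthonormalBasis ℝ E
  refine ⟨Module.finrank ℝ E, fun j => (b j : H), ?_, fun j => ?_, fun w => ?_⟩
  · have := finrank_range_le_card (R := ℝ) p
    rw [Fintype.card_fin] at this
    exact this
  · exact b.orthonormal.1 j
  · refine ⟨E.starProjection w, fun v β => ?_⟩
    have hmem : ∑ j, β j • p j ∈ E := Submodule.sum_mem _ fun j _ =>
      Submodule.smul_mem _ _ (Submodule.subset_span (mem_range_self j))
    have h1 : ‖v - E.starProjection w‖ ^ 2 =
        ‖v - E.starProjection v‖ ^ 2 + ‖E.starProjection (v - w)‖ ^ 2 := by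
      have h2 : ⟪v - E.starProjection v, E.starProjection (v - w)⟫_ℝ = 0 :=
        Submodule.starProjection_inner_eq_zero v _ (Submodule.starProjection_apply_mem _ _)
      have h3 := norm_add_sq_eq_norm_sq_add_norm_sq_of_inner_eq_zero _ _ h2
      rw [map_sub] at h3
      rw [map_sub]
      have h4 : v - E.starProjection v + (E.starProjection v - E.starProjection w) =
          v - E.starProjection w := by abel
      rw [h4] at h3
      simpa only [sq] using h3
    have h2 : ‖v - E.starProjection v‖ ^ 2 ≤ ‖v - ∑ j, β j • p j‖ ^ 2 := by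
      have h3 : ⟪v - E.starProjection v, E.starProjection v - ∑ j, β j • p j⟫_ℝ = 0 :=
        Submodule.starProjection_inner_eq_zero v _
          (Submodule.sub_mem _ (Submodule.starProjection_apply_mem _ _) hmem)
      have h4 := norm_add_sq_eq_norm_sq_add_norm_sq_of_inner_eq_zero _ _ h3
      rw [sub_add_sub_cancel] at h4
      nlinarith [mul_self_nonneg ‖E.starProjection v - ∑ j, β j • p j‖]
    have h3 : ‖E.starProjection (v - w)‖ ^ 2 = ∑ j, ⟪(b j : H), v - w⟫_ℝ ^ 2 := by
      have h4 := b.sum_sq_norm_inner_right ⟨E.starProjection (v - w), Submodule.starProjection_apply_mem _ _⟩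
      rw [Submodule.coe_norm] at h4
      rw [← h4]
      refine Finset.sum_congr rfl fun j _ => ?_
      rw [Real.norm_eq_abs, sq_abs, Submodule.coe_inner]
      congr 1
      have h5 : ⟪(v - w) - E.starProjection (v - w), (b j : H)⟫_ℝ = 0 :=
        Submodule.starProjection_inner_eq_zero _ _ (b j).2
      rw [inner_sub_left, sub_eq_zero] at h5
      rw [real_inner_comm, ← h5, real_inner_comm]
    rw [h1, h3]
    linarith

end Pool.Agent.Q73.KL
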