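import Pool.Agent.Q73.KL.Poin
import Pool.Agent.Q73.KL.Proj

/-!
# Conditional means
-/

set_option autoImplicit false
set_option linter.unusedSectionVars false

namespace Pool.Agent.Q73.KL

open MeasureTheory Set Filter Topology
open scoped ENNReal InnerProductSpace
open Pool.Agent.Q188.NC (int_bdd sq_int_le var_prod)

variable {V : Type} [NormedAddCommGroup V] [InnerProductSpace ℝ V] [FiniteDimensional ℝ V]
  [MeasurableSpace V] [BorelSpace V]

/-- conditional mean -/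
noncomputable def am {n : ℕ} (F : Fin n → V → ℝ → ℝ) (t : V) : EuclideanSpace ℝ (Fin n) :=
  WithLp.toLp 2 fun i => (∫ x, x * F i t x) / Zi F i t

theorem Fam.am_eq {n : ℕ} {F : Fin n → V → ℝ → ℝ} (h : Fam F) {t : V} (ht : 0 < ZZ F t) (i : Fin n) :
    am F t i = ∫ v, QQ F i t v ∂I01 := by
  have hq := h.qd (h.Zi_pos ht i)
  have h1 : ∫ x, x * F i t x = ∫ x, x ∂((volume : Measure ℝ).withDensity
      fun x => ENNReal.ofReal (F i t x)) := by
    rw [integral_withDensity_eq_integral_toReal_smul (h.meas1 i t).ennreal_ofReal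
      (Eventually.of_forall fun x => ENNReal.ofReal_lt_top)]
    refine integral_congr_ae (Eventually.of_forall fun x => ?_)
    simp only [smul_eq_mul]
    rw [ENNReal.toReal_ofReal (h.nonneg i t x), mul_comm]
  show (∫ x, x * F i t x) / Zi F i t = _
  rw [h1, hq.dens_eq, integral_smul_measure, integral_map hq.meas.aemeasurable
    (by fun_prop), ENNReal.toReal_ofReal hq.Zpos.le, smul_eq_mul, mul_div_cancel_left₀ _ hq.Zpos.ne']

theorem Fam.am_meas {n : ℕ} {F : Fin n → V → ℝ → ℝ} (h : Fam F) (i : Fin n) :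
    Measurable fun t => am F t i := by
  have h1 : StronglyMeasurable (fun z : V × ℝ => z.2 * F i z.1 z.2) :=
    (measurable_snd.mul (h.meas i)).stronglyMeasurable
  have h2 := h1.integral_prod_right' (ν := (volume : Measure ℝ))
  exact h2.measurable.div (h.ZZ_meas i)

theorem Fam.am_meas' {n : ℕ} {F : Fin n → V → ℝ → ℝ} (h : Fam F) : Measurable (am F) := by
  have h1 : Measurable fun t => (fun i => am F t i) := measurable_pi_lambda _ fun i => h.am_meas i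
  exact (MeasurableEquiv.toLp 2 (Fin n → ℝ)).measurable.comp h1

namespace Bp

variable {n : ℕ} {F : Fin n → V → ℝ → ℝ} {o : V}

theorem coord (h : Bp F o) {t : V} (ht : 0 < ZZ F t) (i : Fin n) (c : ℝ) :
    ∫ v, (QQ F i t v - QQ F i o v - c) ^ 2 ∂I01 ≤
      ∫ v, (QQ F i t v - QQ F i o v - cc F o t i) ^ 2 ∂I01 + (am F t i - am F o i - c) ^ 2 := by
  obtain ⟨R, hR0, hR⟩ := h.fam.QQ_bdd
  have m1 := (h.fam.qd (h.fam.Zi_pos ht i)).meas
  have m2 := (h.fam.qd (h.fam.Zi_pos h.pos i)).meas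
  have hm : Measurable fun v => QQ F i t v - QQ F i o v := m1.sub m2
  have hb : ∀ v, |QQ F i t v - QQ F i o v| ≤ R + R := fun v =>
    (abs_sub _ _).trans (add_le_add (hR t ht i v) (hR o h.pos i v))
  have h1 := var_c (μ := I01) hm hb c
  have h2 := var_le_c (μ := I01) hm hb (cc F o t i)
  have h3 : ∫ v, (QQ F i t v - QQ F i o v) ∂I01 = am F t i - am F o i := by
    rw [integral_sub (int_bdd m1 (hR t ht i)) (int_bdd m2 (hR o h.pos i)), h.fam.am_eq ht,
      h.fam.am_eq h.pos]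
  rw [h3] at h1 h2
  linarith

theorem coord' (h : Bp F o) {t : V} (ht : 0 < ZZ F t) (i : Fin n) :
    (am F t i - am F o i - cc F o t i) ^ 2 ≤
      ∫ v, (QQ F i t v - QQ F i o v - cc F o t i) ^ 2 ∂I01 := by
  obtain ⟨R, hR0, hR⟩ := h.fam.QQ_bdd
  have m1 := (h.fam.qd (h.fam.Zi_pos ht i)).meas
  have m2 := (h.fam.qd (h.fam.Zi_pos h.pos i)).meas
  have hm : Measurable fun v => QQ F i t v - QQ F i o v := m1.sub m2
  have hb : ∀ v, |QQ F i t v - QQ F i o v| ≤ R + R := fun v =>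
    (abs_sub _ _).trans (add_le_add (hR t ht i v) (hR o h.pos i v))
  have h1 := var_c (μ := I01) hm hb (cc F o t i)
  have h3 : ∫ v, (QQ F i t v - QQ F i o v) ∂I01 = am F t i - am F o i := by
    rw [integral_sub (int_bdd m1 (hR t ht i)) (int_bdd m2 (hR o h.pos i)), h.fam.am_eq ht,
      h.fam.am_eq h.pos]
  rw [h3] at h1
  have h4 : 0 ≤ ∫ v, (QQ F i t v - QQ F i o v - (am F t i - am F o i)) ^ 2 ∂I01 :=
    integral_nonneg fun v => sq_nonneg _
  linarith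

theorem shape' (h : Bp F o) {t : V} (ht : 0 < ZZ F t) {W : ℝ} (hW : ∀ i, qq F i o (1 / 2) ≤ W) :
    ∑ i, ∫ v, (QQ F i t v - QQ F i o v - cc F o t i) ^ 2 ∂I01 ≤
      2 ^ 20 * W ^ 2 * Real.exp (3 / 4 * YY F o t) := by
  obtain ⟨R, hR0, hR⟩ := h.fam.QQ_bdd
  have h1 := h.shape ht hW
  have h2 : ∀ i, ∫⁻ u in Ioo (0:ℝ) 1, ENNReal.ofReal (((QQ F i t u - QQ F i o u) -
      (QQ F i t (1 / 2) - QQ F i o (1 / 2))) ^ 2) =
      ENNReal.ofReal (∫ v, (QQ F i t v - QQ F i o v - cc F o t i) ^ 2 ∂I01) := by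
    intro i
    have m1 := (h.fam.qd (h.fam.Zi_pos ht i)).meas
    have m2 := (h.fam.qd (h.fam.Zi_pos h.pos i)).meas
    have hm : Measurable fun v => (QQ F i t v - QQ F i o v - cc F o t i) ^ 2 :=
      ((m1.sub m2).sub_const _).pow_const 2
    have hb : ∀ v, |(QQ F i t v - QQ F i o v - cc F o t i) ^ 2| ≤ (R + R + |cc F o t i|) ^ 2 := fun v =>
      sq_bd ((abs_sub _ _).trans (add_le_add ((abs_sub _ _).trans
        (add_le_add (hR t ht i v) (hR o h.pos i v))) le_rfl))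
    exact lint_real (μ := I01) hm (fun v => sq_nonneg _) hb
  simp only [h2] at h1
  rw [← ENNReal.ofReal_sum_of_nonneg fun i _ => integral_nonneg fun v => sq_nonneg _] at h1
  exact (ENNReal.ofReal_le_ofReal_iff (by positivity)).1 h1

theorem vec (h : Bp F o) (hn : 0 < n) (ν : Measure V) [ν.IsAddHaarMeasure]
    (hmass : ∫⁻ t, ENNReal.ofReal (ZZ F t) ∂ν ≠ 0) {W : ℝ}
    (hW : ∀ i, qq F i o (1 / 2) ≤ W) (hW0 : 0 ≤ W) (a : EuclideanSpace ℝ (Fin n)) :
    ∃ (m : ℕ) (e : Fin m → EuclideanSpace ℝ (Fin n)), m ≤ Module.finrank ℝ V ∧ (∀ j, ‖e j‖ = 1) ∧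
      ∃ c : EuclideanSpace ℝ (Fin n), ∀ t, 0 < ZZ F t →
        ∑ i, ∫ v, (QQ F i t v - QQ F i o v - c i) ^ 2 ∂I01 ≤
          ∑ j, ⟪e j, am F t - a⟫_ℝ ^ 2 +
            2 ^ 27 * ((Module.finrank ℝ V : ℝ) + 1) ^ 2 * W ^ 2 * Real.exp (3 / 4 * YY F o t) := by
  obtain ⟨s, hs⟩ := h.near hn ν hmass hW hW0
  obtain ⟨m, e, hm, he, hp⟩ := proj (fun j => (WithLp.toLp 2 (cc F o (s j)) : EuclideanSpace ℝ (Fin n)))
  obtain ⟨c, hc⟩ := hp (a - am F o)
  refine ⟨m, e, hm, he, c, fun t ht => ?_⟩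
  obtain ⟨β, hβ⟩ := hs t ht
  have h1 := hc (am F t - am F o) β
  have h2 : ∑ i, ∫ v, (QQ F i t v - QQ F i o v - c i) ^ 2 ∂I01 ≤
      ∑ i, ∫ v, (QQ F i t v - QQ F i o v - cc F o t i) ^ 2 ∂I01 +
        ‖am F t - am F o - c‖ ^ 2 := by
    have e1 : ‖am F t - am F o - c‖ ^ 2 = ∑ i, (am F t i - am F o i - c i) ^ 2 := by
      rw [EuclideanSpace.norm_sq_eq]
      refine Finset.sum_congr rfl fun i _ => ?_
      rw [Real.norm_eq_abs, sq_abs]
      rfl
    rw [e1, ← Finset.sum_add_distrib]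
    exact Finset.sum_le_sum fun i _ => h.coord ht i (c i)
  have h3 := h.shape' ht hW
  set K := (Module.finrank ℝ V : ℝ) + 1 with hK
  have hK1 : 1 ≤ K := by
    have : (0:ℝ) ≤ Module.finrank ℝ V := Nat.cast_nonneg _
    linarith
  set X := W ^ 2 * Real.exp (3 / 4 * YY F o t) with hX
  have hX0 : 0 ≤ X := by positivity
  have h4 : ‖am F t - am F o - ∑ j, β j • (WithLp.toLp 2 (cc F o (s j)) : EuclideanSpace ℝ (Fin n))‖ ^ 2 ≤
      2 * (2 ^ 20 * X) + 2 * (2 ^ 24 * K ^ 2 * X) := by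
    have e1 : ‖am F t - am F o - ∑ j, β j • (WithLp.toLp 2 (cc F o (s j)) : EuclideanSpace ℝ (Fin n))‖ ^ 2 =
        ∑ i, (am F t i - am F o i - ∑ j, β j * cc F o (s j) i) ^ 2 := by
      rw [EuclideanSpace.norm_sq_eq]
      refine Finset.sum_congr rfl fun i _ => ?_
      rw [Real.norm_eq_abs, sq_abs]
      simp [WithLp.ofLp_sum]
    rw [e1]
    calc ∑ i, (am F t i - am F o i - ∑ j, β j * cc F o (s j) i) ^ 2
        ≤ ∑ i, (2 * (am F t i - am F o i - cc F o t i) ^ 2 +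
            2 * (cc F o t i - ∑ j, β j * cc F o (s j) i) ^ 2) := by
          refine Finset.sum_le_sum fun i _ => ?_
          nlinarith [sq_nonneg ((am F t i - am F o i - cc F o t i) -
            (cc F o t i - ∑ j, β j * cc F o (s j) i))]
      _ = 2 * ∑ i, (am F t i - am F o i - cc F o t i) ^ 2 +
            2 * ∑ i, (cc F o t i - ∑ j, β j * cc F o (s j) i) ^ 2 := by
          rw [Finset.sum_add_distrib, ← Finset.mul_sum, ← Finset.mul_sum]
      _ ≤ 2 * ∑ i, ∫ v, (QQ F i t v - QQ F i o v - cc F o t i) ^ 2 ∂I01 +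
            2 * (2 ^ 24 * K ^ 2 * W ^ 2 * Real.exp (3 / 4 * YY F o t)) := by
          gcongr with i _
          exact h.coord' ht i
      _ ≤ 2 * (2 ^ 20 * W ^ 2 * Real.exp (3 / 4 * YY F o t)) +
            2 * (2 ^ 24 * K ^ 2 * W ^ 2 * Real.exp (3 / 4 * YY F o t)) := by
          linarith
      _ = _ := by rw [hX]; ring
  have e2 : am F t - am F o - (a - am F o) = am F t - a := by abel
  rw [e2] at h1
  have h5 : X ≤ K ^ 2 * X := by
    have : 1 ≤ K ^ 2 := one_le_pow₀ hK1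
    nlinarith
  calc ∑ i, ∫ v, (QQ F i t v - QQ F i o v - c i) ^ 2 ∂I01
      ≤ 2 ^ 20 * X + (∑ j, ⟪e j, am F t - a⟫_ℝ ^ 2 + (2 * (2 ^ 20 * X) + 2 * (2 ^ 24 * K ^ 2 * X))) := by
        have : 2 ^ 20 * W ^ 2 * Real.exp (3 / 4 * YY F o t) = 2 ^ 20 * X := by rw [hX]; ring
        linarith
    _ ≤ ∑ j, ⟪e j, am F t - a⟫_ℝ ^ 2 + 2 ^ 27 * (K ^ 2 * X) := by linarith
    _ = _ := by rw [hX]; ring

end Bp

end Pool.Agent.Q73.KL
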