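import Pool.Agent.Q73.KL.Qu
import Pool.Agent.Q73.KL.Hardy

/-!
# Prekopa-Leindler inequality with quantiles
-/

set_option autoImplicit false

namespace Pool.Agent.Q73.KL

open MeasureTheory Set Filter Topology
open scoped ENNReal

theorem half_mem : (1 / 2 : ℝ) ∈ Ioo (0 : ℝ) 1 := by constructor <;> norm_num

theorem refl_mem {u : ℝ} (hu : u ∈ Ioo (0:ℝ) 1) : 1 - u ∈ Ioo (0:ℝ) 1 :=
  ⟨by linarith [hu.2], by linarith [hu.1]⟩

theorem lint_refl (g : ℝ → ℝ≥0∞) : ∫⁻ u in Ioo (0:ℝ) 1, g (1 - u) = ∫⁻ u in Ioo (0:ℝ) 1, g u := by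
  have := (Measure.measurePreserving_sub_left (volume : Measure ℝ) 1).setLIntegral_comp_preimage_emb
    (MeasurableEquiv.subLeft (1:ℝ)).measurableEmbedding g (Ioo (0:ℝ) 1)
  rw [← this]
  congr 2
  ext u
  simp only [mem_Ioo, mem_preimage]
  constructor
  · intro h; constructor <;> linarith [h.1, h.2]
  · intro h; constructor <;> linarith [h.1, h.2]

namespace QD

variable {F : ℝ → ℝ} {Z : ℝ} {Q q : ℝ → ℝ}

theorem refl (h : QD F Z Q q) : QD (fun x => F (-x)) Z (fun u => - Q (1 - u)) (fun u => q (1 - u)) where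
  Zpos := h.Zpos
  meas := (h.meas.comp (by fun_prop : Measurable fun u : ℝ => 1 - u)).neg
  deriv u hu := by
    have h1 : HasDerivAt (fun u : ℝ => 1 - u) (-1) u := by
      simpa using (hasDerivAt_id u).const_sub 1
    have := (HasDerivAt.comp (h₂ := Q) u (h.deriv _ (refl_mem hu)) h1).neg
    refine this.congr_deriv ?_
    ring
  qpos u hu := h.qpos _ (refl_mem hu)
  cont := h.cont.comp (by fun_prop) fun u hu => refl_mem hu
  eq u hu := by
    simp only [neg_neg]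
    exact h.eq _ (refl_mem hu)
  push φ hφ := by
    have h1 := h.push (fun x => φ (-x)) (hφ.comp measurable_neg)
    rw [lint_refl fun u => φ (- Q u), ← h1,
      ← lintegral_neg_eq_self (μ := volume) (fun x => φ x * ENNReal.ofReal (F (-x)))]
    simp only [neg_neg]
  up u hu := by
    have := h.up _ (refl_mem hu)
    rw [show 1 - (1 - u) = u by ring, min_comm] at this
    rw [show (1:ℝ) - 1/2 = 1/2 by norm_num]
    exact this
  low u hu := by
    rw [show (1:ℝ) - 1/2 = 1/2 by norm_num]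
    exact h.low _ (refl_mem hu)

theorem strict (h : QD F Z Q q) : StrictMonoOn Q (Ioo 0 1) := by
  apply strictMonoOn_of_deriv_pos (convex_Ioo 0 1)
    (fun u hu => (h.deriv u hu).continuousAt.continuousWithinAt)
  intro u hu
  rw [interior_Ioo] at hu
  rw [(h.deriv u hu).deriv]
  exact h.qpos u hu

theorem lpos (h : QD F Z Q q) : 0 < q (1 / 2) := h.qpos _ half_mem

theorem mass (h : QD F Z Q q) {B : Set ℝ} (hB : MeasurableSet B) :
    ∫⁻ x in B, ENNReal.ofReal (F x) = ENNReal.ofReal Z * volume {u ∈ Ioo (0:ℝ) 1 | Q u ∈ B} := by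
  have h1 := h.push (B.indicator 1) (measurable_one.indicator hB)
  have h2 : ∫⁻ x, B.indicator 1 x * ENNReal.ofReal (F x) = ∫⁻ x in B, ENNReal.ofReal (F x) := by
    rw [← lintegral_indicator hB]
    refine lintegral_congr fun x => ?_
    by_cases hx : x ∈ B <;> simp [hx]
  rw [← h2, h1]
  congr 1
  have h3 : MeasurableSet {u ∈ Ioo (0:ℝ) 1 | Q u ∈ B} := measurableSet_Ioo.inter (h.meas hB)
  have h4 : volume {u ∈ Ioo (0:ℝ) 1 | Q u ∈ B} =
      ∫⁻ u in Ioo (0:ℝ) 1, (Q ⁻¹' B).indicator 1 u := by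
    rw [lintegral_indicator_one (h.meas hB), Measure.restrict_apply (h.meas hB)]
    congr 1
    ext u
    simp [and_comm]
  rw [h4]
  rfl

theorem log_lo (h : QD F Z Q q) {a : ℝ} (ha : 0 < a) (ha2 : a ≤ 1 / 2) :
    Q (1 / 2) - Q a ≤ q (1 / 2) / 2 * Real.log (1 / (2 * a)) := by
  have h0 : ∀ u ∈ Ioc (0:ℝ) (1/2), u ∈ Ioo (0:ℝ) 1 := fun u hu => ⟨hu.1, lt_of_le_of_lt hu.2 (by norm_num)⟩
  have hder : ∀ u ∈ Ioc (0:ℝ) (1/2), HasDerivAt (fun u => q (1 / 2) / 2 * Real.log u - Q u)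
      (q (1 / 2) / 2 * u⁻¹ - q u) u := fun u hu =>
    ((Real.hasDerivAt_log hu.1.ne').const_mul _).sub (h.deriv u (h0 u hu))
  have hm : MonotoneOn (fun u => q (1 / 2) / 2 * Real.log u - Q u) (Ioc 0 (1/2)) := by
    apply monotoneOn_of_deriv_nonneg (convex_Ioc 0 (1/2))
      (fun u hu => (hder u hu).continuousAt.continuousWithinAt)
    · intro u hu
      exact (hder u (interior_subset hu)).differentiableAt.differentiableWithinAt
    · intro u hu
      have hu' := interior_subset hu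
      rw [(hder u hu').deriv]
      have h1 := h.up u (h0 u hu')
      rw [min_eq_left (by linarith [hu'.2])] at h1
      have h2 : q u ≤ q (1/2) / 2 * u⁻¹ := by
        rw [← div_eq_mul_inv, le_div_iff₀ hu'.1]
        linarith
      linarith
  have h1 := hm ⟨ha, ha2⟩ ⟨by norm_num, le_refl _⟩ ha2
  simp only at h1
  have h2 : Real.log (1 / (2 * a)) = Real.log (1 / 2) - Real.log a := by
    rw [← Real.log_div (by norm_num) ha.ne']
    congr 1
    field_simp
  rw [h2]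
  linarith

end QD

section conf

variable {J : Type} [Fintype J]

/-- quantile data of several functions and a majorant -/
structure Conf0 (w : J → ℝ) (F : J → ℝ → ℝ) (Z : J → ℝ) (Q q : J → ℝ → ℝ) (Fr : ℝ → ℝ) : Prop where
  w0 : ∀ j, 0 ≤ w j
  w1 : ∑ j, w j = 1
  qd : ∀ j, QD (F j) (Z j) (Q j) (q j)
  maj : ∀ x : J → ℝ, ∏ j, F j (x j) ^ w j ≤ Fr (∑ j, w j * x j)

/-- quantile data of several functions and of a majorant -/
structure Conf (w : J → ℝ) (F : J → ℝ → ℝ) (Z : J → ℝ) (Q q : J → ℝ → ℝ) (Fr : ℝ → ℝ) (Zr : ℝ)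
    (Qr qr : ℝ → ℝ) : Prop extends Conf0 w F Z Q q Fr where
  qdr : QD Fr Zr Qr qr

namespace Conf0

variable {w : J → ℝ} {F : J → ℝ → ℝ} {Z : J → ℝ} {Q q : J → ℝ → ℝ} {Fr : ℝ → ℝ}

theorem Ppos (h : Conf0 w F Z Q q Fr) : 0 < ∏ j, Z j ^ w j :=
  Finset.prod_pos fun j _ => Real.rpow_pos_of_pos (h.qd j).Zpos _

theorem qprod_pos (h : Conf0 w F Z Q q Fr) {u : ℝ} (hu : u ∈ Ioo (0:ℝ) 1) :
    0 < ∏ j, q j u ^ w j :=
  Finset.prod_pos fun j _ => Real.rpow_pos_of_pos ((h.qd j).qpos u hu) _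

theorem amgm (h : Conf0 w F Z Q q Fr) {u : ℝ} (hu : u ∈ Ioo (0:ℝ) 1) :
    ∏ j, q j u ^ w j ≤ ∑ j, w j * q j u :=
  Real.geom_mean_le_arith_mean_weighted _ _ _ (fun j _ => h.w0 j) h.w1
    fun j _ => ((h.qd j).qpos u hu).le

theorem base (h : Conf0 w F Z Q q Fr) {A : Set ℝ} (hA : MeasurableSet A)
    (hA1 : A ⊆ Ioo (0:ℝ) 1) :
    ENNReal.ofReal (∏ j, Z j ^ w j) *
      ∫⁻ u in A, ENNReal.ofReal ((∑ j, w j * q j u) / ∏ j, q j u ^ w j) ≤
    ∫⁻ x in (fun u => ∑ j, w j * Q j u) '' A, ENNReal.ofReal (Fr x) := by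
  have hd : ∀ u ∈ Ioo (0:ℝ) 1, HasDerivAt (fun u => ∑ j, w j * Q j u) (∑ j, w j * q j u) u := by
    intro u hu
    have := HasDerivAt.fun_sum (u := Finset.univ) (A := fun j u => w j * Q j u)
      (A' := fun j => w j * q j u) (x := u) fun j _ => ((h.qd j).deriv u hu).const_mul (w j)
    exact this
  have hpos : ∀ u ∈ Ioo (0:ℝ) 1, 0 < ∑ j, w j * q j u := fun u hu =>
    lt_of_lt_of_le (h.qprod_pos hu) (h.amgm hu)
  have hs : StrictMonoOn (fun u => ∑ j, w j * Q j u) (Ioo 0 1) := by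
    apply strictMonoOn_of_deriv_pos (convex_Ioo 0 1)
      (fun u hu => (hd u hu).continuousAt.continuousWithinAt)
    intro u hu
    rw [interior_Ioo] at hu
    rw [(hd u hu).deriv]
    exact hpos u hu
  rw [lintegral_image_eq_lintegral_abs_deriv_mul hA
    (fun u hu => (hd u (hA1 hu)).hasDerivWithinAt) (hs.injOn.mono hA1),
    ← lintegral_const_mul' _ _ ENNReal.ofReal_ne_top]
  refine setLIntegral_mono_ae' hA (Eventually.of_forall fun u hu => ?_)
  have hu' := hA1 hu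
  rw [abs_of_pos (hpos u hu'), ← ENNReal.ofReal_mul h.Ppos.le, ← ENNReal.ofReal_mul (hpos u hu').le]
  refine ENNReal.ofReal_le_ofReal ?_
  have h1 := h.maj fun j => Q j u
  have h2 : ∏ j, F j (Q j u) ^ w j = (∏ j, Z j ^ w j) / ∏ j, q j u ^ w j := by
    rw [← Finset.prod_div_distrib]
    refine Finset.prod_congr rfl fun j _ => ?_
    have hq := (h.qd j).qpos u hu'
    rw [← Real.div_rpow (h.qd j).Zpos.le hq.le, ← (h.qd j).eq u hu', mul_div_cancel_right₀ _ hq.ne']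
  rw [h2] at h1
  calc (∏ j, Z j ^ w j) * ((∑ j, w j * q j u) / ∏ j, q j u ^ w j)
      = (∑ j, w j * q j u) * ((∏ j, Z j ^ w j) / ∏ j, q j u ^ w j) := by ring
    _ ≤ _ := mul_le_mul_of_nonneg_left h1 (hpos u hu').le

theorem base1 (h : Conf0 w F Z Q q Fr) {A : Set ℝ} (hA : MeasurableSet A)
    (hA1 : A ⊆ Ioo (0:ℝ) 1) :
    ENNReal.ofReal (∏ j, Z j ^ w j) * volume A ≤
    ∫⁻ x in (fun u => ∑ j, w j * Q j u) '' A, ENNReal.ofReal (Fr x) := by
  refine le_trans ?_ (h.base hA hA1)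
  refine mul_le_mul' le_rfl ?_
  rw [← setLIntegral_one]
  refine setLIntegral_mono_ae' hA (Eventually.of_forall fun u hu => ?_)
  rw [← ENNReal.ofReal_one]
  refine ENNReal.ofReal_le_ofReal ?_
  rw [one_le_div (h.qprod_pos (hA1 hu))]
  exact h.amgm (hA1 hu)

end Conf0

namespace Conf

variable {w : J → ℝ} {F : J → ℝ → ℝ} {Z : J → ℝ} {Q q : J → ℝ → ℝ} {Fr : ℝ → ℝ} {Zr : ℝ}
  {Qr qr : ℝ → ℝ}

theorem refl (h : Conf w F Z Q q Fr Zr Qr qr) : Conf w (fun j x => F j (-x)) Z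
    (fun j u => - Q j (1 - u)) (fun j u => q j (1 - u)) (fun x => Fr (-x)) Zr
    (fun u => - Qr (1 - u)) (fun u => qr (1 - u)) where
  w0 := h.w0
  w1 := h.w1
  qd j := (h.qd j).refl
  qdr := h.qdr.refl
  maj x := by
    have := h.maj fun j => - x j
    refine this.trans (le_of_eq ?_)
    congr 1
    rw [← Finset.sum_neg_distrib]
    exact Finset.sum_congr rfl fun j _ => by ring

/-- total mass -/
theorem total (h : Conf w F Z Q q Fr Zr Qr qr) :
    ENNReal.ofReal (∏ j, Z j ^ w j) *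
      ∫⁻ u in Ioo (0:ℝ) 1, ENNReal.ofReal ((∑ j, w j * q j u) / ∏ j, q j u ^ w j) ≤
    ENNReal.ofReal Zr := by
  refine (h.base measurableSet_Ioo subset_rfl).trans ?_
  refine (setLIntegral_le_lintegral _ _).trans (le_of_eq ?_)
  have := h.qdr.push (fun _ => 1) measurable_const
  simpa using this

theorem PZ (h : Conf w F Z Q q Fr Zr Qr qr) : ∏ j, Z j ^ w j ≤ Zr := by
  have h1 := h.base1 measurableSet_Ioo subset_rfl
  have h2 : ∫⁻ x in (fun u => ∑ j, w j * Q j u) '' Ioo 0 1, ENNReal.ofReal (Fr x) ≤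
      ENNReal.ofReal Zr := by
    refine (setLIntegral_le_lintegral _ _).trans (le_of_eq ?_)
    have := h.qdr.push (fun _ => 1) measurable_const
    simpa using this
  have h3 := h1.trans h2
  simp only [Real.volume_Ioo, sub_zero, ENNReal.ofReal_one, mul_one] at h3
  exact (ENNReal.ofReal_le_ofReal_iff h.qdr.Zpos.le).1 h3

theorem med_lo (h : Conf w F Z Q q Fr Zr Qr qr) :
    Qr (1 / 2) - ∑ j, w j * Q j (1 / 2) ≤
      qr (1 / 2) / 2 * Real.log (Zr / ∏ j, Z j ^ w j) := by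
  have hP := h.Ppos
  have hZ := h.qdr.Zpos
  have hPZ := h.PZ
  set P := ∏ j, Z j ^ w j with hPdef
  set z := ∑ j, w j * Q j (1 / 2) with hz
  -- the mass of `Fr` to the left of `z` is at least `P / 2`
  have h1 : ENNReal.ofReal (P / 2) ≤ ∫⁻ x in Iio z, ENNReal.ofReal (Fr x) := by
    have hsub : Ioo (0:ℝ) (1/2) ⊆ Ioo 0 1 := Ioo_subset_Ioo_right (by norm_num)
    have h2 := h.base1 (measurableSet_Ioo (a := (0:ℝ)) (b := 1/2)) hsub
    rw [Real.volume_Ioo, ← ENNReal.ofReal_mul h.Ppos.le] at h2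
    have h3 : (∏ j, Z j ^ w j) * (1 / 2 - 0) = P / 2 := by rw [hPdef]; ring
    rw [h3] at h2
    refine h2.trans (lintegral_mono_set ?_)
    rintro _ ⟨u, hu, rfl⟩
    show ∑ j, w j * Q j u < z
    rw [hz]
    obtain ⟨j0, hj0⟩ : ∃ j, 0 < w j := by
      by_contra hc
      push Not at hc
      have : ∑ j, w j ≤ 0 := Finset.sum_nonpos fun j _ => hc j
      rw [h.w1] at this
      linarith
    refine Finset.sum_lt_sum (fun j _ => mul_le_mul_of_nonneg_left
      ((h.qd j).strict (hsub hu) half_mem hu.2).le (h.w0 j))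
      ⟨j0, Finset.mem_univ _, mul_lt_mul_of_pos_left ((h.qd j0).strict (hsub hu) half_mem hu.2) hj0⟩
  have h2 : ∀ v : ℝ, 0 < v → v < P / (2 * Zr) → Qr v ≤ z := by
    intro v hv hv2
    by_contra hc
    push Not at hc
    have hv1 : v < 1 / 2 := by
      refine lt_of_lt_of_le hv2 ?_
      rw [div_le_div_iff₀ (by positivity) (by norm_num)]
      linarith
    have hvm : v ∈ Ioo (0:ℝ) 1 := ⟨hv, by linarith⟩
    rw [h.qdr.mass measurableSet_Iio] at h1
    have h3 : volume {u ∈ Ioo (0:ℝ) 1 | Qr u ∈ Iio z} ≤ ENNReal.ofReal v := by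
      refine (measure_mono (t := Ioo 0 v) ?_).trans (le_of_eq (by simp))
      rintro u ⟨hu, hu'⟩
      refine ⟨hu.1, ?_⟩
      by_contra hc2
      push Not at hc2
      have := h.qdr.strict.monotoneOn hvm hu hc2
      have h4 : Qr u < z := hu'
      linarith
    have h4 : ENNReal.ofReal (P / 2) ≤ ENNReal.ofReal (Zr * v) := by
      rw [ENNReal.ofReal_mul hZ.le]
      exact h1.trans (mul_le_mul' le_rfl h3)
    rw [ENNReal.ofReal_le_ofReal_iff (by positivity)] at h4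
    rw [lt_div_iff₀ (by positivity)] at hv2
    nlinarith
  have hl := h.qdr.lpos
  refine le_of_forall_pos_le_add fun ε hε => ?_
  -- choose `v = P / (2 Zr) exp(-δ)`
  obtain ⟨δ, hδ, hδ2⟩ : ∃ δ : ℝ, 0 < δ ∧ qr (1/2) / 2 * δ ≤ ε :=
    ⟨2 * ε / qr (1/2), by positivity, by field_simp; exact le_refl _⟩
  have hw : 0 < P / (2 * Zr) := by positivity
  have hexp : Real.exp (-δ) < 1 := by rw [Real.exp_lt_one_iff]; linarith
  have hv : 0 < P / (2 * Zr) * Real.exp (-δ) := mul_pos hw (Real.exp_pos _)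
  have hv2 : P / (2 * Zr) * Real.exp (-δ) < P / (2 * Zr) := mul_lt_of_lt_one_right hw hexp
  have hv1 : P / (2 * Zr) ≤ 1 / 2 := by
    rw [div_le_div_iff₀ (by positivity) (by norm_num)]
    linarith
  have h3 := h2 _ hv hv2
  have h4 := h.qdr.log_lo hv (hv2.le.trans hv1)
  have h5 : Real.log (1 / (2 * (P / (2 * Zr) * Real.exp (-δ)))) = Real.log (Zr / P) + δ := by
    rw [← Real.log_exp δ, ← Real.log_mul (by positivity) (Real.exp_pos _).ne', Real.log_exp]
    congr 1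
    rw [Real.exp_neg]
    field_simp
  rw [h5, mul_add] at h4
  linarith

/-- **Lemma D** -/
theorem med (h : Conf w F Z Q q Fr Zr Qr qr) :
    |Qr (1 / 2) - ∑ j, w j * Q j (1 / 2)| ≤
      qr (1 / 2) / 2 * Real.log (Zr / ∏ j, Z j ^ w j) := by
  rw [abs_le]
  constructor
  · have h1 := h.refl.med_lo
    rw [show (1:ℝ) - 1/2 = 1/2 by norm_num] at h1
    have h2 : ∑ j, w j * -Q j (1 / 2) = - ∑ j, w j * Q j (1 / 2) := by
      rw [← Finset.sum_neg_distrib]
      exact Finset.sum_congr rfl fun j _ => by ring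
    rw [h2] at h1
    linarith
  · exact h.med_lo

end Conf

end conf

end Pool.Agent.Q73.KL
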