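import Pool.Agent.Q73.KL.Lc

/-!
# Quantile functions of log-concave functions on the line
-/

set_option autoImplicit false

namespace Pool.Agent.Q73.KL

open MeasureTheory Set Filter Topology
open scoped ENNReal

/-- quantile data: `Q` is the quantile function of the density `F / Z`, `q` its derivative -/
structure QD (F : ℝ → ℝ) (Z : ℝ) (Q q : ℝ → ℝ) : Prop where
  Zpos : 0 < Z
  meas : Measurable Q
  deriv : ∀ u ∈ Ioo (0 : ℝ) 1, HasDerivAt Q (q u) u
  qpos : ∀ u ∈ Ioo (0 : ℝ) 1, 0 < q u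
  cont : ContinuousOn q (Ioo 0 1)
  eq : ∀ u ∈ Ioo (0 : ℝ) 1, F (Q u) * q u = Z
  push : ∀ φ : ℝ → ℝ≥0∞, Measurable φ →
    ∫⁻ x, φ x * ENNReal.ofReal (F x) = ENNReal.ofReal Z * ∫⁻ u in Ioo (0 : ℝ) 1, φ (Q u)
  up : ∀ u ∈ Ioo (0 : ℝ) 1, 2 * min u (1 - u) * q u ≤ q (1 / 2)
  low : ∀ u ∈ Ioo (0 : ℝ) 1, q (1 / 2) ≤ 2 * q u

namespace LC1

variable {F : ℝ → ℝ}

theorem neg (h : LC1 F) : LC1 fun x => F (-x) where
  nonneg x := h.nonneg _
  meas := h.meas.comp measurable_neg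
  logc x y t t0 t1 := by
    have := h.logc (-x) (-y) t t0 t1
    refine this.trans (le_of_eq ?_)
    congr 1; ring
  int := h.int.comp_neg
  pos := by rw [integral_comp_neg_eq]; exact h.pos
where
  integral_comp_neg_eq : ∫ x, F (-x) = ∫ x, F x := integral_neg_eq_self F volume

theorem G_neg (h : LC1 F) (y : ℝ) : Gf (fun x => F (-x)) y = (∫ x, F x) - Gf F (-y) := by
  unfold Gf
  rw [integral_comp_neg_Iic]
  have := intervalIntegral.integral_Iic_add_Ioi (b := -y) h.int.integrableOn h.int.integrableOn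
  linarith

theorem ratio' (h : LC1 F) {x m : ℝ} (hx : x ≤ m) :
    ((∫ y, F y) - Gf F m) * F x ≤ F m * ((∫ y, F y) - Gf F x) := by
  have h1 := h.neg.ratio (neg_le_neg hx)
  rw [h.G_neg, h.G_neg] at h1
  simpa only [neg_neg] using h1

theorem ex_q (h : LC1 F) {u : ℝ} (hu : u ∈ Ioo (0 : ℝ) 1) : ∃ x, Gf F x = u * ∫ y, F y := by
  have hZ := h.pos
  have h1 : 0 < u * ∫ y, F y := mul_pos hu.1 hZ
  have h2 : u * ∫ y, F y < ∫ y, F y := by nlinarith [hu.2]
  obtain ⟨a, ha⟩ := (G_bot.eventually (gt_mem_nhds h1)).exists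
  obtain ⟨b, hb⟩ := (h.G_top.eventually (lt_mem_nhds h2)).exists
  exact mem_range_of_exists_le_of_exists_ge h.G_cont ⟨a, ha.le⟩ ⟨b, hb.le⟩

open Classical in
/-- the quantile function -/
noncomputable def Qf (F : ℝ → ℝ) (u : ℝ) : ℝ :=
  if h : u ∈ Ioo (0 : ℝ) 1 ∧ ∃ x, Gf F x = u * ∫ y, F y then h.2.choose else 0

theorem G_Q (h : LC1 F) {u : ℝ} (hu : u ∈ Ioo (0 : ℝ) 1) : Gf F (Qf F u) = u * ∫ y, F y := by
  have h1 : u ∈ Ioo (0 : ℝ) 1 ∧ ∃ x, Gf F x = u * ∫ y, F y := ⟨hu, h.ex_q hu⟩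
  unfold Qf
  rw [dif_pos h1]
  exact h1.2.choose_spec

theorem Q_mem (h : LC1 F) {u : ℝ} (hu : u ∈ Ioo (0 : ℝ) 1) : Qf F u ∈ Us F := by
  have hZ := h.pos
  have h1 := h.G_Q hu
  constructor
  · rw [h1]; exact mul_pos hu.1 hZ
  · rw [h1]; nlinarith [hu.2]

theorem Q_strict (h : LC1 F) : StrictMonoOn (Qf F) (Ioo 0 1) := by
  intro u hu v hv huv
  by_contra hc
  push Not at hc
  have h1 := h.G_mono hc
  rw [h.G_Q hu, h.G_Q hv] at h1
  have := h.pos
  nlinarith

theorem Q_image (h : LC1 F) : Qf F '' Ioo 0 1 = Us F := by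
  ext x
  constructor
  · rintro ⟨u, hu, rfl⟩
    exact h.Q_mem hu
  · intro hx
    have hZ := h.pos
    have hu : Gf F x / (∫ y, F y) ∈ Ioo (0 : ℝ) 1 :=
      ⟨div_pos hx.1 hZ, (div_lt_one hZ).2 hx.2⟩
    refine ⟨_, hu, ?_⟩
    apply h.G_strict.injOn (h.Q_mem hu) hx
    rw [h.G_Q hu, div_mul_cancel₀ _ hZ.ne']

theorem Q_cont (h : LC1 F) {u : ℝ} (hu : u ∈ Ioo (0 : ℝ) 1) : ContinuousAt (Qf F) u := by
  refine h.Q_strict.continuousAt_of_image_mem_nhds (isOpen_Ioo.mem_nhds hu) ?_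
  rw [h.Q_image]
  exact h.U_open.mem_nhds (h.Q_mem hu)

theorem Q_deriv (h : LC1 F) {u : ℝ} (hu : u ∈ Ioo (0 : ℝ) 1) :
    HasDerivAt (Qf F) ((∫ y, F y) / F (Qf F u)) u := by
  have hZ := h.pos
  have hF := h.F_pos (h.Q_mem hu)
  have h1 : HasDerivAt (fun x => Gf F x / ∫ y, F y) (F (Qf F u) / ∫ y, F y) (Qf F u) :=
    (h.G_deriv (h.Q_mem hu)).div_const _
  have h2 := HasDerivAt.of_local_left_inverse (h.Q_cont hu) h1 (div_pos hF hZ).ne'
    (by
      filter_upwards [isOpen_Ioo.mem_nhds hu] with v hv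
      rw [h.G_Q hv, mul_div_cancel_right₀ _ hZ.ne'])
  rwa [inv_div] at h2

theorem Q_meas (h : LC1 F) : Measurable (Qf F) := by
  classical
  have h1 : Qf F = (Ioo (0:ℝ) 1).piecewise (Qf F) (fun _ => 0) := by
    ext u
    by_cases hu : u ∈ Ioo (0:ℝ) 1
    · rw [piecewise_eq_of_mem _ _ _ hu]
    · rw [piecewise_eq_of_notMem _ _ _ hu]
      unfold Qf
      rw [dif_neg fun h => hu h.1]
  rw [h1]
  have h2 : ContinuousOn (Qf F) (Ioo 0 1) := fun u hu => (h.Q_cont hu).continuousWithinAt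
  exact h2.measurable_piecewise continuousOn_const measurableSet_Ioo

theorem qd (h : LC1 F) : QD F (∫ x, F x) (Qf F) fun u => (∫ y, F y) / F (Qf F u) where
  Zpos := h.pos
  meas := h.Q_meas
  deriv u hu := h.Q_deriv hu
  qpos u hu := div_pos h.pos (h.F_pos (h.Q_mem hu))
  cont := by
    refine continuousOn_const.div ?_ fun u hu => (h.F_pos (h.Q_mem hu)).ne'
    exact h.F_cont.comp (fun u hu => (h.Q_cont hu).continuousWithinAt) fun u hu => h.Q_mem hu
  eq u hu := by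
    have := (h.F_pos (h.Q_mem hu)).ne'
    field_simp
  push φ hφ := by
    have hZ := h.pos
    have key : ∀ ψ : ℝ → ℝ≥0∞, ∫⁻ x in Us F, ψ x * ENNReal.ofReal (F x) =
        ENNReal.ofReal (∫ x, F x) * ∫⁻ u in Ioo (0 : ℝ) 1, ψ (Qf F u) := by
      intro ψ
      rw [← h.Q_image, lintegral_image_eq_lintegral_abs_deriv_mul measurableSet_Ioo
        (fun u hu => (h.Q_deriv hu).hasDerivWithinAt) h.Q_strict.injOn,
        ← lintegral_const_mul' _ _ ENNReal.ofReal_ne_top]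
      refine setLIntegral_congr_fun measurableSet_Ioo fun u hu => ?_
      have hF := h.F_pos (h.Q_mem hu)
      rw [abs_of_pos (div_pos hZ hF), mul_comm (ψ _), ← mul_assoc, ← ENNReal.ofReal_mul (by positivity),
        div_mul_cancel₀ _ hF.ne']
    have h0 : ∫⁻ x in (Us F)ᶜ, ENNReal.ofReal (F x) = 0 := by
      have h1 := lintegral_add_compl (fun x => ENNReal.ofReal (F x)) h.U_open.measurableSet (μ := volume)
      have h2 := key fun _ => 1
      simp only [one_mul, lintegral_const, Measure.restrict_apply_univ, Real.volume_Ioo] at h2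
      rw [h2, ← ofReal_integral_eq_lintegral_ofReal h.int (Eventually.of_forall fun y => h.nonneg y)] at h1
      simp only [sub_zero, ENNReal.ofReal_one, mul_one] at h1
      have h3 : ENNReal.ofReal (∫ x, F x) + ∫⁻ x in (Us F)ᶜ, ENNReal.ofReal (F x) =
        ENNReal.ofReal (∫ x, F x) + 0 := by rw [add_zero]; exact h1
      exact (ENNReal.add_right_inj ENNReal.ofReal_ne_top).1 h3
    have h1 : ∫⁻ x in (Us F)ᶜ, φ x * ENNReal.ofReal (F x) = 0 := by
      rw [lintegral_eq_zero_iff (by have := h.meas; fun_prop)] at h0 ⊢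
      filter_upwards [h0] with x hx
      simp only [Pi.zero_apply] at hx ⊢
      rw [hx, mul_zero]
    rw [← key φ, ← lintegral_add_compl _ h.U_open.measurableSet, h1, add_zero]
  up u hu := by
    have hZ := h.pos
    have hh : (1/2 : ℝ) ∈ Ioo (0:ℝ) 1 := by constructor <;> norm_num
    have hF := h.F_pos (h.Q_mem hu)
    have hF' := h.F_pos (h.Q_mem hh)
    rw [mul_div_assoc', div_le_div_iff₀ hF hF']
    rcases le_total u (1/2) with h1 | h1
    · have h2 := h.ratio (h.Q_strict.monotoneOn hu hh h1)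
      rw [h.G_Q hu, h.G_Q hh] at h2
      rw [min_eq_left (by linarith)]
      nlinarith
    · have h2 := h.ratio' (h.Q_strict.monotoneOn hh hu h1)
      rw [h.G_Q hu, h.G_Q hh] at h2
      rw [min_eq_right (by linarith)]
      nlinarith
  low u hu := by
    have hZ := h.pos
    have hh : (1/2 : ℝ) ∈ Ioo (0:ℝ) 1 := by constructor <;> norm_num
    have hF := h.F_pos (h.Q_mem hu)
    have hF' := h.F_pos (h.Q_mem hh)
    rw [mul_div_assoc', div_le_div_iff₀ hF' hF]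
    rcases le_total u (1/2) with h1 | h1
    · have h2 := h.ratio' (h.Q_strict.monotoneOn hu hh h1)
      rw [h.G_Q hu, h.G_Q hh] at h2
      nlinarith [mul_pos hZ hF', hu.1, mul_pos (mul_pos hZ hF') hu.1]
    · have h2 := h.ratio (h.Q_strict.monotoneOn hh hu h1)
      rw [h.G_Q hu, h.G_Q hh] at h2
      nlinarith [mul_pos hZ hF', hu.1, mul_pos (mul_pos hZ hF') (sub_pos.2 hu.2)]

end LC1

end Pool.Agent.Q73.KL
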