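import Pool.Agent.Q73.KL.Lin

/-!
# Integrals over the parameter
-/

set_option autoImplicit false
set_option linter.unusedSectionVars false

namespace Pool.Agent.Q73.KL

open MeasureTheory Set Filter Topology
open scoped ENNReal

variable {V : Type} [NormedAddCommGroup V] [NormedSpace ℝ V] [MeasurableSpace V] [BorelSpace V]
  [FiniteDimensional ℝ V]

theorem lint_hom (ν : Measure V) [ν.IsAddHaarMeasure] (o : V) {r : ℝ} (hr : r ≠ 0)
    {g : V → ℝ≥0∞} (hg : Measurable g) :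
    ∫⁻ t, g (o + r • (t - o)) ∂ν =
      ENNReal.ofReal |(r ^ Module.finrank ℝ V)⁻¹| * ∫⁻ t, g t ∂ν := by
  have h1 : ∫⁻ t, g (o + r • (t - o)) ∂ν = ∫⁻ t, g (o + r • t) ∂ν :=
    lintegral_sub_right_eq_self (fun t => g (o + r • t)) o
  have hm : Measurable fun t : V => r • t := measurable_const_smul r
  have hg2 : Measurable fun t : V => g (o + t) := hg.comp (measurable_const_add o)
  have h2 : ∫⁻ t, g (o + r • t) ∂ν = ∫⁻ t, g (o + t) ∂(ν.map (fun t => r • t)) := by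
    rw [lintegral_map hg2 hm]
  rw [h1, h2, Measure.map_addHaar_smul ν hr, lintegral_smul_measure, smul_eq_mul,
    lintegral_add_left_eq_self (fun t => g t) o]

theorem Fam.ZZ_meas {n : ℕ} {F : Fin n → V → ℝ → ℝ} (h : Fam F) (i : Fin n) : Measurable (Zi F i) := by
  have h1 : StronglyMeasurable (Function.uncurry (F i)) := (h.meas i).stronglyMeasurable
  have h2 := h1.integral_prod_right (ν := (volume : Measure ℝ))
  exact h2.measurable

theorem Fam.ZZ_meas' {n : ℕ} {F : Fin n → V → ℝ → ℝ} (h : Fam F) : Measurable (ZZ F) := by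
  unfold ZZ
  exact Finset.measurable_fun_prod _ fun i _ => h.ZZ_meas i

namespace Bp

variable {n : ℕ} {F : Fin n → V → ℝ → ℝ} {o : V}

theorem ZZ_eq (h : Bp F o) {t : V} (ht : 0 < ZZ F t) : ZZ F t = ZZ F o * Real.exp (- YY F o t) := by
  rw [Real.exp_neg, h.exp_Y ht, inv_div, mul_div_cancel₀ _ h.pos.ne']

theorem scale1 (h : Bp F o) (ν : Measure V) [ν.IsAddHaarMeasure] :
    ∫⁻ t, ENNReal.ofReal (ZZ F t * Real.exp (3 / 4 * YY F o t)) ∂ν ≤
      ENNReal.ofReal (4 ^ Module.finrank ℝ V) * ∫⁻ t, ENNReal.ofReal (ZZ F t) ∂ν := by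
  have h1 := lint_hom ν o (r := 1 / 4) (by norm_num) h.fam.ZZ_meas'.ennreal_ofReal
  have e : |((1 / 4 : ℝ) ^ Module.finrank ℝ V)⁻¹| = 4 ^ Module.finrank ℝ V := by
    rw [abs_of_pos (by positivity), one_div, inv_pow, inv_inv]
  rw [e] at h1
  rw [← h1]
  refine lintegral_mono fun t => ENNReal.ofReal_le_ofReal ?_
  rcases (h.fam.ZZ_nonneg t).eq_or_lt with h0 | ht
  · rw [← h0, zero_mul]; exact h.fam.ZZ_nonneg _
  · have e1 : o + (1 / 4 : ℝ) • (t - o) = (1 - (1 / 4 : ℝ)) • o + (1 / 4 : ℝ) • t := by module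
    have hp := h.two_pos h.pos ht (r := 1 / 4) (by norm_num) (by norm_num)
    have hY := h.Y_conv (w0 (r := 1 / 4) (by norm_num) (by norm_num)) w1 (pp h.pos ht)
    simp only [Fin.sum_univ_two, Matrix.cons_val_zero, Matrix.cons_val_one, h.Y_o] at hY
    rw [e1, h.ZZ_eq hp, h.ZZ_eq ht, mul_assoc, ← Real.exp_add]
    refine mul_le_mul_of_nonneg_left (Real.exp_le_exp.2 ?_) h.pos.le
    linarith

theorem scale2 (h : Bp F o) (ν : Measure V) [ν.IsAddHaarMeasure] :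
    ∫⁻ t, ENNReal.ofReal (ZZ F t) ∂ν ≤ ENNReal.ofReal (3 ^ Module.finrank ℝ V) *
      ∫⁻ t, ENNReal.ofReal (ZZ F t * Real.exp (-(2 * YY F o t))) ∂ν := by
  have h1 := lint_hom ν o (r := 3) (by norm_num) h.fam.ZZ_meas'.ennreal_ofReal
  have e : ENNReal.ofReal (3 ^ Module.finrank ℝ V) * ENNReal.ofReal |((3 : ℝ) ^ Module.finrank ℝ V)⁻¹| = 1 := by
    rw [abs_of_pos (by positivity), ← ENNReal.ofReal_mul (by positivity),
      mul_inv_cancel₀ (by positivity), ENNReal.ofReal_one]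
  have h2 : ∫⁻ t, ENNReal.ofReal (ZZ F t) ∂ν = ENNReal.ofReal (3 ^ Module.finrank ℝ V) *
      ∫⁻ t, ENNReal.ofReal (ZZ F (o + (3 : ℝ) • (t - o))) ∂ν := by
    rw [h1, ← mul_assoc, e, one_mul]
  rw [h2]
  refine mul_le_mul' le_rfl (lintegral_mono fun t => ENNReal.ofReal_le_ofReal ?_)
  rcases (h.fam.ZZ_nonneg (o + (3 : ℝ) • (t - o))).eq_or_lt with h0 | ht
  · rw [← h0]
    exact mul_nonneg (h.fam.ZZ_nonneg _) (Real.exp_pos _).le
  · have e1 : (1 - (1 / 3 : ℝ)) • o + (1 / 3 : ℝ) • (o + (3 : ℝ) • (t - o)) = t := by module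
    have hp := h.two_pos h.pos ht (r := 1 / 3) (by norm_num) (by norm_num)
    have hY := h.Y_conv (w0 (r := 1 / 3) (by norm_num) (by norm_num)) w1 (pp h.pos ht)
    simp only [Fin.sum_univ_two, Matrix.cons_val_zero, Matrix.cons_val_one, h.Y_o] at hY
    rw [e1] at hp hY
    rw [h.ZZ_eq ht, h.ZZ_eq hp, mul_assoc, ← Real.exp_add]
    refine mul_le_mul_of_nonneg_left (Real.exp_le_exp.2 ?_) h.pos.le
    linarith

end Bp

end Pool.Agent.Q73.KL
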