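import Mathlib

/-!
# Bases with bounded coordinates on a bounded set
-/

set_option autoImplicit false

namespace Pool.Agent.Q73.KL

open Set

theorem exists_basis_bdd {V : Type} [NormedAddCommGroup V] [NormedSpace ℝ V] [FiniteDimensional ℝ V]
    (A : Set V) (hb : Bornology.IsBounded A) (hspan : ⊤ ≤ Submodule.span ℝ A) :
    ∃ s : Fin (Module.finrank ℝ V) → V, (∀ j, s j ∈ A) ∧
      ∀ a ∈ A, ∃ β : Fin (Module.finrank ℝ V) → ℝ, (∀ j, |β j| ≤ 2) ∧ a = ∑ j, β j • s j := by
  classical
  set k := Module.finrank ℝ V with hk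
  let e : Module.Basis (Fin k) ℝ V := Module.finBasis ℝ V
  -- a basis contained in `A`
  let b0 := Module.Basis.ofSpan hspan
  have hfin : Fintype ((linearIndepOn_empty ℝ (id : V → V)).extend (empty_subset A)) :=
    FiniteDimensional.fintypeBasisIndex b0
  have hcard : Fintype.card ((linearIndepOn_empty ℝ (id : V → V)).extend (empty_subset A)) = k :=
    (Module.finrank_eq_card_basis b0).symm
  let b1 : Module.Basis (Fin k) ℝ V := b0.reindex (Fintype.equivFinOfCardEq hcard)
  have hb1 : ∀ j, b1 j ∈ A := by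
    intro j
    apply Module.Basis.ofSpan_subset hspan
    rw [Module.Basis.reindex_apply]
    exact mem_range_self _
  have hdet1 : e.det b1 ≠ 0 := (e.isUnit_det b1).ne_zero
  -- the determinant is bounded on `A`
  obtain ⟨R, hR⟩ := hb.exists_norm_le
  have hcoord : ∃ C : ℝ, ∀ a ∈ A, ∀ i, |e.repr a i| ≤ C := by
    have h1 : ∀ i, ∃ C : ℝ, ∀ a ∈ A, |e.repr a i| ≤ C := by
      intro i
      let L : V →L[ℝ] ℝ := LinearMap.toContinuousLinearMap (e.coord i)
      refine ⟨‖L‖ * R, fun a ha => ?_⟩
      have := L.le_opNorm a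
      have h2 : L a = e.repr a i := rfl
      rw [h2, Real.norm_eq_abs] at this
      exact this.trans (mul_le_mul_of_nonneg_left (hR a ha) (norm_nonneg _))
    choose C hC using h1
    refine ⟨∑ i, |C i|, fun a ha i => (hC i a ha).trans ((le_abs_self _).trans ?_)⟩
    exact Finset.single_le_sum (f := fun i => |C i|) (fun i _ => abs_nonneg _) (Finset.mem_univ i)
  obtain ⟨C, hC⟩ := hcoord
  set S : Set ℝ := {x | ∃ s : Fin k → V, (∀ j, s j ∈ A) ∧ x = |e.det s|} with hS
  have hbdd : BddAbove S := by
    refine ⟨(Fintype.card (Fin k)).factorial • C ^ Fintype.card (Fin k), ?_⟩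
    rintro x ⟨s, hs, rfl⟩
    rw [e.det_apply]
    exact Matrix.det_le (abv := AbsoluteValue.abs) (A := e.toMatrix s) (x := C)
      fun i j => by
        rw [Module.Basis.toMatrix_apply]
        exact hC _ (hs j) i
  have hne : S.Nonempty := ⟨_, b1, hb1, rfl⟩
  have hM : 0 < sSup S := lt_of_lt_of_le (abs_pos.2 hdet1) (le_csSup hbdd ⟨b1, hb1, rfl⟩)
  obtain ⟨x, ⟨s, hs, rfl⟩, hx⟩ := exists_lt_of_lt_csSup hne (half_lt_self hM)
  have hs0 : 0 < |e.det s| := lt_trans (by positivity) hx
  have hunit : IsUnit (e.det s) := (abs_pos.1 hs0).isUnit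
  obtain ⟨li, sp⟩ := (Module.Basis.is_basis_iff_det e).2 hunit
  let B : Module.Basis (Fin k) ℝ V := Module.Basis.mk li sp.ge
  have hB : (B : Fin k → V) = s := Module.Basis.coe_mk _ _
  refine ⟨s, hs, fun a ha => ⟨fun j => B.repr a j, fun j => ?_, ?_⟩⟩
  · have h1 : e.det (Function.update s j a) = e.det s * B.repr a j := by
      have h2 := AlternatingMap.eq_smul_basis_det B e.det
      rw [h2]
      simp only [AlternatingMap.smul_apply, smul_eq_mul]
      rw [hB]
      have h3 : B.det s = 1 := by rw [← hB]; exact B.det_self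
      rw [h3, mul_one]
      congr 1
      rw [B.det_apply, Module.Basis.toMatrix_update]
      have h4 : B.toMatrix s = 1 := by rw [← hB]; exact B.toMatrix_self
      rw [h4, ← Matrix.cramer_apply, Matrix.cramer_one]
      rfl
    have h2 : |e.det (Function.update s j a)| ≤ sSup S := by
      apply le_csSup hbdd
      refine ⟨_, fun i => ?_, rfl⟩
      by_cases hi : i = j
      · rw [hi, Function.update_self]; exact ha
      · rw [Function.update_of_ne hi]; exact hs i
    rw [h1, abs_mul] at h2
    by_contra hc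
    push Not at hc
    nlinarith
  · rw [← hB]
    exact (B.sum_repr a).symm

end Pool.Agent.Q73.KL
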