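import Pool.Agent.Q73.KL.Base
import Pool.Agent.Q73.KL.Span

/-!
# The medians are almost affine functions of the parameter
-/

set_option autoImplicit false
set_option linter.unusedSectionVars false

namespace Pool.Agent.Q73.KL

open MeasureTheory Set Filter Topology
open scoped ENNReal

variable {V : Type} [NormedAddCommGroup V] [NormedSpace ℝ V] [MeasurableSpace V] [BorelSpace V]

/-- shift of the median -/
noncomputable def cc {n : ℕ} (F : Fin n → V → ℝ → ℝ) (o t : V) (i : Fin n) : ℝ :=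
  QQ F i t (1 / 2) - QQ F i o (1 / 2)

theorem log2_le : Real.log 2 ≤ 1 := by
  have := Real.log_two_lt_d9
  linarith

namespace Bp

variable {n k : ℕ} {F : Fin n → V → ℝ → ℝ} {o : V}

/-- points -/
def pt (o t : V) (s : Fin k → V) : Fin k ⊕ Bool → V
  | Sum.inl j => s j
  | Sum.inr true => t
  | Sum.inr false => o

/-- weights -/
noncomputable def wL (β : Fin k → ℝ) : Fin k ⊕ Bool → ℝ
  | Sum.inl j => max (-β j) 0 / (1 + ∑ j, |β j|)
  | Sum.inr true => 1 / (1 + ∑ j, |β j|)
  | Sum.inr false => (∑ j, max (β j) 0) / (1 + ∑ j, |β j|)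

/-- weights -/
noncomputable def wR (β : Fin k → ℝ) : Fin k ⊕ Bool → ℝ
  | Sum.inl j => max (β j) 0 / (1 + ∑ j, |β j|)
  | Sum.inr true => 0
  | Sum.inr false => (1 + ∑ j, max (-β j) 0) / (1 + ∑ j, |β j|)

theorem abs_eq_max (b : ℝ) : |b| = max b 0 + max (-b) 0 := by
  rcases le_total 0 b with h | h
  · rw [abs_of_nonneg h, max_eq_left h, max_eq_right (by linarith), add_zero]
  · rw [abs_of_nonpos h, max_eq_right h, max_eq_left (by linarith), zero_add]

theorem eq_max_sub (b : ℝ) : b = max b 0 - max (-b) 0 := by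
  rcases le_total 0 b with h | h
  · rw [max_eq_left h, max_eq_right (by linarith : -b ≤ 0), sub_zero]
  · rw [max_eq_right h, max_eq_left (by linarith : 0 ≤ -b)]; ring

theorem Npos (β : Fin k → ℝ) : 0 < 1 + ∑ j, |β j| := by
  have : 0 ≤ ∑ j, |β j| := Finset.sum_nonneg fun j _ => abs_nonneg _
  linarith

theorem sum_pos_nonneg (β : Fin k → ℝ) : 0 ≤ ∑ j, max (β j) 0 :=
  Finset.sum_nonneg fun j _ => le_max_right _ _

theorem wL0 (β : Fin k → ℝ) : ∀ j, 0 ≤ wL β j := by
  have hN := Npos β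
  rintro (j | _ | _)
  · exact div_nonneg (le_max_right _ _) hN.le
  · exact div_nonneg (sum_pos_nonneg β) hN.le
  · exact div_nonneg zero_le_one hN.le

theorem wR0 (β : Fin k → ℝ) : ∀ j, 0 ≤ wR β j := by
  have hN := Npos β
  rintro (j | _ | _)
  · exact div_nonneg (le_max_right _ _) hN.le
  · exact div_nonneg (by linarith [sum_pos_nonneg fun j => -β j]) hN.le
  · exact le_refl _

theorem sum_abs (β : Fin k → ℝ) : ∑ j, |β j| = ∑ j, max (β j) 0 + ∑ j, max (-β j) 0 := by
  rw [← Finset.sum_add_distrib]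
  exact Finset.sum_congr rfl fun j _ => abs_eq_max _

theorem wL1 (β : Fin k → ℝ) : ∑ j, wL β j = 1 := by
  have hN := Npos β
  rw [Fintype.sum_sum_type, Fintype.sum_bool]
  simp only [wL]
  rw [← Finset.sum_div, ← add_div, ← add_div, div_eq_one_iff_eq hN.ne', sum_abs]
  ring

theorem wR1 (β : Fin k → ℝ) : ∑ j, wR β j = 1 := by
  have hN := Npos β
  rw [Fintype.sum_sum_type, Fintype.sum_bool]
  simp only [wR]
  rw [← Finset.sum_div, zero_add, ← add_div, div_eq_one_iff_eq hN.ne', sum_abs]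
  ring

theorem same {M : Type} [AddCommGroup M] [Module ℝ M] (β : Fin k → ℝ) (f : Fin k ⊕ Bool → M) :
    ∑ j, wL β j • f j - ∑ j, wR β j • f j = (1 / (1 + ∑ j, |β j|)) •
      ((f (Sum.inr true) - f (Sum.inr false)) -
        ∑ j, β j • (f (Sum.inl j) - f (Sum.inr false))) := by
  have hN := Npos β
  rw [Fintype.sum_sum_type, Fintype.sum_sum_type, Fintype.sum_bool, Fintype.sum_bool]
  simp only [wL, wR, zero_smul, zero_add]
  have e1 : ∑ j, (max (-β j) 0 / (1 + ∑ j, |β j|)) • f (Sum.inl j) =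
      (1 / (1 + ∑ j, |β j|)) • ∑ j, max (-β j) 0 • f (Sum.inl j) := by
    rw [Finset.smul_sum]
    refine Finset.sum_congr rfl fun j _ => ?_
    rw [smul_smul]; congr 1; ring
  have e2 : ∑ j, (max (β j) 0 / (1 + ∑ j, |β j|)) • f (Sum.inl j) =
      (1 / (1 + ∑ j, |β j|)) • ∑ j, max (β j) 0 • f (Sum.inl j) := by
    rw [Finset.smul_sum]
    refine Finset.sum_congr rfl fun j _ => ?_
    rw [smul_smul]; congr 1; ring
  have e3 : ∑ j, β j • (f (Sum.inl j) - f (Sum.inr false)) =
      ∑ j, max (β j) 0 • f (Sum.inl j) - ∑ j, max (-β j) 0 • f (Sum.inl j) -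
        (∑ j, max (β j) 0 - ∑ j, max (-β j) 0) • f (Sum.inr false) := by
    rw [← Finset.sum_sub_distrib, ← Finset.sum_sub_distrib, Finset.sum_smul,
      ← Finset.sum_sub_distrib]
    refine Finset.sum_congr rfl fun j _ => ?_
    conv_lhs => rw [eq_max_sub (β j)]
    rw [smul_sub, sub_smul]
  rw [e1, e2, e3]
  have e4 : (∑ j, max (β j) 0) / (1 + ∑ j, |β j|) =
      (1 / (1 + ∑ j, |β j|)) * ∑ j, max (β j) 0 := by ring
  have e5 : (1 + ∑ j, max (-β j) 0) / (1 + ∑ j, |β j|) =
      (1 / (1 + ∑ j, |β j|)) * (1 + ∑ j, max (-β j) 0) := by ring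
  rw [e4, e5]
  module

theorem shift (h : Bp F o) {t : V} (ht : 0 < ZZ F t) {s : Fin k → V} (hs : ∀ j, 0 < ZZ F (s j))
    (hs1 : ∀ j, YY F o (s j) ≤ 1) {β : Fin k → ℝ} (hβ : t - o = ∑ j, β j • (s j - o)) {W : ℝ}
    (hW : ∀ i, qq F i o (1 / 2) ≤ W) (hW0 : 0 ≤ W) :
    ∑ i, (cc F o t i - ∑ j, β j * cc F o (s j) i) ^ 2 ≤
      (256 * W * (4 * (1 + ∑ j, |β j|) + max (YY F o t) 0)) ^ 2 := by
  have hN := Npos β
  set N := 1 + ∑ j, |β j| with hNdef
  have hN1 : 1 ≤ N := by
    have : 0 ≤ ∑ j, |β j| := Finset.sum_nonneg fun j _ => abs_nonneg _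
    linarith
  have hp : ∀ j, 0 < ZZ F (pt o t s j) := by
    rintro (j | _ | _)
    · exact hs j
    · exact h.pos
    · exact ht
  have hr : ∑ j, wL β j • pt o t s j = ∑ j, wR β j • pt o t s j := by
    have := same β (pt o t s)
    rw [← sub_eq_zero, this]
    simp only [pt]
    rw [← hβ, sub_self, smul_zero]
  have hL := h.fam.med (wL0 β) (wL1 β) hp
  have hR := h.fam.med (wR0 β) (wR1 β) hp
  rw [hr] at hL
  set r := ∑ j, wR β j • pt o t s j with hrdef
  have hZr : 0 < ZZ F r := h.fam.ZZ_conv_pos (wR0 β) (wR1 β) hp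
  -- value of `Y` at `r`
  have hsum : ∑ j, max (β j) 0 ≤ N := by
    rw [hNdef, sum_abs]
    linarith [sum_pos_nonneg fun j => -β j]
  have hsum' : ∑ j, max (-β j) 0 ≤ N := by
    rw [hNdef, sum_abs]
    linarith [sum_pos_nonneg β]
  have hYR : ∑ j, wR β j * YY F o (pt o t s j) ≤ 1 := by
    rw [Fintype.sum_sum_type, Fintype.sum_bool]
    simp only [wR, pt, zero_mul, zero_add, h.Y_o, mul_zero, add_zero]
    calc ∑ j, max (β j) 0 / N * YY F o (s j) ≤ ∑ j, max (β j) 0 / N * 1 :=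
          Finset.sum_le_sum fun j _ => mul_le_mul_of_nonneg_left (hs1 j)
            (div_nonneg (le_max_right _ _) hN.le)
      _ = (∑ j, max (β j) 0) / N := by simp [Finset.sum_div]
      _ ≤ 1 := (div_le_one hN).2 hsum
  have hYL : ∑ j, wL β j * YY F o (pt o t s j) ≤ 1 + max (YY F o t) 0 / N := by
    rw [Fintype.sum_sum_type, Fintype.sum_bool]
    simp only [wL, pt, h.Y_o, mul_zero, add_zero]
    refine add_le_add ?_ ?_
    · calc ∑ j, max (-β j) 0 / N * YY F o (s j) ≤ ∑ j, max (-β j) 0 / N * 1 :=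
          Finset.sum_le_sum fun j _ => mul_le_mul_of_nonneg_left (hs1 j)
            (div_nonneg (le_max_right _ _) hN.le)
        _ = (∑ j, max (-β j) 0) / N := by simp [Finset.sum_div]
        _ ≤ 1 := (div_le_one hN).2 hsum'
    · rw [div_mul_eq_mul_div, one_mul]
      exact div_le_div_of_nonneg_right (le_max_left _ _) hN.le
  have hYr : YY F o r ≤ 1 := (h.Y_conv (wR0 β) (wR1 β) hp).trans hYR
  have hdL := h.del_sum_le (wL0 β) (wL1 β) hp
  have hdR := h.del_sum_le (wR0 β) (wR1 β) hp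
  have hdL0 := h.fam.del_nonneg (wL0 β) (wL1 β) hp
  have hdR0 := h.fam.del_nonneg (wR0 β) (wR1 β) hp
  set dL := Fam.del F (wL β) (pt o t s) with hdLd
  set dR := Fam.del F (wR β) (pt o t s) with hdRd
  have hd : N * ∑ i, (dL i + dR i) ≤ 4 * N + max (YY F o t) 0 := by
    rw [Finset.sum_add_distrib]
    have h1 : ∑ i, dL i + ∑ i, dR i ≤ 4 + max (YY F o t) 0 / N := by linarith [log2_le]
    calc N * (∑ i, dL i + ∑ i, dR i) ≤ N * (4 + max (YY F o t) 0 / N) :=
          mul_le_mul_of_nonneg_left h1 hN.le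
      _ = _ := by field_simp
  -- scale at `r`
  have hl : ∀ i, qq F i r (1 / 2) ≤ 512 * W := by
    intro i
    have h1 := h.grow1 hZr i
    have h2 : Real.exp (YY F o r / 8) ≤ 2 := by
      have h3 : Real.exp (YY F o r / 8) ≤ Real.exp (1 / 8) := Real.exp_le_exp.2 (by linarith)
      have h4 : Real.exp (1 / 8) ≤ 2 := by
        have h5 := Real.exp_one_lt_d9
        have h6 : Real.exp (1 / 8) ≤ Real.exp 1 := Real.exp_le_exp.2 (by norm_num)
        have h7 : Real.exp (1 / 8) ^ 8 = Real.exp 1 := by rw [← Real.exp_nat_mul]; norm_num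
        by_contra hc
        push Not at hc
        have h8 : (2:ℝ) ^ 8 < Real.exp (1 / 8) ^ 8 := pow_lt_pow_left₀ hc (by norm_num) (by norm_num)
        rw [h7] at h8
        norm_num at h8
        linarith
      linarith
    calc qq F i r (1 / 2) ≤ _ := h1
      _ ≤ 256 * 2 * W := mul_le_mul (mul_le_mul_of_nonneg_left h2 (by norm_num)) (hW i)
          (h.fam.qd (h.fam.Zi_pos h.pos i)).lpos.le (by norm_num)
      _ = 512 * W := by ring
  have key : ∀ i, |cc F o t i - ∑ j, β j * cc F o (s j) i| ≤ 256 * W * (N * (dL i + dR i)) := by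
    intro i
    have e1 := same β (fun j => QQ F i (pt o t s j) (1 / 2))
    simp only [smul_eq_mul] at e1
    have e2 : cc F o t i - ∑ j, β j * cc F o (s j) i =
        N * (∑ j, wL β j * QQ F i (pt o t s j) (1 / 2) -
          ∑ j, wR β j * QQ F i (pt o t s j) (1 / 2)) := by
      rw [e1, ← mul_assoc, mul_one_div_cancel hN.ne', one_mul]
      rfl
    rw [e2, abs_mul, abs_of_pos hN]
    have h1 := hL i
    have h2 := hR i
    have h3 : |∑ j, wL β j * QQ F i (pt o t s j) (1 / 2) -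
          ∑ j, wR β j * QQ F i (pt o t s j) (1 / 2)| ≤
        qq F i r (1 / 2) / 2 * dL i + qq F i r (1 / 2) / 2 * dR i := by
      rw [abs_le] at h1 h2 ⊢
      constructor <;> linarith [h1.1, h1.2, h2.1, h2.2]
    have h4 : qq F i r (1 / 2) / 2 * dL i + qq F i r (1 / 2) / 2 * dR i ≤
        256 * W * (dL i + dR i) := by
      have := hl i
      have h5 := hdL0 i
      have h6 := hdR0 i
      nlinarith
    calc N * _ ≤ N * (256 * W * (dL i + dR i)) := mul_le_mul_of_nonneg_left (h3.trans h4) hN.le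
      _ = _ := by ring
  have hdn : ∀ i, 0 ≤ 256 * W * (N * (dL i + dR i)) := fun i =>
    mul_nonneg (by positivity) (mul_nonneg hN.le (add_nonneg (hdL0 i) (hdR0 i)))
  calc ∑ i, (cc F o t i - ∑ j, β j * cc F o (s j) i) ^ 2
      ≤ ∑ i, (256 * W * (N * (dL i + dR i))) ^ 2 := by
        refine Finset.sum_le_sum fun i _ => ?_
        rw [← sq_abs]
        exact pow_le_pow_left₀ (abs_nonneg _) (key i) 2
    _ ≤ (∑ i, 256 * W * (N * (dL i + dR i))) ^ 2 :=
        Finset.sum_sq_le_sq_sum_of_nonneg fun i _ => hdn i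
    _ ≤ _ := by
        refine pow_le_pow_left₀ (Finset.sum_nonneg fun i _ => hdn i) ?_ 2
        rw [← Finset.mul_sum, ← Finset.mul_sum]
        exact mul_le_mul_of_nonneg_left hd (by positivity)

end Bp

end Pool.Agent.Q73.KL
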