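import Pool.Agent.Q73.KL.Main
import Pool.Agent.H212R2.KLS.Defs

/-!
# Transfer to Euclidean space
-/

set_option autoImplicit false
set_option linter.unusedSectionVars false

namespace Pool.Agent.Q73.KL

open MeasureTheory Set Filter Topology
open scoped ENNReal InnerProductSpace
open Pool.Agent.H212R2.KLS (mu)

/-- `ℝ^k` -/
abbrev Vk (k : ℕ) : Type := EuclideanSpace ℝ (Fin k)

/-- `ℝ^{k + n}` -/
abbrev Ek (k n : ℕ) : Type := EuclideanSpace ℝ (Fin k ⊕ Fin n)

/-- first `k` coordinates -/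
noncomputable def fs {k n : ℕ} (x : Ek k n) : Vk k := WithLp.toLp 2 fun j => x (Sum.inl j)

/-- the last `n` coordinates -/
def sn {k n : ℕ} (x : Ek k n) : Fin n → ℝ := fun i => x (Sum.inr i)

/-- the vector with given coordinates -/
noncomputable def jn {k n : ℕ} (z : Vk k × (Fin n → ℝ)) : Ek k n :=
  WithLp.toLp 2 (Sum.elim z.1.ofLp z.2)

variable {k n : ℕ}

@[simp] theorem fs_jn (z : Vk k × (Fin n → ℝ)) : fs (jn z) = z.1 := rfl
@[simp] theorem sn_jn (z : Vk k × (Fin n → ℝ)) : sn (jn z) = z.2 := rfl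
@[simp] theorem jn_inl (z : Vk k × (Fin n → ℝ)) (j : Fin k) : jn z (Sum.inl j) = z.1 j := rfl
@[simp] theorem jn_inr (z : Vk k × (Fin n → ℝ)) (i : Fin n) : jn z (Sum.inr i) = z.2 i := rfl

theorem jn_fs (x : Ek k n) : jn (fs x, sn x) = x := by
  ext c
  rcases c with j | i <;> rfl

theorem fs_cont : Continuous (fs : Ek k n → Vk k) := by
  unfold fs
  fun_prop

theorem sn_cont : Continuous (sn : Ek k n → Fin n → ℝ) := by
  unfold sn
  fun_prop

theorem jn_cont : Continuous (jn : Vk k × (Fin n → ℝ) → Ek k n) := by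
  unfold jn
  refine (PiLp.continuous_toLp 2 _).comp (continuous_pi fun c => ?_)
  rcases c with j | i
  · exact (by fun_prop : Continuous fun z : Vk k × (Fin n → ℝ) => z.1 j)
  · exact (by fun_prop : Continuous fun z : Vk k × (Fin n → ℝ) => z.2 i)

theorem jn_mp : MeasurePreserving (jn : Vk k × (Fin n → ℝ) → Ek k n) volume volume := by
  have h1 := PiLp.volume_preserving_toLp (Fin k ⊕ Fin n)
  have h2 := (volume_measurePreserving_sumPiEquivProdPi_symm fun _ : Fin k ⊕ Fin n => ℝ)
  have h3 : MeasurePreserving (Prod.map (WithLp.ofLp : Vk k → Fin k → ℝ) (id : (Fin n → ℝ) → Fin n → ℝ))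
      (volume : Measure (Vk k × (Fin n → ℝ))) volume :=
    (PiLp.volume_preserving_ofLp (Fin k)).prod (MeasurePreserving.id volume)
  have h4 := h1.comp (h2.comp h3)
  have e : (jn : Vk k × (Fin n → ℝ) → Ek k n) = (WithLp.toLp 2 : (Fin k ⊕ Fin n → ℝ) → Ek k n) ∘
      ((MeasurableEquiv.sumPiEquivProdPi fun _ : Fin k ⊕ Fin n => ℝ).symm ∘
        Prod.map (WithLp.ofLp : Vk k → Fin k → ℝ) (id : (Fin n → ℝ) → Fin n → ℝ)) := by
    funext z
    refine PiLp.ext fun c => ?_
    rcases c with j | i <;> rfl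
  rw [e]
  exact h4

/-- the density -/
noncomputable def den (F : Fin n → Vk k → ℝ → ℝ) (x : Ek k n) : ℝ := ∏ i, F i (fs x) (sn x i)

theorem den_meas {F : Fin n → Vk k → ℝ → ℝ} (hF : ∀ i, Measurable (Function.uncurry (F i))) :
    Measurable (den F) := by
  unfold den
  refine Finset.measurable_prod _ fun i _ => ?_
  exact (hF i).comp (fs_cont.measurable.prodMk ((measurable_pi_apply i).comp sn_cont.measurable))

theorem lint_den {F : Fin n → Vk k → ℝ → ℝ} (hF : ∀ i, Measurable (Function.uncurry (F i)))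
    {φ : Ek k n → ℝ≥0∞} (hφ : Measurable φ) :
    ∫⁻ x, φ x ∂(mu (den F)) = ∫⁻ z, φ (jn z) ∂(muF F volume) := by
  have hm := den_meas hF
  unfold mu muF
  have hm2 : Measurable fun z : Vk k × (Fin n → ℝ) => ENNReal.ofReal (∏ i, F i z.1 (z.2 i)) := by
    refine (Finset.measurable_prod _ fun i _ => ?_).ennreal_ofReal
    exact (hF i).comp (measurable_fst.prodMk ((measurable_pi_apply i).comp measurable_snd))
  have hφ2 : Measurable fun z : Vk k × (Fin n → ℝ) => φ (jn z) := hφ.comp jn_cont.measurable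
  rw [lintegral_withDensity_eq_lintegral_mul _ hm.ennreal_ofReal hφ,
    lintegral_withDensity_eq_lintegral_mul _ hm2 hφ2]
  have := (jn_mp (k := k) (n := n)).lintegral_comp (hm.ennreal_ofReal.mul hφ)
  rw [← this]
  rfl

theorem norm_jn_sub (z w : Vk k × (Fin n → ℝ)) :
    ‖jn z - jn w‖ ^ 2 = ‖z.1 - w.1‖ ^ 2 + ∑ i, (z.2 i - w.2 i) ^ 2 := by
  rw [EuclideanSpace.norm_sq_eq, EuclideanSpace.norm_sq_eq, Fintype.sum_sum_type]
  congr 1
  refine Finset.sum_congr rfl fun i _ => ?_
  rw [Real.norm_eq_abs, sq_abs]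
  rfl

theorem lip_of' {κ : Type} [Fintype κ] {f : EuclideanSpace ℝ κ → ℝ} (hf : ContDiff ℝ 1 f)
    (hf' : ∀ x, ‖fderiv ℝ f x‖ ≤ 1) (x y : EuclideanSpace ℝ κ) : |f x - f y| ≤ ‖x - y‖ := by
  have := Convex.norm_image_sub_le_of_norm_fderiv_le (f := f) (s := univ) (C := 1) (𝕜 := ℝ)
    (fun x _ => hf.differentiable (by norm_num) x) (fun x _ => hf' x) convex_univ (mem_univ y)
    (mem_univ x)
  rwa [one_mul, Real.norm_eq_abs] at this

theorem tf_of {f : Ek k n → ℝ} (hf : ContDiff ℝ 1 f) (hf' : ∀ x, ‖fderiv ℝ f x‖ ≤ 1) :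
    Tf fun z : Vk k × (Fin n → ℝ) => f (jn z) where
  cont := hf.continuous.comp jn_cont
  lip z w := by
    rw [← norm_jn_sub, ← sq_abs]
    exact pow_le_pow_left₀ (abs_nonneg _) (lip_of' hf hf' _ _) 2
  grad := by
    refine ⟨fun z i => fderiv ℝ f (jn z) (EuclideanSpace.single (Sum.inr i) 1), fun i => ?_,
      fun t x i s => ?_, fun z => ?_⟩
    · exact ((hf.continuous_fderiv (by norm_num)).comp jn_cont).clm_apply continuous_const
    · have h1 : HasFDerivAt f (fderiv ℝ f (jn (t, Function.update x i s)))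
          (jn (t, Function.update x i s)) := (hf.differentiable (by norm_num) _).hasFDerivAt
      have h2 : HasDerivAt (fun s : ℝ => (jn (t, Function.update x i s) : Ek k n))
          (EuclideanSpace.single (Sum.inr i) 1) s := by
        have e : (fun s : ℝ => (jn (t, Function.update x i s) : Ek k n)) =
            fun s => jn (t, Function.update x i 0) + s • EuclideanSpace.single (Sum.inr i) (1:ℝ) := by
          funext s
          ext c
          rcases c with j | l
          · simp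
          · by_cases hl : l = i
            · subst hl; simp
            · simp [hl]
        rw [e]
        simpa using ((hasDerivAt_id s).smul_const (EuclideanSpace.single (Sum.inr i) (1:ℝ))).const_add
          (jn (t, Function.update x i 0) : Ek k n)
      exact h1.comp_hasDerivAt s h2
    · set D : Fin n → ℝ := fun i => fderiv ℝ f (jn z) (EuclideanSpace.single (Sum.inr i) 1) with hD
      have h1 : fderiv ℝ f (jn z) (∑ i, D i • EuclideanSpace.single (Sum.inr i) (1:ℝ)) = ∑ i, D i ^ 2 := by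
        rw [map_sum]
        refine Finset.sum_congr rfl fun i _ => ?_
        rw [map_smul, smul_eq_mul, ← pow_two]
      have h2 : ‖(∑ i, D i • EuclideanSpace.single (Sum.inr i) (1:ℝ) : Ek k n)‖ ^ 2 = ∑ i, D i ^ 2 := by
        rw [EuclideanSpace.norm_sq_eq, Fintype.sum_sum_type]
        have e1 : ∀ j : Fin k, (∑ i, D i • EuclideanSpace.single (Sum.inr i) (1:ℝ) : Ek k n)
            (Sum.inl j) = 0 := by
          intro j
          simp
        have e2 : ∀ l : Fin n, (∑ i, D i • EuclideanSpace.single (Sum.inr i) (1:ℝ) : Ek k n)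
            (Sum.inr l) = D l := by
          intro l
          simp only [PiLp.smul_apply, WithLp.ofLp_sum, Finset.sum_apply]
          rw [Finset.sum_eq_single l]
          · simp
          · intro b _ hb
            simp [hb.symm]
          · intro h; exact absurd (Finset.mem_univ l) h
        simp only [e1, e2, norm_zero, Real.norm_eq_abs, sq_abs]
        simp
      have h3 := (fderiv ℝ f (jn z)).le_opNorm (∑ i, D i • EuclideanSpace.single (Sum.inr i) (1:ℝ) : Ek k n)
      rw [h1, Real.norm_eq_abs, abs_of_nonneg (Finset.sum_nonneg fun i _ => sq_nonneg _)] at h3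
      have h4 : ∑ i, D i ^ 2 ≤ ‖(∑ i, D i • EuclideanSpace.single (Sum.inr i) (1:ℝ) : Ek k n)‖ :=
        h3.trans (mul_le_of_le_one_left (norm_nonneg _) (hf' _))
      rw [← h2] at h4 ⊢
      set N := ‖(∑ i, D i • EuclideanSpace.single (Sum.inr i) (1:ℝ) : Ek k n)‖
      have hN : 0 ≤ N := norm_nonneg _
      by_contra hc
      push Not at hc
      have : 1 < N := by nlinarith
      nlinarith

/-- variance of Lipschitz functions, bounded densities -/
theorem core' {F : Fin n → Vk k → ℝ → ℝ} (h : Fam F) (hn : 0 < n) (hmass : mu (den F) univ = 1)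
    {s : ℝ} (hs0 : 0 ≤ s) (c : Ek k n)
    (hT : ∀ θ : Ek k n, ∫⁻ x, ENNReal.ofReal (⟪θ, x - c⟫_ℝ ^ 2) ∂(mu (den F)) ≤
      ENNReal.ofReal (s * ‖θ‖ ^ 2))
    {f : Ek k n → ℝ} (hf : ContDiff ℝ 1 f) (hf' : ∀ x, ‖fderiv ℝ f x‖ ≤ 1) :
    ∃ A : ℝ, ∫⁻ x, ENNReal.ofReal ((f x - A) ^ 2) ∂(mu (den F)) ≤
      ENNReal.ofReal (2 ^ 51 * 48 ^ k * s) := by
  have hfr : Module.finrank ℝ (Vk k) = k := by simp
  have hm1 : ∫⁻ t, ENNReal.ofReal (ZZ F t) = 1 := by
    have h1 := h.dis (volume : Measure (Vk k)) (φ := fun _ => 1) measurable_const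
    have h2 := lint_den h.meas (φ := fun _ => (1 : ℝ≥0∞)) measurable_const
    rw [← h2] at h1
    simp only [lintegral_one, hmass] at h1
    have h3 : (Uc n) univ = 1 := measure_univ
    simp only [h3, mul_one] at h1
    exact h1.symm
  have key := core h hn (volume : Measure (Vk k)) hm1 hs0 (fs c) (WithLp.toLp 2 (sn c)) (fun θ => ?_)
    (fun e => ?_) (tf_of hf hf')
  · obtain ⟨A, hA⟩ := key
    refine ⟨A, ?_⟩
    rw [hfr] at hA
    rwa [lint_den h.meas ((((hf.continuous.measurable).sub_const _).pow_const 2).ennreal_ofReal)]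
  · have h1 := hT (jn (θ, 0))
    rw [lint_den h.meas (by fun_prop)] at h1
    have e1 : ‖(jn (θ, 0) : Ek k n)‖ ^ 2 = ‖θ‖ ^ 2 := by
      have := norm_jn_sub (k := k) (n := n) (θ, 0) (0, 0)
      have e0 : (jn ((0 : Vk k), (0 : Fin n → ℝ)) : Ek k n) = 0 := by
        ext c
        rcases c with j | i <;> rfl
      rw [e0, sub_zero] at this
      simpa using this
    rw [e1] at h1
    refine le_trans (le_of_eq ?_) h1
    refine lintegral_congr fun z => ?_
    congr 2
    rw [PiLp.inner_apply, PiLp.inner_apply, Fintype.sum_sum_type]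
    have : ∑ i : Fin n, ⟪(jn (θ, 0) : Ek k n) (Sum.inr i), (jn z - c) (Sum.inr i)⟫_ℝ = 0 := by
      refine Finset.sum_eq_zero fun i _ => ?_
      simp
    rw [this, add_zero]
    rfl
  · have h1 := hT (jn (0, e.ofLp))
    rw [lint_den h.meas (by fun_prop)] at h1
    have e1 : ‖(jn (0, e.ofLp) : Ek k n)‖ ^ 2 = ‖e‖ ^ 2 := by
      have := norm_jn_sub (k := k) (n := n) (0, e.ofLp) (0, 0)
      have e0 : (jn ((0 : Vk k), (0 : Fin n → ℝ)) : Ek k n) = 0 := by
        ext c
        rcases c with j | i <;> rfl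
      rw [e0, sub_zero] at this
      rw [this, EuclideanSpace.norm_sq_eq e]
      simp [Real.norm_eq_abs, sq_abs]
    rw [e1] at h1
    refine le_trans (le_of_eq ?_) h1
    refine lintegral_congr fun z => ?_
    congr 2
    rw [PiLp.inner_apply, Fintype.sum_sum_type]
    have : ∑ i : Fin k, ⟪(jn ((0 : Vk k), e.ofLp) : Ek k n) (Sum.inl i), (jn z - c) (Sum.inl i)⟫_ℝ = 0 := by
      refine Finset.sum_eq_zero fun i _ => ?_
      simp
    rw [this, zero_add]
    refine Finset.sum_congr rfl fun i _ => ?_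
    simp [sn, mul_comm]

end Pool.Agent.Q73.KL
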