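import Pool.Agent.Q73.KL.Pl

/-!
# Two log-concave functions: growth of the scale and comparison of the shapes
-/

set_option autoImplicit false

namespace Pool.Agent.Q73.KL

open MeasureTheory Set Filter Topology
open scoped ENNReal

section two

variable {F0 F1 Fr : ℝ → ℝ} {Z0 Z1 Zr : ℝ} {Q0 q0 Q1 q1 Qr qr : ℝ → ℝ}

theorem conf2 (h0 : QD F0 Z0 Q0 q0) (h1 : QD F1 Z1 Q1 q1) (hr : QD Fr Zr Qr qr) {t : ℝ} (t0 : 0 < t)
    (t1 : t < 1) (hm : ∀ x y, F0 x ^ (1 - t) * F1 y ^ t ≤ Fr ((1 - t) * x + t * y)) :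
    Conf ![1 - t, t] ![F0, F1] ![Z0, Z1] ![Q0, Q1] ![q0, q1] Fr Zr Qr qr where
  w0 j := by fin_cases j <;> simp <;> linarith
  w1 := by simp
  qd j := by fin_cases j <;> simpa
  qdr := hr
  maj x := by simpa [Fin.sum_univ_two, Fin.prod_univ_two] using hm (x 0) (x 1)

theorem total2 (h0 : QD F0 Z0 Q0 q0) (h1 : QD F1 Z1 Q1 q1) (hr : QD Fr Zr Qr qr) {t : ℝ} (t0 : 0 < t)
    (t1 : t < 1) (hm : ∀ x y, F0 x ^ (1 - t) * F1 y ^ t ≤ Fr ((1 - t) * x + t * y)) :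
    ENNReal.ofReal (Z0 ^ (1 - t) * Z1 ^ t) * ∫⁻ u in Ioo (0:ℝ) 1,
      ENNReal.ofReal (((1 - t) * q0 u + t * q1 u) / (q0 u ^ (1 - t) * q1 u ^ t)) ≤
    ENNReal.ofReal Zr := by
  have := (conf2 h0 h1 hr t0 t1 hm).total
  simpa [Fin.sum_univ_two, Fin.prod_univ_two] using this

/-- growth of the scale -/
theorem grow (h0 : QD F0 Z0 Q0 q0) (h1 : QD F1 Z1 Q1 q1) (hr : QD Fr Zr Qr qr) {t : ℝ} (t0 : 0 < t)
    (t1 : t < 1) (hm : ∀ x y, F0 x ^ (1 - t) * F1 y ^ t ≤ Fr ((1 - t) * x + t * y)) :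
    t / 2 * (q1 (1 / 2) / (4 * q0 (1 / 2))) ^ (1 - t) * (Z0 ^ (1 - t) * Z1 ^ t) ≤ Zr := by
  have hP : 0 < Z0 ^ (1 - t) * Z1 ^ t :=
    mul_pos (Real.rpow_pos_of_pos h0.Zpos _) (Real.rpow_pos_of_pos h1.Zpos _)
  have l0 := h0.lpos
  have l1 := h1.lpos
  have hsub : Ioo (1/4:ℝ) (3/4) ⊆ Ioo 0 1 := Ioo_subset_Ioo (by norm_num) (by norm_num)
  have key : ∀ u ∈ Ioo (1/4:ℝ) (3/4), t * (q1 (1 / 2) / (4 * q0 (1 / 2))) ^ (1 - t) ≤
      ((1 - t) * q0 u + t * q1 u) / (q0 u ^ (1 - t) * q1 u ^ t) := by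
    intro u hu
    have hu' := hsub hu
    have p0 := h0.qpos u hu'
    have p1 := h1.qpos u hu'
    have e1 : t * (q1 u / q0 u) ^ (1 - t) = t * q1 u / (q0 u ^ (1 - t) * q1 u ^ t) := by
      rw [Real.div_rpow p1.le p0.le]
      have : q1 u ^ (1 - t) * q1 u ^ t = q1 u := LC1.split p1.le t0 t1
      have hq : 0 < q1 u ^ t := Real.rpow_pos_of_pos p1 _
      have hq' : 0 < q0 u ^ (1 - t) := Real.rpow_pos_of_pos p0 _
      rw [mul_div_assoc', div_eq_div_iff hq'.ne' (mul_pos hq' hq).ne']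
      calc t * q1 u ^ (1 - t) * (q0 u ^ (1 - t) * q1 u ^ t)
          = t * (q1 u ^ (1 - t) * q1 u ^ t) * q0 u ^ (1 - t) := by ring
        _ = _ := by rw [this]
    have e2 : q1 (1 / 2) / (4 * q0 (1 / 2)) ≤ q1 u / q0 u := by
      have a1 := h1.low u hu'
      have a2 := h0.up u hu'
      have a3 : (1/4 : ℝ) ≤ min u (1 - u) := le_min hu.1.le (by linarith [hu.2])
      have a4 : q0 u ≤ 2 * q0 (1/2) := by nlinarith
      rw [div_le_div_iff₀ (by positivity) p0]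
      nlinarith
    calc t * (q1 (1 / 2) / (4 * q0 (1 / 2))) ^ (1 - t) ≤ t * (q1 u / q0 u) ^ (1 - t) := by
          refine mul_le_mul_of_nonneg_left ?_ t0.le
          exact Real.rpow_le_rpow (by positivity) e2 (by linarith)
      _ = t * q1 u / (q0 u ^ (1 - t) * q1 u ^ t) := e1
      _ ≤ _ := by
          refine div_le_div_of_nonneg_right ?_ (mul_nonneg (Real.rpow_nonneg p0.le _)
            (Real.rpow_nonneg p1.le _))
          have : 0 ≤ (1 - t) * q0 u := mul_nonneg (by linarith) p0.le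
          linarith
  set c := t * (q1 (1 / 2) / (4 * q0 (1 / 2))) ^ (1 - t) with hc
  have hc0 : 0 ≤ c := mul_nonneg t0.le (Real.rpow_nonneg (by positivity) _)
  have h2 := total2 h0 h1 hr t0 t1 hm
  have h3 : ENNReal.ofReal (c * (1/2)) ≤ ∫⁻ u in Ioo (0:ℝ) 1,
      ENNReal.ofReal (((1 - t) * q0 u + t * q1 u) / (q0 u ^ (1 - t) * q1 u ^ t)) := by
    calc ENNReal.ofReal (c * (1/2)) = ∫⁻ _u in Ioo (1/4:ℝ) (3/4), ENNReal.ofReal c := by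
          rw [setLIntegral_const, Real.volume_Ioo, ← ENNReal.ofReal_mul hc0]
          norm_num
      _ ≤ ∫⁻ u in Ioo (1/4:ℝ) (3/4),
            ENNReal.ofReal (((1 - t) * q0 u + t * q1 u) / (q0 u ^ (1 - t) * q1 u ^ t)) :=
          setLIntegral_mono_ae' measurableSet_Ioo (Eventually.of_forall fun u hu =>
            ENNReal.ofReal_le_ofReal (key u hu))
      _ ≤ _ := lintegral_mono_set hsub
  have h4 : ENNReal.ofReal ((Z0 ^ (1 - t) * Z1 ^ t) * (c * (1/2))) ≤ ENNReal.ofReal Zr := by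
    rw [ENNReal.ofReal_mul hP.le]
    exact (mul_le_mul' le_rfl h3).trans h2
  rw [ENNReal.ofReal_le_ofReal_iff hr.Zpos.le] at h4
  calc t / 2 * (q1 (1 / 2) / (4 * q0 (1 / 2))) ^ (1 - t) * (Z0 ^ (1 - t) * Z1 ^ t)
      = (Z0 ^ (1 - t) * Z1 ^ t) * (c * (1/2)) := by rw [hc]; ring
    _ ≤ Zr := h4

theorem pt_ineq {a b m l : ℝ} (ha : 0 < a) (hb : 0 < b) (hm : 0 ≤ m) (hla : 2 * m * a ≤ l)
    (hlb : 2 * m * b ≤ l) :
    (m * (b - a)) ^ 2 ≤ 2 * l ^ 2 * ((1 / 2 * a + 1 / 2 * b) / (Real.sqrt a * Real.sqrt b) - 1) := by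
  obtain ⟨x, hx, rfl⟩ : ∃ x : ℝ, 0 < x ∧ a = x ^ 2 := ⟨Real.sqrt a, Real.sqrt_pos.2 ha, (Real.sq_sqrt ha.le).symm⟩
  obtain ⟨y, hy, rfl⟩ : ∃ x : ℝ, 0 < x ∧ b = x ^ 2 := ⟨Real.sqrt b, Real.sqrt_pos.2 hb, (Real.sq_sqrt hb.le).symm⟩
  rw [Real.sqrt_sq hx.le, Real.sqrt_sq hy.le]
  have e1 : (1 / 2 * x ^ 2 + 1 / 2 * y ^ 2) / (x * y) - 1 = (y - x) ^ 2 / (2 * (x * y)) := by
    field_simp
    ring
  rw [e1, mul_div_assoc', le_div_iff₀ (by positivity)]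
  have hl : 0 ≤ l := le_trans (by positivity) hla
  -- `m² (y+x)² x y ≤ l²`
  have k1 : (m * (x + y) ^ 2) ≤ 2 * l := by nlinarith [sq_nonneg (x - y)]
  have k2 : m * (x * y) ≤ l / 2 := by nlinarith [sq_nonneg (x - y)]
  have k3 : (m * (x + y) ^ 2) * (m * (x * y)) ≤ (2 * l) * (l / 2) :=
    mul_le_mul k1 k2 (by positivity) (by linarith)
  have k4 : (m * (y ^ 2 - x ^ 2)) ^ 2 * (2 * (x * y)) =
      2 * (y - x) ^ 2 * ((m * (x + y) ^ 2) * (m * (x * y))) := by ring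
  rw [k4]
  nlinarith [mul_le_mul_of_nonneg_left k3 (by positivity : 0 ≤ 2 * (y - x) ^ 2)]

/-- comparison of the shapes -/
theorem shape (h0 : QD F0 Z0 Q0 q0) (h1 : QD F1 Z1 Q1 q1) (hr : QD Fr Zr Qr qr)
    (hm : ∀ x y, F0 x ^ (1 - (1 / 2 : ℝ)) * F1 y ^ (1 / 2 : ℝ) ≤
      Fr ((1 - (1 / 2 : ℝ)) * x + (1 / 2 : ℝ) * y)) {l : ℝ} (hl0 : q0 (1 / 2) ≤ l)
    (hl1 : q1 (1 / 2) ≤ l) :
    ∫⁻ u in Ioo (0:ℝ) 1, ENNReal.ofReal (((Q1 u - Q0 u) - (Q1 (1 / 2) - Q0 (1 / 2))) ^ 2) ≤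
      ENNReal.ofReal (8 * l ^ 2 * (Zr / (Real.sqrt Z0 * Real.sqrt Z1) - 1)) := by
  have h2 := total2 h0 h1 hr (t := 1/2) (by norm_num) (by norm_num) hm
  have hs : ∀ x : ℝ, x ^ (1 - (1/2:ℝ)) = Real.sqrt x := fun x => by
    rw [Real.sqrt_eq_rpow]; norm_num
  have hs' : ∀ x : ℝ, x ^ ((1/2:ℝ)) = Real.sqrt x := fun x => (Real.sqrt_eq_rpow x).symm
  simp only [hs, hs'] at h2
  have e0 : (1 : ℝ) - 1 / 2 = 1 / 2 := by norm_num
  rw [e0] at h2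
  have hZ0 := Real.sqrt_pos.2 h0.Zpos
  have hZ1 := Real.sqrt_pos.2 h1.Zpos
  have hP : 0 < Real.sqrt Z0 * Real.sqrt Z1 := mul_pos hZ0 hZ1
  set D : ℝ → ℝ := fun u => (1 / 2 * q0 u + 1 / 2 * q1 u) / (Real.sqrt (q0 u) * Real.sqrt (q1 u)) with hD
  have hD1 : ∀ u ∈ Ioo (0:ℝ) 1, 1 ≤ D u := by
    intro u hu
    have p0 := h0.qpos u hu
    have p1 := h1.qpos u hu
    have := pt_ineq p0 p1 (m := 1) (l := 2 * (q0 u + q1 u)) (by norm_num) (by linarith) (by linarith)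
    by_contra hc
    push Not at hc
    have h3 : D u - 1 < 0 := by linarith
    have h4 : 2 * (2 * (q0 u + q1 u)) ^ 2 * (D u - 1) < 0 := mul_neg_of_pos_of_neg (by positivity) h3
    have h5 : 0 ≤ (1 * (q1 u - q0 u)) ^ 2 := sq_nonneg _
    linarith
  -- `∫ (D - 1) ≤ Zr / P - 1`
  have h3 : ∫⁻ u in Ioo (0:ℝ) 1, ENNReal.ofReal (D u - 1) ≤
      ENNReal.ofReal (Zr / (Real.sqrt Z0 * Real.sqrt Z1) - 1) := by
    have k1 : ∫⁻ u in Ioo (0:ℝ) 1, ENNReal.ofReal (D u) =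
        1 + ∫⁻ u in Ioo (0:ℝ) 1, ENNReal.ofReal (D u - 1) := by
      have k2 : ∫⁻ u in Ioo (0:ℝ) 1, ENNReal.ofReal (D u) =
          ∫⁻ u in Ioo (0:ℝ) 1, (1 + ENNReal.ofReal (D u - 1)) := by
        refine setLIntegral_congr_fun measurableSet_Ioo fun u hu => ?_
        have := hD1 u hu
        rw [← ENNReal.ofReal_one, ← ENNReal.ofReal_add zero_le_one (by linarith)]
        congr 1; ring
      rw [k2, lintegral_add_left measurable_const]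
      simp
    have k3 : ENNReal.ofReal (Real.sqrt Z0 * Real.sqrt Z1) *
        (1 + ∫⁻ u in Ioo (0:ℝ) 1, ENNReal.ofReal (D u - 1)) ≤ ENNReal.ofReal Zr := by
      rw [← k1]; exact h2
    have k4 : 1 + ∫⁻ u in Ioo (0:ℝ) 1, ENNReal.ofReal (D u - 1) ≤
        ENNReal.ofReal (Zr / (Real.sqrt Z0 * Real.sqrt Z1)) := by
      rw [ENNReal.ofReal_div_of_pos hP, ENNReal.le_div_iff_mul_le
        (Or.inl (ENNReal.ofReal_pos.2 hP).ne') (Or.inl ENNReal.ofReal_ne_top), mul_comm]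
      exact k3
    rw [ENNReal.ofReal_sub _ zero_le_one, ENNReal.ofReal_one]
    exact ENNReal.le_sub_of_add_le_left ENNReal.one_ne_top k4
  have h4 := hardy (h := fun u => Q1 u - Q0 u) (h' := fun u => q1 u - q0 u)
    (fun u hu => (h1.deriv u hu).sub (h0.deriv u hu)) (h1.cont.sub h0.cont)
  refine h4.trans ?_
  have hl : 0 ≤ l := h0.lpos.le.trans hl0
  have h5 : ∫⁻ u in Ioo (0:ℝ) 1, ENNReal.ofReal ((min u (1 - u) * (q1 u - q0 u)) ^ 2) ≤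
      ENNReal.ofReal (2 * l ^ 2) * ∫⁻ u in Ioo (0:ℝ) 1, ENNReal.ofReal (D u - 1) := by
    rw [← lintegral_const_mul' _ _ ENNReal.ofReal_ne_top]
    refine setLIntegral_mono_ae' measurableSet_Ioo (Eventually.of_forall fun u hu => ?_)
    rw [← ENNReal.ofReal_mul (by positivity)]
    refine ENNReal.ofReal_le_ofReal ?_
    exact pt_ineq (h0.qpos u hu) (h1.qpos u hu) (le_min hu.1.le (by linarith [hu.2]))
      ((h0.up u hu).trans hl0) ((h1.up u hu).trans hl1)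
  calc 4 * ∫⁻ u in Ioo (0:ℝ) 1, ENNReal.ofReal ((min u (1 - u) * (q1 u - q0 u)) ^ 2)
      ≤ 4 * (ENNReal.ofReal (2 * l ^ 2) *
          ENNReal.ofReal (Zr / (Real.sqrt Z0 * Real.sqrt Z1) - 1)) :=
        mul_le_mul' le_rfl (h5.trans (mul_le_mul' le_rfl h3))
    _ = ENNReal.ofReal (8 * l ^ 2 * (Zr / (Real.sqrt Z0 * Real.sqrt Z1) - 1)) := by
        rw [← ENNReal.ofReal_mul (by positivity), show (4 : ℝ≥0∞) = ENNReal.ofReal 4 by norm_num,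
          ← ENNReal.ofReal_mul (by norm_num)]
        congr 1; ring

end two

end Pool.Agent.Q73.KL
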